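import Pool.Agent.Helper69.NE.Defs

/-!
# Project BECX P3, NE, piece Cnt: counting tuples of distinct non adjacent vertices
-/

set_option autoImplicit false

open Classical Finset

namespace Pool.Agent.Helper69.NE

noncomputable section

variable {V : Type} [Fintype V]

/-- every vertex of `P` kills itself and its at most `D` neighbours -/
theorem card_NN (G : SimpleGraph V) (J P : Finset V) (D : ℕ) (hD : ∀ v, dg G v univ ≤ D) :
    #J ≤ #(J ∩ NN G P) + #P * (D + 1) := by
  have h1 : J ⊆ (J ∩ NN G P) ∪ P.biUnion (fun p => insert p (univ.filter fun w => G.Adj p w)) := by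
    intro v hv
    rw [mem_union, mem_biUnion, mem_inter]
    by_cases h : ∃ p ∈ P, v ∈ insert p (univ.filter fun w => G.Adj p w)
    · exact Or.inr h
    · left
      refine ⟨hv, mem_filter.mpr ⟨mem_univ _, fun p hp => ⟨?_, ?_⟩⟩⟩
      · rintro rfl
        exact h ⟨p, hp, mem_insert_self _ _⟩
      · intro hadj
        exact h ⟨p, hp, mem_insert_of_mem (mem_filter.mpr ⟨mem_univ _, hadj⟩)⟩
  have h2 : #(P.biUnion (fun p => insert p (univ.filter fun w => G.Adj p w))) ≤ #P * (D + 1) := by
    refine card_biUnion_le_card_mul _ _ _ fun p _ => ?_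
    refine (card_insert_le _ _).trans ?_
    have := hD p
    unfold dg at this
    omega
  exact ((card_le_card h1).trans (card_union_le _ _)).trans (Nat.add_le_add_left h2 _)

/-- appending one vertex -/
private theorem snoc_mem {G : SimpleGraph V} {J : ℕ → Finset V} {q : ℕ} {u : Fin q → V} {x : V}
    (hu : u ∈ Fs G J q) (hx : x ∈ J q) (hn : x ∈ NN G (univ.image u)) :
    (Fin.snoc u x : Fin (q + 1) → V) ∈ Fs G J (q + 1) := by
  obtain ⟨-, hc, hj⟩ := mem_filter.mp hu
  have hn' := (mem_filter.mp hn).2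
  have key : ∀ i : Fin q, u i ≠ x ∧ ¬ G.Adj (u i) x := fun i =>
    hn' (u i) (mem_image_of_mem u (mem_univ i))
  refine mem_filter.mpr ⟨mem_univ _, ?_, ?_⟩
  · intro i j
    refine Fin.lastCases ?_ (fun i => ?_) i
    · refine Fin.lastCases ?_ (fun j => ?_) j
      · intro h
        exact absurd rfl h
      · intro _
        rw [Fin.snoc_last, Fin.snoc_castSucc]
        exact ⟨(key j).1.symm, fun h => (key j).2 h.symm⟩
    · refine Fin.lastCases ?_ (fun j => ?_) j
      · intro _
        rw [Fin.snoc_last, Fin.snoc_castSucc]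
        exact key i
      · intro h
        rw [Fin.snoc_castSucc, Fin.snoc_castSucc]
        exact hc i j fun h' => h (by rw [h'])
  · intro j
    refine Fin.lastCases ?_ (fun j => ?_) j
    · rw [Fin.snoc_last]
      exact hx
    · rw [Fin.snoc_castSucc]
      exact hj j

omit [Fintype V] in
private theorem image_card {q : ℕ} (u : Fin q → V) : #(univ.image u) ≤ q := by
  refine card_image_le.trans ?_
  rw [card_univ, Fintype.card_fin]

omit [Fintype V] in
private theorem snoc_inj {q : ℕ} {u u' : Fin q → V} {x x' : V}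
    (h : (Fin.snoc u x : Fin (q + 1) → V) = Fin.snoc u' x') : u = u' ∧ x = x' := by
  constructor
  · funext i
    have := congrFun h (Fin.castSucc i)
    rwa [Fin.snoc_castSucc, Fin.snoc_castSucc] at this
  · have := congrFun h (Fin.last q)
    rwa [Fin.snoc_last, Fin.snoc_last] at this

/-- Append one vertex (`Fin.snoc`). -/
theorem Fs_succ (G : SimpleGraph V) (J : ℕ → Finset V) (q k : ℕ)
    (h : ∀ P : Finset V, #P ≤ q → k ≤ #(J q ∩ NN G P)) :
    #(Fs G J q) * k ≤ #(Fs G J (q + 1)) := by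
  have h1 : #(Fs G J q) * k ≤ #((Fs G J q).sigma fun u => J q ∩ NN G (univ.image u)) := by
    rw [card_sigma, ← smul_eq_mul]
    exact card_nsmul_le_sum _ _ _ fun u _ => h _ (image_card u)
  refine h1.trans (card_le_card_of_injOn
    (fun p : (Σ _ : Fin q → V, V) => (Fin.snoc p.1 p.2 : Fin (q + 1) → V)) ?_ ?_)
  · rintro ⟨u, x⟩ hp
    rw [mem_coe, mem_sigma, mem_inter] at hp
    exact snoc_mem hp.1 hp.2.1 hp.2.2
  · rintro ⟨u, x⟩ _ ⟨u', x'⟩ _ heq
    obtain ⟨h1, h2⟩ := snoc_inj heq
    change u = u' at h1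
    change x = x' at h2
    rw [h1, h2]

/-- Append two vertices. -/
theorem Fs_pair (G : SimpleGraph V) (J : ℕ → Finset V) (q g : ℕ) (hJ : J (q + 1) = J q)
    (h : ∀ P : Finset V, #P ≤ q → g ≤ hn G (J q ∩ NN G P)) :
    #(Fs G J q) * g ≤ #(Fs G J (q + 2)) := by
  have h1 : #(Fs G J q) * g ≤ #((Fs G J q).sigma fun u =>
      ((J q ∩ NN G (univ.image u)) ×ˢ (J q ∩ NN G (univ.image u))).filter
        fun p => p.1 ≠ p.2 ∧ ¬ G.Adj p.1 p.2) := by
    rw [card_sigma, ← smul_eq_mul]
    exact card_nsmul_le_sum _ _ _ fun u _ => h _ (image_card u)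
  refine h1.trans (card_le_card_of_injOn
    (fun p : (Σ _ : Fin q → V, V × V) =>
      (Fin.snoc (Fin.snoc p.1 p.2.1 : Fin (q + 1) → V) p.2.2 : Fin (q + 2) → V)) ?_ ?_)
  · rintro ⟨u, x, y⟩ hp
    rw [mem_coe, mem_sigma, mem_filter, mem_product, mem_inter, mem_inter] at hp
    obtain ⟨hu, ⟨⟨hx1, hx2⟩, hy1, hy2⟩, hxy, hnxy⟩ := hp
    refine snoc_mem (snoc_mem hu hx1 hx2) ?_ ?_
    · rw [hJ]
      exact hy1
    · refine mem_filter.mpr ⟨mem_univ _, fun p hp => ?_⟩
      obtain ⟨i, -, rfl⟩ := mem_image.mp hp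
      refine Fin.lastCases ?_ (fun i => ?_) i
      · rw [Fin.snoc_last]
        exact ⟨hxy, hnxy⟩
      · rw [Fin.snoc_castSucc]
        exact (mem_filter.mp hy2).2 _ (mem_image_of_mem u (mem_univ i))
  · rintro ⟨u, x, y⟩ _ ⟨u', x', y'⟩ _ heq
    obtain ⟨h1, h2⟩ := snoc_inj heq
    obtain ⟨h3, h4⟩ := snoc_inj h1
    change x = x' at h4
    change y = y' at h2
    change u = u' at h3
    rw [h2, h3, h4]

/-- induction with `Fs_succ` and `card_NN` -/
theorem normal_count (G : SimpleGraph V) (D : ℕ) (hD : ∀ v, dg G v univ ≤ D) (J : ℕ → Finset V)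
    (k : ℕ → ℕ) (s : ℕ) (hJ : ∀ j < s, j * (D + 1) + k j ≤ #(J j)) :
    ∏ j ∈ range s, k j ≤ #(Fs G J s) := by
  induction s with
  | zero =>
    rw [range_zero, prod_empty, one_le_card]
    exact ⟨fun i => i.elim0, mem_filter.mpr ⟨mem_univ _, fun i => i.elim0, fun i => i.elim0⟩⟩
  | succ s ih =>
    rw [prod_range_succ]
    refine (Nat.mul_le_mul_right _ (ih fun j hj => hJ j (by omega))).trans ?_
    refine Fs_succ G J s (k s) fun P hP => ?_
    have h1 := card_NN G (J s) P D hD
    have h2 := hJ s (Nat.lt_succ_self s)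
    have h3 : #P * (D + 1) ≤ s * (D + 1) := Nat.mul_le_mul_right _ hP
    omega

/-- `normal_count` up to `a`, `Fs_pair`, then induction with `Fs_succ` -/
theorem special_count (G : SimpleGraph V) (D : ℕ) (hD : ∀ v, dg G v univ ≤ D) (J : ℕ → Finset V)
    (k s a g z : ℕ) (ha : a + 2 ≤ s) (hJ1 : J (a + 1) = J a) (hQ : a * (D + 1) + z ≤ #(J a))
    (hz : ∀ Z ⊆ J a, z ≤ #Z → g ≤ hn G Z)
    (hJ : ∀ j < s, j ≠ a → j ≠ a + 1 → j * (D + 1) + k ≤ #(J j)) :
    k ^ (s - 2) * g ≤ #(Fs G J s) := by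
  have base : k ^ a * g ≤ #(Fs G J (a + 2)) := by
    have h1 := normal_count G D hD J (fun _ => k) a fun j hj => hJ j (by omega) (by omega) (by omega)
    rw [prod_const, card_range] at h1
    refine (Nat.mul_le_mul_right _ h1).trans ?_
    refine Fs_pair G J a g hJ1 fun P hP => hz _ inter_subset_left ?_
    have h2 := card_NN G (J a) P D hD
    have h3 : #P * (D + 1) ≤ a * (D + 1) := Nat.mul_le_mul_right _ hP
    omega
  have step : ∀ t, a + 2 ≤ t → t ≤ s → k ^ (t - 2) * g ≤ #(Fs G J t) := by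
    intro t ht
    induction t, ht using Nat.le_induction with
    | base =>
      intro _
      rw [Nat.add_sub_cancel]
      exact base
    | succ t ht ih =>
      intro hts
      have h1 := ih (by omega)
      have e1 : t + 1 - 2 = (t - 2) + 1 := by omega
      rw [e1, pow_succ]
      calc k ^ (t - 2) * k * g = k ^ (t - 2) * g * k := by ring
        _ ≤ #(Fs G J t) * k := Nat.mul_le_mul_right _ h1
        _ ≤ #(Fs G J (t + 1)) := by
          refine Fs_succ G J t k fun P hP => ?_
          have h2 := card_NN G (J t) P D hD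
          have h3 := hJ t (by omega) (by omega) (by omega)
          have h4 : #P * (D + 1) ≤ t * (D + 1) := Nat.mul_le_mul_right _ hP
          omega
  exact step s ha le_rfl

end

end Pool.Agent.Helper69.NE
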