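import Pool.Agent.Helper69.NE.AbsDefs
import Pool.Agent.Helper69.NE.Cnt

/-!
# Project BECX P3, NE, piece AbsCnt: there are many absorbers
-/

set_option autoImplicit false

open Classical Finset

namespace Pool.Agent.Helper69.NE

noncomputable section

variable {V : Type} [Fintype V]

/-- the `(s-1)`-tuples in the common non-neighbourhood of `x` and `y` -/
def Cm (G : SimpleGraph V) (s : ℕ) (x y : V) : Finset (Fin (s - 1) → V) :=
  univ.filter fun b => Clq G b ∧ ∀ j, (x ≠ b j ∧ ¬ G.Adj x (b j)) ∧ (y ≠ b j ∧ ¬ G.Adj y (b j))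

/-- `special_count` with `J j = NN G {x, y}` for all `j`, length `s - 1`, `a = s - 3` and `k = M`:
`#(NN G {x, y}) ≥ s M - 2 (D + 1)` by `card_NN`. -/
theorem pair_count (G : SimpleGraph V) (s M D g z : ℕ) (hs : 3 ≤ s) (hV : Fintype.card V = s * M)
    (hD : ∀ v, dg G v univ ≤ D) (h1 : (s - 2) * (D + 1) + M ≤ s * M)
    (h2 : (s - 1) * (D + 1) + z ≤ s * M) (hz : ∀ Z : Finset V, z ≤ #Z → g ≤ hn G Z) (x y : V) :
    M ^ (s - 3) * g ≤ #(Cm G s x y) := by
  have hA : s * M ≤ #(NN G {x, y}) + 2 * (D + 1) := by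
    have h := card_NN G univ {x, y} D hD
    rw [univ_inter, card_univ, hV] at h
    have h3 : #({x, y} : Finset V) ≤ 2 := card_le_two
    have h4 : #({x, y} : Finset V) * (D + 1) ≤ 2 * (D + 1) := Nat.mul_le_mul_right _ h3
    omega
  obtain ⟨r, rfl⟩ : ∃ r, s = r + 3 := ⟨s - 3, by omega⟩
  have h := special_count G D hD (fun _ => NN G {x, y}) M (r + 2) r g z le_rfl rfl
    (by
      have e : (r + 3 - 1) * (D + 1) = r * (D + 1) + 2 * (D + 1) := by
        rw [← add_mul]; congr 1
      rw [e] at h2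
      show r * (D + 1) + z ≤ #(NN G {x, y})
      omega)
    (fun Z _ hZ => hz Z hZ)
    (fun j hj hj1 hj2 => by
      have hjr : j + 1 ≤ r := by omega
      have e : (r + 3 - 2) * (D + 1) = (r + 1) * (D + 1) := by congr 1
      rw [e] at h1
      have h3 : (j + 2) * (D + 1) ≤ (r + 1) * (D + 1) := Nat.mul_le_mul_right _ (by omega)
      have h4 : (j + 2) * (D + 1) = j * (D + 1) + 2 * (D + 1) := by ring
      show j * (D + 1) + M ≤ #(NN G {x, y})
      omega)
  refine h.trans (card_le_card ?_)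
  intro u hu
  obtain ⟨-, hc, hj⟩ := mem_filter.mp hu
  refine mem_filter.mpr ⟨mem_univ _, hc, fun j => ?_⟩
  have hm := (mem_filter.mp (hj j)).2
  exact ⟨hm x (by simp), hm y (by simp)⟩

/-- `normal_count` -/
theorem col_count (G : SimpleGraph V) (s M D k : ℕ) (hV : Fintype.card V = s * M)
    (hD : ∀ v, dg G v univ ≤ D) (h1 : (s - 1) * (D + 1) + k ≤ s * M) :
    k ^ s ≤ #(univ.filter fun u : Fin s → V => Clq G u) := by
  have h := normal_count G D hD (fun _ => univ) (fun _ => k) s (fun j hj => by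
    rw [card_univ, hV]
    have h3 : j * (D + 1) ≤ (s - 1) * (D + 1) := Nat.mul_le_mul_right _ (by omega)
    omega)
  rw [prod_const, card_range] at h
  refine h.trans (card_le_card ?_)
  intro u hu
  exact mem_filter.mpr ⟨mem_univ _, (mem_filter.mp hu).2.1⟩

/-- `∑_{z with Clq} ∏ i, #(Cm (x i) (z i))` -/
theorem abs_count (G : SimpleGraph V) (s p q : ℕ)
    (h1 : p ≤ #(univ.filter fun u : Fin s → V => Clq G u)) (h2 : ∀ x y, q ≤ #(Cm G s x y))
    (x : Fin s → V) : p * q ^ s ≤ #(univ.filter fun a : Arr V s => Abb G s x a) := by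
  have h3 : p * q ^ s ≤ #((univ.filter fun u : Fin s → V => Clq G u).sigma fun u =>
      Fintype.piFinset fun i => Cm G s (x i) (u i)) := by
    rw [card_sigma]
    refine (Nat.mul_le_mul_right _ h1).trans ?_
    rw [← smul_eq_mul]
    refine card_nsmul_le_sum _ _ _ fun u _ => ?_
    rw [Fintype.card_piFinset]
    have h4 : ∏ _i : Fin s, q ≤ ∏ i : Fin s, #(Cm G s (x i) (u i)) :=
      Finset.prod_le_prod' fun i _ => h2 _ _
    rwa [prod_const, card_univ, Fintype.card_fin] at h4
  refine h3.trans (card_le_card_of_injOn (fun a => ((a.1, a.2) : Arr V s)) ?_ ?_)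
  · rintro ⟨u, b⟩ hp
    rw [mem_coe, mem_sigma] at hp
    obtain ⟨hu, hb⟩ := hp
    rw [mem_coe]
    refine mem_filter.mpr ⟨mem_univ _, ?_⟩
    have hb' : ∀ i, b i ∈ Cm G s (x i) (u i) := Fintype.mem_piFinset.mp hb
    exact ⟨(mem_filter.mp hu).2, fun i => (mem_filter.mp (hb' i)).2.1,
      fun i j => ((mem_filter.mp (hb' i)).2.2 j).2, fun i j => ((mem_filter.mp (hb' i)).2.2 j).1⟩
  · rintro ⟨u, b⟩ _ ⟨u', b'⟩ _ heq
    have e1 : u = u' := congrArg Prod.fst heq
    have e2 : b = b' := congrArg Prod.snd heq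
    subst e1
    subst e2
    rfl

/-- positions of an array -/
private abbrev Ps (s : ℕ) : Type := Fin s ⊕ (Fin s × Fin (s - 1))

/-- entry at a position -/
private def ev {s : ℕ} (a : Arr V s) : Ps s → V
  | Sum.inl i => a.1 i
  | Sum.inr p => a.2 p.1 p.2

/-- change an entry -/
private def upd {s : ℕ} (a : Arr V s) (p : Ps s) (x : V) : Arr V s :=
  (fun i => if Sum.inl i = p then x else a.1 i,
    fun i j => if Sum.inr (i, j) = p then x else a.2 i j)

omit [Fintype V] in
private theorem ev_upd {s : ℕ} (a : Arr V s) (p q : Ps s) (x : V) :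
    ev (upd a p x) q = if q = p then x else ev a q := by
  rcases q with i | ⟨i, j⟩
  · rfl
  · rfl

omit [Fintype V] in
private theorem ev_ext {s : ℕ} {a b : Arr V s} (h : ∀ q, ev a q = ev b q) : a = b := by
  refine Prod.ext ?_ ?_
  · funext i
    exact h (Sum.inl i)
  · funext i j
    exact h (Sum.inr (i, j))

private theorem card_Ps (s : ℕ) : Fintype.card (Ps s) = s ^ 2 := by
  rw [Fintype.card_sum, Fintype.card_prod, Fintype.card_fin, Fintype.card_fin]
  rcases s with _ | s
  · rfl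
  · rw [Nat.add_sub_cancel]
    ring

omit [Fintype V] in
private theorem Wa_eq {s : ℕ} (a : Arr V s) : Wa a = univ.image (ev a) := by
  ext v
  unfold Wa rw'
  simp only [mem_union, mem_image, mem_biUnion, mem_univ, true_and]
  constructor
  · rintro (⟨i, hi⟩ | ⟨i, j, hj⟩)
    · exact ⟨Sum.inl i, hi⟩
    · exact ⟨Sum.inr (i, j), hj⟩
  · rintro ⟨i | ⟨i, j⟩, h⟩
    · exact Or.inl ⟨i, h⟩
    · exact Or.inr ⟨i, j, h⟩

private theorem upd_count {s : ℕ} (p : Ps s) (Q : Arr V s → Prop)
    (hQ : ∀ a b, Q a → Q b → (∀ q, q ≠ p → ev a q = ev b q) → ev a p = ev b p) :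
    Fintype.card V * #(univ.filter fun a : Arr V s => Q a) ≤ Fintype.card (Arr V s) := by
  rw [← card_univ (α := V), ← card_product, ← card_univ (α := Arr V s)]
  refine card_le_card_of_injOn (fun z => upd z.2 p z.1) (fun _ _ => mem_coe.mpr (mem_univ _)) ?_
  rintro ⟨x, a⟩ h1 ⟨y, b⟩ h2 heq
  rw [mem_coe, mem_product] at h1 h2
  have ha : Q a := (mem_filter.mp h1.2).2
  have hb : Q b := (mem_filter.mp h2.2).2
  have hev : ∀ q, (if q = p then x else ev a q) = if q = p then y else ev b q := fun q => by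
    rw [← ev_upd, ← ev_upd]
    exact congrArg (fun c => ev c q) heq
  have hx : x = y := by simpa using hev p
  have hne : ∀ q, q ≠ p → ev a q = ev b q := fun q hq => by
    have h := hev q
    rwa [if_neg hq, if_neg hq] at h
  have hab : a = b := ev_ext fun q => by
    by_cases hq : q = p
    · rw [hq]
      exact hQ a b ha hb hne
    · exact hne q hq
  rw [hx, hab]

/-- the number of arrays that contain `v` -/
theorem arr_vertex (s : ℕ) (v : V) :
    Fintype.card V * #(univ.filter fun a : Arr V s => v ∈ Wa a) ≤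
      s ^ 2 * Fintype.card (Arr V s) := by
  have h1 : (univ.filter fun a : Arr V s => v ∈ Wa a) ⊆
      (univ : Finset (Ps s)).biUnion fun p => univ.filter fun a : Arr V s => ev a p = v := by
    intro a ha
    have h := (mem_filter.mp ha).2
    rw [Wa_eq, mem_image] at h
    obtain ⟨p, -, hp⟩ := h
    exact mem_biUnion.mpr ⟨p, mem_univ _, mem_filter.mpr ⟨mem_univ _, hp⟩⟩
  calc Fintype.card V * #(univ.filter fun a : Arr V s => v ∈ Wa a)
      ≤ Fintype.card V * ∑ p : Ps s, #(univ.filter fun a : Arr V s => ev a p = v) :=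
        Nat.mul_le_mul_left _ ((card_le_card h1).trans card_biUnion_le)
    _ = ∑ p : Ps s, Fintype.card V * #(univ.filter fun a : Arr V s => ev a p = v) := mul_sum _ _ _
    _ ≤ ∑ _p : Ps s, Fintype.card (Arr V s) := sum_le_sum fun p _ =>
        upd_count p (fun a => ev a p = v) fun a b ha hb _ => ha.trans hb.symm
    _ = s ^ 2 * Fintype.card (Arr V s) := by
        rw [sum_const, card_univ, card_Ps, smul_eq_mul]

/-- the number of arrays with a repeated entry -/
theorem arr_repeat (s : ℕ) :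
    Fintype.card V * #(univ.filter fun a : Arr V s => #(Wa a) ≠ s ^ 2) ≤
      s ^ 4 * Fintype.card (Arr V s) := by
  have h1 : (univ.filter fun a : Arr V s => #(Wa a) ≠ s ^ 2) ⊆
      (univ : Finset (Ps s × Ps s)).biUnion fun z =>
        univ.filter fun a : Arr V s => z.1 ≠ z.2 ∧ ev a z.1 = ev a z.2 := by
    intro a ha
    have h := (mem_filter.mp ha).2
    by_contra hc
    refine h ?_
    rw [Wa_eq, card_image_of_injective, card_univ, card_Ps]
    intro p q hpq
    by_contra hne
    exact hc (mem_biUnion.mpr ⟨(p, q), mem_univ _, mem_filter.mpr ⟨mem_univ _, hne, hpq⟩⟩)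
  calc Fintype.card V * #(univ.filter fun a : Arr V s => #(Wa a) ≠ s ^ 2)
      ≤ Fintype.card V * ∑ z : Ps s × Ps s,
          #(univ.filter fun a : Arr V s => z.1 ≠ z.2 ∧ ev a z.1 = ev a z.2) :=
        Nat.mul_le_mul_left _ ((card_le_card h1).trans card_biUnion_le)
    _ = ∑ z : Ps s × Ps s, Fintype.card V *
          #(univ.filter fun a : Arr V s => z.1 ≠ z.2 ∧ ev a z.1 = ev a z.2) := mul_sum _ _ _
    _ ≤ ∑ _z : Ps s × Ps s, Fintype.card (Arr V s) := sum_le_sum fun z _ => by
        have h2 := upd_count (V := V) z.1 (fun a => z.1 ≠ z.2 ∧ ev a z.1 = ev a z.2)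
          (fun a b ha hb h => by
            rw [ha.2, hb.2]
            exact h z.2 (Ne.symm ha.1))
        refine le_trans (le_of_eq ?_) h2
        congr
    _ = s ^ 4 * Fintype.card (Arr V s) := by
        rw [sum_const, card_univ, Fintype.card_prod, card_Ps, smul_eq_mul]
        ring

theorem arr_card (s : ℕ) (hs : 1 ≤ s) : Fintype.card (Arr V s) = Fintype.card V ^ (s ^ 2) := by
  obtain ⟨r, rfl⟩ : ∃ r, s = r + 1 := ⟨s - 1, by omega⟩
  rw [Fintype.card_prod, Fintype.card_fun, Fintype.card_fun, Fintype.card_fun, Fintype.card_fin,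
    Fintype.card_fin, Nat.add_sub_cancel, ← pow_mul, ← pow_add]
  congr 1
  ring

theorem Wa_card_le (s : ℕ) (hs : 1 ≤ s) (a : Arr V s) : #(Wa a) ≤ s ^ 2 ∧ (Wa a).Nonempty := by
  rw [Wa_eq]
  constructor
  · refine card_image_le.trans ?_
    rw [card_univ, card_Ps]
  · exact ⟨ev a (Sum.inl ⟨0, hs⟩), mem_image_of_mem _ (mem_univ _)⟩

end

end Pool.Agent.Helper69.NE
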