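import Pool.Agent.Helper69.NE.AbsDefs

/-!
# Project BECX P3, NE, piece Absorb: absorbing a set
-/

set_option autoImplicit false

open Classical Finset

namespace Pool.Agent.Helper69.NE

noncomputable section

variable {V : Type}

theorem abs_ind_image {ι : Type} [Fintype ι] (G : SimpleGraph V) (u : ι → V) (h : Clq G u) :
    Ind G (univ.image u) := by
  intro a ha b hb
  rw [mem_image] at ha hb
  obtain ⟨i, -, rfl⟩ := ha
  obtain ⟨j, -, rfl⟩ := hb
  by_cases hij : i = j
  · subst hij
    exact G.irrefl
  · exact (h i j hij).2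

theorem abs_card_image {ι : Type} [Fintype ι] (G : SimpleGraph V) (u : ι → V) (h : Clq G u) :
    #(univ.image u) = Fintype.card ι := by
  rw [card_image_of_injective, card_univ]
  intro i j hij
  by_contra hne
  exact (h i j hne).1 hij

/-- all entries of an array as one function -/
def absE {s : ℕ} (a : Arr V s) (p : Fin s × Option (Fin (s - 1))) : V :=
  p.2.elim (a.1 p.1) (a.2 p.1)

theorem absE_inj {s : ℕ} (hs : 1 ≤ s) (a : Arr V s) (hc : #(Wa a) = s ^ 2) :
    Function.Injective (absE a) := by
  have h1 : Wa a = univ.image (absE a) := by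
    ext v
    simp only [Wa, rw', mem_union, mem_image, mem_univ, true_and, mem_biUnion]
    constructor
    · rintro (⟨i, rfl⟩ | ⟨i, j, rfl⟩)
      · exact ⟨(i, none), rfl⟩
      · exact ⟨(i, some j), rfl⟩
    · rintro ⟨⟨i, o⟩, rfl⟩
      cases o with
      | none => exact Or.inl ⟨i, rfl⟩
      | some j => exact Or.inr ⟨i, j, rfl⟩
  have h2 : #(univ : Finset (Fin s × Option (Fin (s - 1)))) = s ^ 2 := by
    rw [card_univ, Fintype.card_prod, Fintype.card_option, Fintype.card_fin, Fintype.card_fin,
      Nat.sub_add_cancel hs]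
    ring
  have h3 : #(univ.image (absE a)) = #(univ : Finset (Fin s × Option (Fin (s - 1)))) := by
    rw [← h1, hc, h2]
  have h4 := card_image_iff.1 h3
  intro p q hpq
  exact h4 (mem_coe.2 (mem_univ p)) (mem_coe.2 (mem_univ q)) hpq

/-- a row with first entry `y` -/
def absR {s : ℕ} (y : V) (a : Arr V s) (i : Fin s) (o : Option (Fin (s - 1))) : V :=
  o.elim y (a.2 i)

theorem absR_clq {s : ℕ} (G : SimpleGraph V) (y : V) (a : Arr V s) (i : Fin s)
    (h : ∀ j, y ≠ a.2 i j ∧ ¬ G.Adj y (a.2 i j)) (hr : Clq G (a.2 i)) :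
    Clq G (absR y a i) := by
  intro o o' hne
  cases o with
  | none =>
    cases o' with
    | none => exact absurd rfl hne
    | some j => exact h j
  | some j =>
    cases o' with
    | none => exact ⟨(h j).1.symm, fun hh => (h j).2 hh.symm⟩
    | some j' => exact hr j j' (fun hh => hne (by rw [hh]))

theorem absR_image {s : ℕ} (y : V) (a : Arr V s) (i : Fin s) :
    univ.image (absR y a i) = insert y (rw' a i) := by
  ext v
  simp only [mem_image, mem_univ, true_and, mem_insert, rw']
  constructor
  · rintro ⟨o, rfl⟩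
    cases o with
    | none => exact Or.inl rfl
    | some j => exact Or.inr ⟨j, rfl⟩
  · rintro (rfl | ⟨j, rfl⟩)
    · exact ⟨none, rfl⟩
    · exact ⟨some j, rfl⟩

/-- the rows of an array form a tiling of its vertex set -/
theorem tile_rows (G : SimpleGraph V) (s : ℕ) (hs : 1 ≤ s) (x : Fin s → V) (a : Arr V s)
    (ha : Abb G s x a) (hc : #(Wa a) = s ^ 2) : ∃ F, Til G s F ∧ F.biUnion id = Wa a := by
  have hinj := absE_inj hs a hc
  have hcard : Fintype.card (Option (Fin (s - 1))) = s := by
    rw [Fintype.card_option, Fintype.card_fin, Nat.sub_add_cancel hs]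
  refine ⟨univ.image fun i : Fin s => univ.image (absR (a.1 i) a i), ⟨?_, ?_, ?_⟩, ?_⟩
  · intro T hT
    rw [mem_image] at hT
    obtain ⟨i, -, rfl⟩ := hT
    rw [abs_card_image G _ (absR_clq G _ a i (ha.rz i) (ha.row i)), hcard]
  · intro T hT
    rw [mem_image] at hT
    obtain ⟨i, -, rfl⟩ := hT
    exact abs_ind_image G _ (absR_clq G _ a i (ha.rz i) (ha.row i))
  · intro T hT T' hT' hne
    rw [mem_image] at hT hT'
    obtain ⟨i, -, rfl⟩ := hT
    obtain ⟨k, -, rfl⟩ := hT'
    have hik : i ≠ k := by
      rintro rfl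
      exact hne rfl
    rw [disjoint_left]
    intro v hv hv'
    rw [mem_image] at hv hv'
    obtain ⟨o, -, rfl⟩ := hv
    obtain ⟨o', -, ho'⟩ := hv'
    have h1 : absE a (k, o') = absE a (i, o) := ho'
    exact hik (congrArg Prod.fst (hinj h1)).symm
  · ext v
    simp only [mem_biUnion, mem_image, mem_univ, true_and, id, Wa, rw', mem_union]
    constructor
    · rintro ⟨T, ⟨i, rfl⟩, hv⟩
      rw [absR_image, mem_insert] at hv
      rcases hv with rfl | hv
      · exact Or.inl ⟨i, rfl⟩
      · rw [rw', mem_image] at hv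
        obtain ⟨j, -, rfl⟩ := hv
        exact Or.inr ⟨i, j, rfl⟩
    · rintro (⟨i, rfl⟩ | ⟨i, j, rfl⟩)
      · exact ⟨_, ⟨i, rfl⟩, by rw [absR_image]; exact mem_insert_self _ _⟩
      · refine ⟨_, ⟨i, rfl⟩, ?_⟩
        rw [absR_image]
        exact mem_insert_of_mem (mem_image_of_mem _ (mem_univ j))

/-- the rows with the first entries replaced by the `x i`, and column `0` -/
theorem tile_abs (G : SimpleGraph V) (s : ℕ) (hs : 1 ≤ s) (x : Fin s → V)
    (hx : Function.Injective x) (a : Arr V s) (ha : Abb G s x a) (hc : #(Wa a) = s ^ 2)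
    (hd : ∀ i, x i ∉ Wa a) : ∃ F, Til G s F ∧ F.biUnion id = Wa a ∪ univ.image x := by
  have hinj := absE_inj hs a hc
  have hcard : Fintype.card (Option (Fin (s - 1))) = s := by
    rw [Fintype.card_option, Fintype.card_fin, Nat.sub_add_cancel hs]
  have hcol : ∀ k, a.1 k ∈ Wa a := fun k =>
    mem_union_left _ (mem_image_of_mem _ (mem_univ k))
  have hrow : ∀ i j, a.2 i j ∈ Wa a := fun i j =>
    mem_union_right _ (mem_biUnion.2 ⟨i, mem_univ i, mem_image_of_mem _ (mem_univ j)⟩)
  -- a row is disjoint from the column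
  have hrc : ∀ i : Fin s, Disjoint (univ.image (absR (x i) a i)) (univ.image a.1) := by
    intro i
    rw [disjoint_left]
    intro v hv hv'
    rw [mem_image] at hv hv'
    obtain ⟨o, -, rfl⟩ := hv
    obtain ⟨k, -, hk⟩ := hv'
    cases o with
    | none =>
      have : a.1 k = x i := hk
      exact hd i (this ▸ hcol k)
    | some j =>
      have h1 : absE a (k, none) = absE a (i, some j) := hk
      have h2 := congrArg Prod.snd (hinj h1)
      exact absurd h2 (by simp)
  refine ⟨insert (univ.image a.1) (univ.image fun i : Fin s => univ.image (absR (x i) a i)),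
    ⟨?_, ?_, ?_⟩, ?_⟩
  · intro T hT
    rw [mem_insert] at hT
    rcases hT with rfl | hT
    · rw [abs_card_image G _ ha.col, Fintype.card_fin]
    · rw [mem_image] at hT
      obtain ⟨i, -, rfl⟩ := hT
      rw [abs_card_image G _ (absR_clq G _ a i (ha.rx i) (ha.row i)), hcard]
  · intro T hT
    rw [mem_insert] at hT
    rcases hT with rfl | hT
    · exact abs_ind_image G _ ha.col
    · rw [mem_image] at hT
      obtain ⟨i, -, rfl⟩ := hT
      exact abs_ind_image G _ (absR_clq G _ a i (ha.rx i) (ha.row i))
  · intro T hT T' hT' hne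
    rw [mem_insert] at hT hT'
    rcases hT with rfl | hT
    · rcases hT' with rfl | hT'
      · exact absurd rfl hne
      · rw [mem_image] at hT'
        obtain ⟨i, -, rfl⟩ := hT'
        exact (hrc i).symm
    · rw [mem_image] at hT
      obtain ⟨i, -, rfl⟩ := hT
      rcases hT' with rfl | hT'
      · exact hrc i
      · rw [mem_image] at hT'
        obtain ⟨k, -, rfl⟩ := hT'
        have hik : i ≠ k := by
          rintro rfl
          exact hne rfl
        rw [disjoint_left]
        intro v hv hv'
        rw [mem_image] at hv hv'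
        obtain ⟨o, -, rfl⟩ := hv
        obtain ⟨o', -, ho'⟩ := hv'
        cases o with
        | none =>
          cases o' with
          | none => exact hik (hx (show x k = x i from ho')).symm
          | some j' =>
            have : a.2 k j' = x i := ho'
            exact hd i (this ▸ hrow k j')
        | some j =>
          cases o' with
          | none =>
            have : x k = a.2 i j := ho'
            exact hd k (this ▸ hrow i j)
          | some j' =>
            have h1 : absE a (k, some j') = absE a (i, some j) := ho'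
            exact hik (congrArg Prod.fst (hinj h1)).symm
  · ext v
    simp only [mem_biUnion, mem_insert, mem_image, mem_univ, true_and, id, Wa, rw', mem_union]
    constructor
    · rintro ⟨T, rfl | ⟨i, rfl⟩, hv⟩
      · rw [mem_image] at hv
        obtain ⟨k, -, rfl⟩ := hv
        exact Or.inl (Or.inl ⟨k, rfl⟩)
      · rw [absR_image, mem_insert] at hv
        rcases hv with rfl | hv
        · exact Or.inr ⟨i, rfl⟩
        · rw [rw', mem_image] at hv
          obtain ⟨j, -, rfl⟩ := hv
          exact Or.inl (Or.inr ⟨i, j, rfl⟩)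
    · rintro ((⟨k, rfl⟩ | ⟨i, j, rfl⟩) | ⟨i, rfl⟩)
      · exact ⟨_, Or.inl rfl, mem_image_of_mem _ (mem_univ k)⟩
      · refine ⟨_, Or.inr ⟨i, rfl⟩, ?_⟩
        rw [absR_image]
        exact mem_insert_of_mem (mem_image_of_mem _ (mem_univ j))
      · refine ⟨_, Or.inr ⟨i, rfl⟩, ?_⟩
        rw [absR_image]
        exact mem_insert_self _ _

theorem Til.union {G : SimpleGraph V} {s : ℕ} {F F' : Finset (Finset V)} (h : Til G s F)
    (h' : Til G s F') (hd : Disjoint (F.biUnion id) (F'.biUnion id)) : Til G s (F ∪ F') := by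
  have hmix : ∀ T ∈ F, ∀ T' ∈ F', Disjoint T T' := by
    intro T hT T' hT'
    refine disjoint_of_subset_left ?_ (disjoint_of_subset_right ?_ hd)
    · exact subset_biUnion_of_mem id hT
    · exact subset_biUnion_of_mem id hT'
  refine ⟨?_, ?_, ?_⟩
  · intro T hT
    rcases mem_union.1 hT with hT | hT
    · exact h.card T hT
    · exact h'.card T hT
  · intro T hT
    rcases mem_union.1 hT with hT | hT
    · exact h.ind T hT
    · exact h'.ind T hT
  · intro T hT T' hT' hne
    rcases mem_union.1 hT with hT | hT <;> rcases mem_union.1 hT' with hT' | hT'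
    · exact h.disj T hT T' hT' hne
    · exact hmix T hT T' hT'
    · exact (hmix T' hT' T hT).symm
    · exact h'.disj T hT T' hT' hne

theorem abs_zero (G : SimpleGraph V) (s : ℕ) (hs : 1 ≤ s) (S : Finset (Arr V s)) :
    (∀ a ∈ S, #(Wa a) = s ^ 2 ∧ ∃ x, Abb G s x a) →
    (∀ a ∈ S, ∀ b ∈ S, a ≠ b → Disjoint (Wa a) (Wa b)) →
    ∃ F, Til G s F ∧ F.biUnion id = S.biUnion Wa := by
  induction S using Finset.induction_on with
  | empty =>
    intro _ _
    refine ⟨∅, ⟨?_, ?_, ?_⟩, ?_⟩
    · intro T hT
      exact absurd hT (notMem_empty T)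
    · intro T hT
      exact absurd hT (notMem_empty T)
    · intro T hT
      exact absurd hT (notMem_empty T)
    · simp
  | insert a S haS ih =>
    intro h1 h2
    obtain ⟨F, hF, hFu⟩ := ih (fun b hb => h1 b (mem_insert_of_mem hb))
      (fun b hb c hc hne => h2 b (mem_insert_of_mem hb) c (mem_insert_of_mem hc) hne)
    obtain ⟨hca, x, hx⟩ := h1 a (mem_insert_self a S)
    obtain ⟨F', hF', hFu'⟩ := tile_rows G s hs x a hx hca
    refine ⟨F' ∪ F, hF'.union hF ?_, ?_⟩
    · rw [hFu, hFu', disjoint_biUnion_right]
      intro b hb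
      refine h2 a (mem_insert_self a S) b (mem_insert_of_mem hb) ?_
      rintro rfl
      exact haS hb
    · rw [union_biUnion, hFu, hFu', biUnion_insert]

/-- Induction on `l`: take `s` elements of `L`, an absorber `a ∈ S` for them, `tile_abs`; continue with `S.erase a` and the rest of `L`.
For `l = 0` use `tile_rows`. -/
theorem absorb (G : SimpleGraph V) (s : ℕ) (hs : 1 ≤ s) (l : ℕ) : ∀ (S : Finset (Arr V s))
    (L : Finset V), (∀ a ∈ S, #(Wa a) = s ^ 2 ∧ ∃ x, Abb G s x a) →
    (∀ a ∈ S, ∀ b ∈ S, a ≠ b → Disjoint (Wa a) (Wa b)) → #L = s * l →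
    (∀ a ∈ S, Disjoint L (Wa a)) → (∀ x : Fin s → V, l ≤ #(S.filter fun a => Abb G s x a)) →
    ∃ F, Til G s F ∧ F.biUnion id = S.biUnion Wa ∪ L := by
  induction l with
  | zero =>
    intro S L h1 h2 hL _ _
    have hL0 : L = ∅ := by
      rw [← card_eq_zero, hL, mul_zero]
    obtain ⟨F, hF, hFu⟩ := abs_zero G s hs S h1 h2
    exact ⟨F, hF, by rw [hFu, hL0, union_empty]⟩
  | succ l ih =>
    intro S L h1 h2 hL hdL hab
    have hsL : s ≤ #L := by
      rw [hL]
      exact Nat.le_mul_of_pos_right s (Nat.succ_pos l)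
    obtain ⟨X, hXL, hXs⟩ := exists_subset_card_eq hsL
    have e : Fin s ≃ X := (finCongr hXs.symm).trans X.equivFin.symm
    let x : Fin s → V := fun i => (e i : V)
    have hx : Function.Injective x := fun i j hij => e.injective (Subtype.ext hij)
    have hxX : univ.image x = X := by
      ext v
      rw [mem_image]
      constructor
      · rintro ⟨i, -, rfl⟩
        exact (e i).2
      · intro hv
        exact ⟨e.symm ⟨v, hv⟩, mem_univ _, by simp [x]⟩
    have hpos : 0 < #(S.filter fun a => Abb G s x a) := lt_of_lt_of_le (Nat.succ_pos l) (hab x)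
    obtain ⟨a, ha⟩ := card_pos.1 hpos
    rw [mem_filter] at ha
    obtain ⟨haS, haa⟩ := ha
    have hxa : ∀ i, x i ∉ Wa a := by
      intro i hi
      exact disjoint_left.1 (hdL a haS) (hXL (e i).2) hi
    obtain ⟨F', hF', hFu'⟩ := tile_abs G s hs x hx a haa (h1 a haS).1 hxa
    have hcard : #(L \ X) = s * l := by
      rw [card_sdiff_of_subset hXL, hL, hXs, Nat.mul_succ, Nat.add_sub_cancel]
    obtain ⟨F, hF, hFu⟩ := ih (S.erase a) (L \ X) (fun b hb => h1 b (mem_of_mem_erase hb))
      (fun b hb c hc hne => h2 b (mem_of_mem_erase hb) c (mem_of_mem_erase hc) hne) hcard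
      (fun b hb => disjoint_of_subset_left sdiff_subset (hdL b (mem_of_mem_erase hb)))
      (by
        intro y
        have h3 := hab y
        have h4 : (S.erase a).filter (fun b => Abb G s y b)
            = (S.filter fun b => Abb G s y b).erase a := by
          rw [filter_erase]
        rw [h4]
        have h5 := pred_card_le_card_erase (s := S.filter fun b => Abb G s y b) (a := a)
        omega)
    refine ⟨F' ∪ F, hF'.union hF ?_, ?_⟩
    · rw [hFu, hFu', hxX, disjoint_union_left]
      constructor
      · rw [disjoint_union_right]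
        constructor
        · rw [disjoint_biUnion_right]
          intro b hb
          exact h2 a haS b (mem_of_mem_erase hb) (ne_of_mem_erase hb).symm
        · exact (disjoint_of_subset_left sdiff_subset (hdL a haS)).symm
      · rw [disjoint_union_right]
        constructor
        · rw [disjoint_biUnion_right]
          intro b hb
          exact disjoint_of_subset_left hXL (hdL b (mem_of_mem_erase hb))
        · exact disjoint_sdiff
    · rw [union_biUnion, hFu, hFu', hxX]
      have h6 : S.biUnion Wa = Wa a ∪ (S.erase a).biUnion Wa := by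
        conv_lhs => rw [← insert_erase haS]
        rw [biUnion_insert]
      rw [h6]
      have h7 : L = X ∪ (L \ X) := (union_sdiff_of_subset hXL).symm
      generalize hR : L \ X = R at h7
      rw [h7]
      ext v
      simp only [mem_union]
      tauto

end

end Pool.Agent.Helper69.NE
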