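import Pool.Agent.Helper5.AVD.Prob

/-!
# Project BECX P3, NE, piece Sel: random selection of absorbers (abstract)
-/

set_option autoImplicit false

open Classical Finset

namespace Pool.Agent.Helper69.NE

open Pool.Agent.Helper61.LE Pool.Agent.Helper5.AVD

section sel

variable {K : ℕ} {V Ω X : Type} [Fintype V] [Fintype Ω] [Fintype X]

/-- the uniform weights -/
noncomputable def selU (K : ℕ) (Ω : Type) [Fintype Ω] : Fin K → Ω → ℝ :=
  fun (_ : Fin K) (_ : Ω) => (1 : ℝ) / Fintype.card Ω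

theorem selU_prob [Nonempty Ω] : IsProb (selU K Ω) := isProb_unif

/-- the probability that the sample `i` satisfies `N` -/
theorem sel_EE (hΩ : Nonempty Ω) (i : Fin K) (N : Ω → Prop) [DecidablePred N] :
    EE (selU K Ω) (fun ω => if N (ω i) then (1 : ℝ) else 0) =
      #(univ.filter N) / Fintype.card Ω := by
  have h1 : EE (selU K Ω) (fun ω => if N (ω i) then (1 : ℝ) else 0) =
      PP (selU K Ω) (fun ω => N (ω i)) := by
    unfold PP
    refine EE_congr fun ω => ?_
    by_cases h : N (ω i) <;> simp [h]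
  rw [h1, PP_coord selU_prob i N, ← sum_filter]
  simp only [selU, sum_const, nsmul_eq_mul]
  ring

/-- a function with expectation less than `1` takes a value less than `1` -/
theorem sel_exists [Nonempty Ω] (f : (Fin K → Ω) → ℝ) (hf : EE (selU K Ω) f < 1) :
    ∃ ω, f ω < 1 := by
  by_contra hcon
  push Not at hcon
  have h1 := EE_mono (μ := selU K Ω) selU_prob (f := fun _ => 1) (g := f) hcon
  rw [EE_const selU_prob] at h1
  linarith

theorem sel_dep (i : Fin K) (g : Ω → ℝ) : Dep (fun ω : Fin K → Ω => g (ω i)) {i} := by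
  intro ω ω' h
  show g (ω i) = g (ω' i)
  rw [h i (mem_singleton_self i)]

/-- Hoeffding: a set of density `≥ c` gets more than `c K / 2` samples -/
theorem sel_hoef (hΩ : Nonempty Ω) (A : Finset Ω) (c : ℝ) (hc : 0 < c)
    (hA : c * Fintype.card Ω ≤ #A) (hK : 1 ≤ K) :
    PP (selU K Ω) (fun ω => (#(univ.filter fun i => ω i ∈ A) : ℝ) ≤ c * K / 2) ≤
      Real.exp (-(c ^ 2 * K / 8)) := by
  have hΩc : (0 : ℝ) < Fintype.card Ω := by exact_mod_cast Fintype.card_pos
  have hK0 : (0 : ℝ) < K := by exact_mod_cast hK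
  set p : ℝ := #A / Fintype.card Ω with hp
  have hcp : c ≤ p := by rw [hp, le_div_iff₀ hΩc]; exact hA
  have hp0 : 0 ≤ p := by positivity
  have hp1 : p ≤ 1 := by
    rw [hp, div_le_one hΩc]
    exact_mod_cast card_le_univ A
  have h1 := PP_hoeffding (μ := selU K Ω) selU_prob (univ : Finset (Fin K))
    (fun i ω => p - (if ω i ∈ A then (1 : ℝ) else 0)) (fun i => {i})
    (fun i _ => sel_dep i (fun a => p - (if a ∈ A then (1 : ℝ) else 0)))
    (fun i _ j _ hij => disjoint_singleton.2 hij) (c := 1) (t := c * K / 2) one_pos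
    (by positivity)
    (fun i _ ω => by
      split_ifs
      · rw [abs_le]; constructor <;> linarith
      · rw [abs_le]; constructor <;> linarith)
    (fun i _ => by
      rw [EE_sub, EE_const selU_prob, sel_EE hΩ i (fun a => a ∈ A), hp]
      rw [filter_mem_eq_inter, univ_inter, sub_self])
    (n := (K : ℝ)) (by rw [card_univ, Fintype.card_fin])
  refine (PP_mono selU_prob (fun ω hω => ?_)).trans (h1.trans (le_of_eq ?_))
  · rw [sum_sub_distrib, sum_const, card_univ, Fintype.card_fin, nsmul_eq_mul, sum_boole]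
    have h2 : c * K ≤ K * p := by nlinarith
    linarith
  · congr 1
    field_simp
    ring

/-- expected number of meeting pairs -/
theorem sel_pair (hΩ : Nonempty Ω) (n w : ℕ) (hn : 1 ≤ n) (W : Ω → Finset V)
    (hW : ∀ a, #(W a) ≤ w)
    (hd : ∀ v, n * #(univ.filter fun a => v ∈ W a) ≤ w * Fintype.card Ω)
    (i j : Fin K) (hij : i ≠ j) :
    EE (selU K Ω) (fun ω => ∑ v, (if v ∈ W (ω i) then (1 : ℝ) else 0) *
      (if v ∈ W (ω j) then (1 : ℝ) else 0)) ≤ (w : ℝ) ^ 2 / n := by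
  have hΩc : (0 : ℝ) < Fintype.card Ω := by exact_mod_cast Fintype.card_pos
  have hn0 : (0 : ℝ) < n := by exact_mod_cast hn
  rw [EE_sum]
  have h1 : ∀ v ∈ (univ : Finset V), EE (selU K Ω) (fun ω => (if v ∈ W (ω i) then (1 : ℝ) else 0) *
      (if v ∈ W (ω j) then (1 : ℝ) else 0)) ≤
      #(univ.filter fun a => v ∈ W a) / Fintype.card Ω * (w / n) := by
    intro v _
    rw [EE_mul_of_disjoint (S := {i}) (T := {j}) selU_prob
      (sel_dep i (fun a => if v ∈ W a then (1 : ℝ) else 0))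
      (sel_dep j (fun a => if v ∈ W a then (1 : ℝ) else 0)) (disjoint_singleton.2 hij)]
    rw [sel_EE hΩ i (fun a => v ∈ W a), sel_EE hΩ j (fun a => v ∈ W a)]
    apply mul_le_mul_of_nonneg_left _ (by positivity)
    rw [div_le_div_iff₀ hΩc hn0]
    have h2 : ((n * #(univ.filter fun a => v ∈ W a) : ℕ) : ℝ) ≤ ((w * Fintype.card Ω : ℕ) : ℝ) := by
      exact_mod_cast hd v
    push_cast at h2
    linarith
  refine (sum_le_sum h1).trans ?_
  rw [← sum_mul, ← sum_div]
  have h3 : (∑ v : V, (#(univ.filter fun a => v ∈ W a) : ℝ)) ≤ w * Fintype.card Ω := by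
    have h4 : ∑ v : V, #(univ.filter fun a => v ∈ W a) = ∑ a : Ω, #(W a) := by
      have h5 : ∀ v : V, #(univ.filter fun a => v ∈ W a) = ∑ a : Ω, if v ∈ W a then 1 else 0 := by
        intro v
        rw [card_filter]
      have h6 : ∀ a : Ω, #(W a) = ∑ v : V, if v ∈ W a then 1 else 0 := by
        intro a
        rw [← card_filter, filter_mem_eq_inter, univ_inter]
      simp only [h5, h6]
      exact sum_comm
    have h7 : ∑ v : V, #(univ.filter fun a => v ∈ W a) ≤ w * Fintype.card Ω := by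
      rw [h4]
      calc ∑ a : Ω, #(W a) ≤ ∑ _a : Ω, w := sum_le_sum fun a _ => hW a
        _ = w * Fintype.card Ω := by rw [sum_const, card_univ, smul_eq_mul, mul_comm]
    exact_mod_cast h7
  have h8 : (∑ v : V, (#(univ.filter fun a => v ∈ W a) : ℝ)) / Fintype.card Ω ≤ w := by
    rw [div_le_iff₀ hΩc]
    exact h3
  calc (∑ v : V, (#(univ.filter fun a => v ∈ W a) : ℝ)) / Fintype.card Ω * (w / n)
      ≤ w * (w / n) := mul_le_mul_of_nonneg_right h8 (by positivity)
    _ = (w : ℝ) ^ 2 / n := by ring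

/-- the samples that meet another sample -/
noncomputable def selBad (W : Ω → Finset V) (ω : Fin K → Ω) : Finset (Fin K) :=
  univ.filter fun i => ∃ j, i ≠ j ∧ ¬ Disjoint (W (ω i)) (W (ω j))

theorem sel_bad_le (W : Ω → Finset V) (ω : Fin K → Ω) :
    (#(selBad W ω) : ℝ) ≤ ∑ i : Fin K, ∑ j ∈ univ.filter (fun j => i ≠ j),
      ∑ v, (if v ∈ W (ω i) then (1 : ℝ) else 0) * (if v ∈ W (ω j) then (1 : ℝ) else 0) := by
  have h0 : ∀ (i j : Fin K) (v : V), 0 ≤ (if v ∈ W (ω i) then (1 : ℝ) else 0) *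
      (if v ∈ W (ω j) then (1 : ℝ) else 0) := by
    intro i j v
    apply mul_nonneg <;> split_ifs <;> norm_num
  have h1 : (#(selBad W ω) : ℝ) = ∑ i : Fin K, if i ∈ selBad W ω then (1 : ℝ) else 0 := by
    rw [sum_boole, filter_mem_eq_inter, univ_inter]
  rw [h1]
  apply sum_le_sum
  intro i _
  split_ifs with h
  · obtain ⟨j, hij, hj⟩ := (mem_filter.1 h).2
    rw [not_disjoint_iff] at hj
    obtain ⟨v, hv1, hv2⟩ := hj
    calc (1 : ℝ) = (if v ∈ W (ω i) then (1 : ℝ) else 0) * (if v ∈ W (ω j) then (1 : ℝ) else 0) := by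
          rw [if_pos hv1, if_pos hv2, one_mul]
      _ ≤ ∑ v, (if v ∈ W (ω i) then (1 : ℝ) else 0) * (if v ∈ W (ω j) then (1 : ℝ) else 0) :=
          single_le_sum (f := fun v => (if v ∈ W (ω i) then (1 : ℝ) else 0) *
            (if v ∈ W (ω j) then (1 : ℝ) else 0)) (fun v _ => h0 i j v) (mem_univ v)
      _ ≤ _ := single_le_sum (f := fun j => ∑ v, (if v ∈ W (ω i) then (1 : ℝ) else 0) *
            (if v ∈ W (ω j) then (1 : ℝ) else 0)) (fun j _ => sum_nonneg fun v _ => h0 i j v)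
            (mem_filter.2 ⟨mem_univ j, hij⟩)
  · exact sum_nonneg fun j _ => sum_nonneg fun v _ => h0 i j v

theorem sel_bad (hΩ : Nonempty Ω) (n w : ℕ) (hn : 1 ≤ n) (W : Ω → Finset V)
    (hW : ∀ a, #(W a) ≤ w)
    (hd : ∀ v, n * #(univ.filter fun a => v ∈ W a) ≤ w * Fintype.card Ω) :
    EE (selU K Ω) (fun ω => (#(selBad W ω) : ℝ)) ≤ (K : ℝ) ^ 2 * ((w : ℝ) ^ 2 / n) := by
  refine (EE_mono selU_prob (fun ω => sel_bad_le W ω)).trans ?_
  rw [EE_sum]
  calc ∑ i : Fin K, EE (selU K Ω) (fun ω => ∑ j ∈ univ.filter (fun j => i ≠ j),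
      ∑ v, (if v ∈ W (ω i) then (1 : ℝ) else 0) * (if v ∈ W (ω j) then (1 : ℝ) else 0))
      ≤ ∑ _i : Fin K, (K : ℝ) * ((w : ℝ) ^ 2 / n) := by
        apply sum_le_sum
        intro i _
        rw [EE_sum]
        calc ∑ j ∈ univ.filter (fun j => i ≠ j), EE (selU K Ω) (fun ω =>
            ∑ v, (if v ∈ W (ω i) then (1 : ℝ) else 0) * (if v ∈ W (ω j) then (1 : ℝ) else 0))
            ≤ ∑ _j ∈ univ.filter (fun j : Fin K => i ≠ j), ((w : ℝ) ^ 2 / n) := by
              apply sum_le_sum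
              intro j hj
              exact sel_pair hΩ n w hn W hW hd i j (mem_filter.1 hj).2
          _ = #(univ.filter (fun j : Fin K => i ≠ j)) * ((w : ℝ) ^ 2 / n) := by
              rw [sum_const, nsmul_eq_mul]
          _ ≤ (K : ℝ) * ((w : ℝ) ^ 2 / n) := by
              apply mul_le_mul_of_nonneg_right _ (by positivity)
              have : #(univ.filter (fun j : Fin K => i ≠ j)) ≤ K := by
                refine (card_le_univ _).trans ?_
                rw [Fintype.card_fin]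
              exact_mod_cast this
    _ = (K : ℝ) ^ 2 * ((w : ℝ) ^ 2 / n) := by
        rw [sum_const, card_univ, Fintype.card_fin, nsmul_eq_mul]
        ring

/-- a good outcome gives the selection -/
theorem sel_good (c : ℝ) (W : Ω → Finset V) (A : X → Finset Ω) (hW : ∀ a, (W a).Nonempty)
    (ω : Fin K → Ω) (h1 : ∀ x, c * K / 2 < #(univ.filter fun i => ω i ∈ A x))
    (h2 : (#(selBad W ω) : ℝ) ≤ c * K / 4) :
    ∃ S : Finset Ω, (∀ a ∈ S, ∀ b ∈ S, a ≠ b → Disjoint (W a) (W b)) ∧ #S ≤ K ∧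
      ∀ x, c / 4 * K ≤ #(S ∩ A x) := by
  have hgd : ∀ i ∈ (univ \ selBad W ω), ∀ j, i ≠ j → Disjoint (W (ω i)) (W (ω j)) := by
    intro i hi j hij
    by_contra hcon
    exact (mem_sdiff.1 hi).2 (mem_filter.2 ⟨mem_univ i, j, hij, hcon⟩)
  have hinj : ∀ i ∈ (univ \ selBad W ω), ∀ j ∈ (univ \ selBad W ω), ω i = ω j → i = j := by
    intro i hi j _ hij
    by_contra hne
    have h3 := hgd i hi j hne
    rw [hij, disjoint_self_iff_empty] at h3
    exact (hW (ω j)).ne_empty h3
  refine ⟨(univ \ selBad W ω).image ω, ?_, ?_, ?_⟩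
  · intro a ha b hb hab
    obtain ⟨i, hi, rfl⟩ := mem_image.1 ha
    obtain ⟨j, _, rfl⟩ := mem_image.1 hb
    exact hgd i hi j (fun h => hab (h ▸ rfl))
  · refine card_image_le.trans ((card_le_univ _).trans ?_)
    rw [Fintype.card_fin]
  · intro x
    have h3 : ((univ.filter fun i => ω i ∈ A x) \ selBad W ω).image ω ⊆
        (univ \ selBad W ω).image ω ∩ A x := by
      intro a ha
      obtain ⟨i, hi, rfl⟩ := mem_image.1 ha
      rw [mem_sdiff] at hi
      refine mem_inter.2 ⟨mem_image.2 ⟨i, mem_sdiff.2 ⟨mem_univ i, hi.2⟩, rfl⟩, ?_⟩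
      exact (mem_filter.1 hi.1).2
    have h4 : #(((univ.filter fun i => ω i ∈ A x) \ selBad W ω).image ω) =
        #((univ.filter fun i => ω i ∈ A x) \ selBad W ω) := by
      apply card_image_of_injOn
      intro i hi j hj hij
      have hi' : i ∈ (univ.filter fun i => ω i ∈ A x) \ selBad W ω := hi
      have hj' : j ∈ (univ.filter fun i => ω i ∈ A x) \ selBad W ω := hj
      exact hinj i (mem_sdiff.2 ⟨mem_univ i, (mem_sdiff.1 hi').2⟩) j
        (mem_sdiff.2 ⟨mem_univ j, (mem_sdiff.1 hj').2⟩) hij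
    have h5 : #(univ.filter fun i => ω i ∈ A x) ≤
        #((univ.filter fun i => ω i ∈ A x) \ selBad W ω) + #(selBad W ω) :=
      card_le_card_sdiff_add_card
    have h6 := card_le_card h3
    rw [h4] at h6
    have h7 : (#(univ.filter fun i => ω i ∈ A x) : ℝ) ≤
        #((univ \ selBad W ω).image ω ∩ A x) + #(selBad W ω) := by
      exact_mod_cast h5.trans (Nat.add_le_add_right h6 _)
    have h8 := h1 x
    linarith

end sel

/-- `n^s exp(-b n) < 1/4` for large `n` -/
theorem sel_lim (s : ℕ) (b : ℝ) (hb : 0 < b) :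
    ∃ n1 : ℕ, ∀ n : ℕ, n1 ≤ n → (n : ℝ) ^ s * Real.exp (-(b * n)) < 1 / 4 := by
  have h1 := Real.tendsto_pow_mul_exp_neg_atTop_nhds_zero s
  have h2 : Filter.Tendsto (fun n : ℕ => b * (n : ℝ)) Filter.atTop Filter.atTop :=
    Filter.Tendsto.const_mul_atTop hb tendsto_natCast_atTop_atTop
  have h3 := h1.comp h2
  have h4 : 0 < b ^ s / 4 := by positivity
  have h5 := (h3.eventually (gt_mem_nhds h4))
  obtain ⟨n1, hn1⟩ := Filter.eventually_atTop.1 h5
  refine ⟨n1, fun n hn => ?_⟩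
  have h6 := hn1 n hn
  simp only [Function.comp_apply] at h6
  rw [mul_pow] at h6
  have hbs : 0 < b ^ s := by positivity
  have h7 : b ^ s * ((n : ℝ) ^ s * Real.exp (-(b * n))) < b ^ s * (1 / 4) := by
    calc b ^ s * ((n : ℝ) ^ s * Real.exp (-(b * n))) = b ^ s * (n : ℝ) ^ s * Real.exp (-(b * n)) := by
          ring
      _ < b ^ s / 4 := h6
      _ = b ^ s * (1 / 4) := by ring
  exact lt_of_mul_lt_mul_left h7 hbs.le

/-- `K = ⌈β n⌉` independent uniform elements of `Ω`. By Hoeffding (`Pool.Agent.Helper5.AVD.PP_hoeffding`) and a union bound over `X`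
(at most `n^s` elements) with probability more than `1/2` every `A x` gets at least `c K / 2` samples. The expected number of samples
whose `W` meets the `W` of another sample is at most `K^2 w^2 / n ≤ K (β + 1/n) w^2`; by Markov with probability at least `1/2` it is
at most `c K / 4`. Delete these samples. -/
theorem select (s w : ℕ) (c β : ℝ) (hc : 0 < c) (hc1 : c ≤ 1) (hβ : 0 < β)
    (hβw : 10 * (w : ℝ) ^ 2 * β ≤ c) :
    ∃ n0 : ℕ, ∀ (V Ω X : Type) [Fintype V] [Fintype Ω] [Fintype X] (n : ℕ),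
      n = Fintype.card V → n0 ≤ n → Fintype.card X ≤ n ^ s →
      ∀ (W : Ω → Finset V) (A : X → Finset Ω), (∀ a, (W a).Nonempty) → (∀ a, #(W a) ≤ w) →
      (∀ v, n * #(univ.filter fun a => v ∈ W a) ≤ w * Fintype.card Ω) →
      (∀ x, c * Fintype.card Ω ≤ #(A x)) → 1 ≤ Fintype.card Ω →
      ∃ S : Finset Ω, (∀ a ∈ S, ∀ b ∈ S, a ≠ b → Disjoint (W a) (W b)) ∧ (#S : ℝ) ≤ β * n + 1 ∧
        ∀ x, c / 4 * β * n ≤ #(S ∩ A x) := by
  obtain ⟨n1, hn1⟩ := sel_lim s (c ^ 2 * β / 8) (by positivity)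
  refine ⟨max (max n1 1) ⌈16 * (w : ℝ) ^ 2 / c⌉₊, ?_⟩
  intro V Ω X _ _ _ n _ hn hX W A hW hWw hd hA hΩ1
  have hΩ : Nonempty Ω := Fintype.card_pos_iff.1 hΩ1
  have hn1' : n1 ≤ n := le_trans (le_trans (le_max_left _ _) (le_max_left _ _)) hn
  have hn1'' : 1 ≤ n := le_trans (le_trans (le_max_right _ _) (le_max_left _ _)) hn
  have hnw : 16 * (w : ℝ) ^ 2 / c ≤ n := by
    have h1 : ⌈16 * (w : ℝ) ^ 2 / c⌉₊ ≤ n := le_trans (le_max_right _ _) hn
    exact (Nat.le_ceil _).trans (by exact_mod_cast h1)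
  have hn0 : (0 : ℝ) < n := by exact_mod_cast hn1''
  set K : ℕ := ⌈β * n⌉₊ with hKdef
  have hK1 : β * n ≤ K := Nat.le_ceil _
  have hK2 : (K : ℝ) ≤ β * n + 1 := (Nat.ceil_lt_add_one (by positivity)).le
  have hKpos : (0 : ℝ) < K := lt_of_lt_of_le (by positivity) hK1
  have hKge : 1 ≤ K := by exact_mod_cast (Nat.cast_pos.1 hKpos)
  -- the function with small expectation
  have hE : EE (selU K Ω) (fun ω => (∑ x : X, if (#(univ.filter fun i => ω i ∈ A x) : ℝ) ≤ c * K / 2
      then (1 : ℝ) else 0) + (4 / (c * K)) * (#(selBad W ω) : ℝ)) < 1 := by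
    rw [EE_add, EE_sum, EE_const_mul]
    have h1 : ∑ x : X, EE (selU K Ω) (fun ω => if (#(univ.filter fun i => ω i ∈ A x) : ℝ) ≤ c * K / 2
        then (1 : ℝ) else 0) < 1 / 4 := by
      calc ∑ x : X, EE (selU K Ω) (fun ω => if (#(univ.filter fun i => ω i ∈ A x) : ℝ) ≤ c * K / 2
            then (1 : ℝ) else 0)
          ≤ ∑ _x : X, Real.exp (-(c ^ 2 * K / 8)) := by
            apply sum_le_sum
            intro x _
            have h2 := sel_hoef (K := K) hΩ (A x) c hc (hA x) hKge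
            refine le_trans (le_of_eq ?_) h2
            unfold PP
            exact EE_congr fun ω => rfl
        _ = Fintype.card X * Real.exp (-(c ^ 2 * K / 8)) := by
            rw [sum_const, card_univ, nsmul_eq_mul]
        _ ≤ (n : ℝ) ^ s * Real.exp (-(c ^ 2 * β / 8 * n)) := by
            apply mul_le_mul
            · exact_mod_cast hX
            · apply Real.exp_le_exp.2
              have h3 : c ^ 2 * (β * n) ≤ c ^ 2 * K := mul_le_mul_of_nonneg_left hK1 (by positivity)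
              linarith
            · exact (Real.exp_pos _).le
            · positivity
        _ < 1 / 4 := hn1 n hn1'
    have h2 : 4 / (c * K) * EE (selU K Ω) (fun ω => (#(selBad W ω) : ℝ)) ≤ 13 / 20 := by
      have h3 := sel_bad (K := K) hΩ n w hn1'' W hWw hd
      calc 4 / (c * K) * EE (selU K Ω) (fun ω => (#(selBad W ω) : ℝ))
          ≤ 4 / (c * K) * ((K : ℝ) ^ 2 * ((w : ℝ) ^ 2 / n)) :=
            mul_le_mul_of_nonneg_left h3 (by positivity)
        _ = 4 * (w : ℝ) ^ 2 * K / (c * n) := by field_simp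
        _ ≤ 4 * (w : ℝ) ^ 2 * (β * n + 1) / (c * n) := by
            apply div_le_div_of_nonneg_right _ (by positivity)
            exact mul_le_mul_of_nonneg_left hK2 (by positivity)
        _ ≤ 13 / 20 := by
            rw [div_le_iff₀ (by positivity)]
            have h4 : 16 * (w : ℝ) ^ 2 ≤ n * c := by rwa [div_le_iff₀ hc] at hnw
            have h5 : 10 * (w : ℝ) ^ 2 * β * n ≤ c * n := mul_le_mul_of_nonneg_right hβw hn0.le
            nlinarith
    linarith
  obtain ⟨ω, hω⟩ := sel_exists _ hE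
  have hsum0 : 0 ≤ ∑ x : X, if (#(univ.filter fun i => ω i ∈ A x) : ℝ) ≤ c * K / 2
      then (1 : ℝ) else 0 := sum_nonneg fun x _ => by split_ifs <;> norm_num
  have hbad0 : 0 ≤ (4 / (c * K)) * (#(selBad W ω) : ℝ) := by positivity
  have hg1 : ∀ x, c * K / 2 < #(univ.filter fun i => ω i ∈ A x) := by
    intro x
    by_contra hcon
    push Not at hcon
    have h1 : (1 : ℝ) ≤ ∑ x : X, if (#(univ.filter fun i => ω i ∈ A x) : ℝ) ≤ c * K / 2
        then (1 : ℝ) else 0 := by
      calc (1 : ℝ) = (if (#(univ.filter fun i => ω i ∈ A x) : ℝ) ≤ c * K / 2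
            then (1 : ℝ) else 0) := by rw [if_pos hcon]
        _ ≤ _ := single_le_sum (f := fun x => if (#(univ.filter fun i => ω i ∈ A x) : ℝ) ≤ c * K / 2
            then (1 : ℝ) else 0) (fun x _ => by split_ifs <;> norm_num) (mem_univ x)
    linarith
  have hg2 : (#(selBad W ω) : ℝ) ≤ c * K / 4 := by
    have h1 : (4 / (c * K)) * (#(selBad W ω) : ℝ) < 1 := by linarith
    rw [div_mul_eq_mul_div, div_lt_one (by positivity)] at h1
    linarith
  obtain ⟨S, hS1, hS2, hS3⟩ := sel_good c W A hW ω hg1 hg2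
  refine ⟨S, hS1, ?_, fun x => ?_⟩
  · have h1 : (#S : ℝ) ≤ K := by exact_mod_cast hS2
    linarith
  · have h1 : c / 4 * (β * n) ≤ c / 4 * K := mul_le_mul_of_nonneg_left hK1 (by positivity)
    have h2 := hS3 x
    calc c / 4 * β * n = c / 4 * (β * n) := by ring
      _ ≤ c / 4 * K := h1
      _ ≤ _ := h2

end Pool.Agent.Helper69.NE
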