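import Pool.Agent.Helper69.NE.AP2
import Pool.Agent.Helper69.NE.Sel
import Pool.Agent.Helper69.NE.Absorb
import Pool.Agent.Helper69.NE.AbsCnt

/-!
# Project BECX P3, Theorem NE
-/

set_option autoImplicit false

open Classical Finset

namespace Pool.Agent.Helper69.NE

noncomputable section

theorem NEc_mono {V : Type} {G : SimpleGraph V} {U : Finset V} {γ γ' M : ℝ} (h : NEc G U γ M)
    (hγ : γ' ≤ γ) (hM : 0 ≤ M) : NEc G U γ' M := by
  intro Z hZ hc
  have h1 : (1 - γ) * M ≤ #Z := by nlinarith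
  have h2 := h Z hZ h1
  nlinarith [sq_nonneg M]

theorem card_til {V : Type} {G : SimpleGraph V} {s : ℕ} {F : Finset (Finset V)}
    (h : Til G s F) : #(F.biUnion id) = s * #F := by
  have h1 : #(F.biUnion id) = ∑ T ∈ F, #(id T) :=
    card_biUnion (fun T hT T' hT' hne => h.disj T hT T' hT' hne)
  have h2 : ∑ T ∈ F, #(id T) = ∑ T ∈ F, s := Finset.sum_congr rfl (fun T hT => h.card T hT)
  rw [h1, h2, sum_const, smul_eq_mul, mul_comm]

/-- many absorbers without repeated entries for every tuple -/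
theorem many (s : ℕ) (hs : 3 ≤ s) (γ : ℝ) (hγ : 0 < γ) (hγ1 : γ ≤ 1) :
    ∃ c : ℝ, 0 < c ∧ c ≤ 1 ∧ ∃ M0 : ℕ, ∀ M : ℕ, M0 ≤ M →
      ∀ (V : Type) [Fintype V] (G : SimpleGraph V), Fintype.card V = s * M →
      (∀ v, (dg G v univ : ℝ) ≤ (1 + γ / (4 * s)) * M) →
      NEc G univ γ M → ∀ x : Fin s → V,
        c * Fintype.card (Arr V s) ≤
          #(univ.filter fun a : Arr V s => Abb G s x a ∧ #(Wa a) = s ^ 2) := by
  have hs' : (3 : ℝ) ≤ s := by exact_mod_cast hs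
  set c0 : ℝ := (γ / 3) ^ s / (s : ℝ) ^ (s ^ 2) with hc0
  have hc00 : 0 < c0 := by positivity
  have hc01 : c0 ≤ 1 := by
    rw [hc0, div_le_one (by positivity)]
    have h1 : (γ / 3) ^ s ≤ 1 := pow_le_one₀ (by positivity) (by linarith)
    have h2 : (1 : ℝ) ≤ (s : ℝ) ^ (s ^ 2) := one_le_pow₀ (by linarith)
    linarith
  refine ⟨c0 / 2, by positivity, by linarith, ?_⟩
  refine ⟨⌈4 * s / γ⌉₊ + ⌈2 * (s : ℝ) ^ 4 / c0⌉₊ + 4, ?_⟩
  intro M hM V _ G hV hdeg hNE x
  have hM1 : 4 ≤ M := by omega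
  have hM1' : (4 : ℝ) ≤ M := by exact_mod_cast hM1
  have hMγ : 4 * s ≤ γ * M := by
    have h1 : 4 * s / γ ≤ ⌈4 * s / γ⌉₊ := Nat.le_ceil _
    have h2 : (⌈4 * s / γ⌉₊ : ℝ) ≤ M := by
      exact_mod_cast (by omega : ⌈4 * s / γ⌉₊ ≤ M)
    have h3 := h1.trans h2
    rw [div_le_iff₀ hγ] at h3
    linarith only [h3]
  have hMc : 2 * (s : ℝ) ^ 4 ≤ c0 * M := by
    have h1 : 2 * (s : ℝ) ^ 4 / c0 ≤ ⌈2 * (s : ℝ) ^ 4 / c0⌉₊ := Nat.le_ceil _
    have h2 : (⌈2 * (s : ℝ) ^ 4 / c0⌉₊ : ℝ) ≤ M := by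
      exact_mod_cast (by omega : ⌈2 * (s : ℝ) ^ 4 / c0⌉₊ ≤ M)
    have h3 := h1.trans h2
    rw [div_le_iff₀ hc00] at h3
    linarith
  set ε : ℝ := γ / (4 * s) with hε
  have hε0 : 0 < ε := by positivity
  have hεs : ε * s = γ / 4 := by rw [hε]; field_simp
  set D : ℕ := ⌊(1 + ε) * M⌋₊ with hD
  have hDle : (D : ℝ) ≤ (1 + ε) * M := Nat.floor_le (by positivity)
  have hMD : M ≤ D := by
    apply Nat.le_floor
    nlinarith only [hε0]
  have hMD' : (M : ℝ) ≤ D := by exact_mod_cast hMD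
  have hdegD : ∀ v, dg G v univ ≤ D := fun v => Nat.le_floor (hdeg v)
  have hsD : (s : ℝ) * ((D : ℝ) + 1 - M) ≤ γ / 2 * M := by
    have h1 : (D : ℝ) + 1 - M ≤ ε * M + 1 := by linarith
    have h2 : (s : ℝ) * ((D : ℝ) + 1 - M) ≤ s * (ε * M + 1) :=
      mul_le_mul_of_nonneg_left h1 (by linarith)
    have h3 : (s : ℝ) * (ε * M + 1) = γ / 4 * M + s := by
      rw [← hεs]; ring
    rw [h3] at h2
    linarith only [hMγ, h2]
  set z : ℕ := ⌈(1 - γ) * M⌉₊ with hz
  have hzle : (z : ℝ) ≤ (1 - γ) * M + 1 := (Nat.ceil_lt_add_one (by nlinarith only [hγ1])).le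
  set g : ℕ := ⌈γ * (M : ℝ) ^ 2⌉₊ with hg
  have hgge : γ * (M : ℝ) ^ 2 ≤ g := Nat.le_ceil _
  have hs2 : ((s - 2 : ℕ) : ℝ) = s - 2 := by
    rw [Nat.cast_sub (by omega)]; norm_num
  have hs1 : ((s - 1 : ℕ) : ℝ) = s - 1 := by
    rw [Nat.cast_sub (by omega)]; norm_num
  have hpair : ∀ x y, M ^ (s - 3) * g ≤ #(Cm G s x y) := by
    intro x y
    refine pair_count G s M D g z hs hV hdegD ?_ ?_ ?_ x y
    · have : (((s - 2) * (D + 1) + M : ℕ) : ℝ) ≤ ((s * M : ℕ) : ℝ) := by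
        push_cast
        rw [hs2]
        have h1 : ((s : ℝ) - 2) * ((D : ℝ) + 1 - M) ≤ s * ((D : ℝ) + 1 - M) :=
          mul_le_mul_of_nonneg_right (by linarith) (by linarith)
        have h2 : γ / 2 * M ≤ M := by nlinarith only [hs', hMγ, hzle]
        nlinarith only [hs', hMγ, hMD', hsD, hzle]
      exact_mod_cast this
    · have : (((s - 1) * (D + 1) + z : ℕ) : ℝ) ≤ ((s * M : ℕ) : ℝ) := by
        push_cast
        rw [hs1]
        nlinarith only [hs', hMγ, hMD', hsD, hzle]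
      exact_mod_cast this
    · intro Z hZ
      have h1 : (1 - γ) * (M : ℝ) ≤ #Z := (Nat.le_ceil _).trans (by exact_mod_cast hZ)
      have h2 := hNE Z (subset_univ _) h1
      rw [hg, Nat.ceil_le]
      exact h2
  have hk : (M : ℝ) / 3 ≤ ((M / 2 : ℕ) : ℝ) := by
    have h1 : M ≤ 3 * (M / 2) := by omega
    have h2 : (M : ℝ) ≤ 3 * ((M / 2 : ℕ) : ℝ) := by exact_mod_cast h1
    linarith only [h2]
  have hk2 : ((M / 2 : ℕ) : ℝ) ≤ M / 2 := by
    have h1 : 2 * (M / 2) ≤ M := by omega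
    have h2 : 2 * ((M / 2 : ℕ) : ℝ) ≤ (M : ℝ) := by exact_mod_cast h1
    linarith only [h2]
  have hcol : (M / 2) ^ s ≤ #(univ.filter fun u : Fin s → V => Clq G u) := by
    refine col_count G s M D (M / 2) hV hdegD ?_
    have : (((s - 1) * (D + 1) + M / 2 : ℕ) : ℝ) ≤ ((s * M : ℕ) : ℝ) := by
      push_cast
      rw [hs1]
      nlinarith only [hMD', hsD, hzle, hk2]
    exact_mod_cast this
  have hcount := abs_count G s ((M / 2) ^ s) (M ^ (s - 3) * g) hcol hpair x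
  have harr : (Fintype.card (Arr V s) : ℝ) = (s : ℝ) ^ (s ^ 2) * (M : ℝ) ^ (s ^ 2) := by
    rw [arr_card s (by omega), hV]
    push_cast
    rw [mul_pow]
  have hcount2 : c0 * Fintype.card (Arr V s) ≤
      #(univ.filter fun a : Arr V s => Abb G s x a) := by
    have h1 : (((M / 2) ^ s * (M ^ (s - 3) * g) ^ s : ℕ) : ℝ) ≤
        #(univ.filter fun a : Arr V s => Abb G s x a) := by exact_mod_cast hcount
    refine le_trans ?_ h1
    rw [harr, hc0]
    push_cast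
    have h2 : (γ / 3) ^ s / (s : ℝ) ^ (s ^ 2) * ((s : ℝ) ^ (s ^ 2) * (M : ℝ) ^ (s ^ 2)) =
        ((M : ℝ) / 3) ^ s * (γ * (M : ℝ) ^ (s - 1)) ^ s := by
      have e1 : (M : ℝ) ^ (s ^ 2) = (M : ℝ) ^ s * ((M : ℝ) ^ (s - 1)) ^ s := by
        rw [← pow_mul, ← pow_add]
        congr 1
        obtain ⟨m, rfl⟩ : ∃ m, s = m + 1 := ⟨s - 1, by omega⟩
        simp only [Nat.add_sub_cancel]
        ring
      have e2 : (s : ℝ) ^ (s ^ 2) ≠ 0 := by positivity
      have e3 : ((M : ℝ) / 3) ^ s * (γ * (M : ℝ) ^ (s - 1)) ^ s =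
          (γ / 3) ^ s * ((M : ℝ) ^ s * ((M : ℝ) ^ (s - 1)) ^ s) := by
        rw [← mul_pow, ← mul_pow, ← mul_pow]
        congr 1
        ring
      rw [e3, ← e1]
      field_simp
    rw [h2]
    refine mul_le_mul ?_ ?_ (by positivity) (by positivity)
    · exact pow_le_pow_left₀ (by positivity) hk s
    · refine pow_le_pow_left₀ (by positivity) ?_ s
      have e1 : (M : ℝ) ^ (s - 1) = (M : ℝ) ^ (s - 3) * (M : ℝ) ^ 2 := by
        rw [← pow_add]
        congr 1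
        omega
      rw [e1]
      calc γ * ((M : ℝ) ^ (s - 3) * (M : ℝ) ^ 2) = (M : ℝ) ^ (s - 3) * (γ * (M : ℝ) ^ 2) := by ring
        _ ≤ (M : ℝ) ^ (s - 3) * g := mul_le_mul_of_nonneg_left hgge (by positivity)
  have hrep := arr_repeat (V := V) s
  rw [hV] at hrep
  have hrep2 : (#(univ.filter fun a : Arr V s => #(Wa a) ≠ s ^ 2) : ℝ) ≤
      c0 / 2 * Fintype.card (Arr V s) := by
    have h1 : ((s * M : ℕ) : ℝ) * #(univ.filter fun a : Arr V s => #(Wa a) ≠ s ^ 2) ≤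
        (s : ℝ) ^ 4 * Fintype.card (Arr V s) := by exact_mod_cast hrep
    push_cast at h1
    set R : ℝ := (#(univ.filter fun a : Arr V s => #(Wa a) ≠ s ^ 2) : ℝ) with hR
    set A : ℝ := (Fintype.card (Arr V s) : ℝ) with hA
    have hA0 : 0 ≤ A := Nat.cast_nonneg _
    have hR0 : 0 ≤ R := Nat.cast_nonneg _
    have h2 : (M : ℝ) * R ≤ s * M * R := by
      have : 0 ≤ (M : ℝ) * R := by (clear * - hM1; positivity)
      nlinarith only [this, hs']
    have h3 : (M : ℝ) * R ≤ M * (c0 / 2 * A) := by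
      have : 2 * (s : ℝ) ^ 4 * A ≤ c0 * M * A := mul_le_mul_of_nonneg_right hMc hA0
      nlinarith only [h1, h2, this]
    exact le_of_mul_le_mul_left h3 (by linarith only [hs', hMγ, hzle])
  have hsplit : #(univ.filter fun a : Arr V s => Abb G s x a) ≤
      #(univ.filter fun a : Arr V s => Abb G s x a ∧ #(Wa a) = s ^ 2) +
      #(univ.filter fun a : Arr V s => #(Wa a) ≠ s ^ 2) := by
    refine le_trans (card_le_card ?_) (card_union_le _ _)
    intro a ha
    rw [mem_filter] at ha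
    rw [mem_union, mem_filter, mem_filter]
    by_cases h : #(Wa a) = s ^ 2
    · exact Or.inl ⟨mem_univ _, ha.2, h⟩
    · exact Or.inr ⟨mem_univ _, h⟩
  have hsplit' : (#(univ.filter fun a : Arr V s => Abb G s x a) : ℝ) ≤
      #(univ.filter fun a : Arr V s => Abb G s x a ∧ #(Wa a) = s ^ 2) +
      #(univ.filter fun a : Arr V s => #(Wa a) ≠ s ^ 2) := by exact_mod_cast hsplit
  linarith only [hcount2, hrep2, hsplit']

/-- the intersection does not depend on the decidability instance -/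
theorem inter_card_le {Ω : Type} (i j : DecidableEq Ω) (S T : Finset Ω) :
    #(@Inter.inter (Finset Ω) (@Finset.instInter Ω i) S T) ≤
      #(@Inter.inter (Finset Ω) (@Finset.instInter Ω j) S T) := by
  have h : i = j := Subsingleton.elim _ _
  subst h
  exact le_rfl


theorem ne_univ (s : ℕ) (hs : 3 ≤ s) (γ : ℝ) (hγ : 0 < γ) :
    ∃ ε : ℝ, 0 < ε ∧ ∃ M0 : ℕ, ∀ M : ℕ, M0 ≤ M →
      ∀ (V : Type) [Fintype V] (G : SimpleGraph V), Fintype.card V = s * M →
      (∀ v, (dg G v univ : ℝ) ≤ (1 + ε) * M) →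
      NEc G univ γ M → ∃ F, Til G s F ∧ F.biUnion id = univ := by
  have hs' : (3 : ℝ) ≤ s := by exact_mod_cast hs
  set x : ℝ := min γ 1 with hx
  have hx0 : 0 < x := lt_min hγ one_pos
  have hx1 : x ≤ 1 := min_le_right _ _
  have hxγ : x ≤ γ := min_le_left _ _
  obtain ⟨ε1, hε1, hap⟩ := ap_set s hs (x / 2) (by positivity)
  obtain ⟨c, hc0, hc1, M2, hM2⟩ := many s hs x hx0 hx1
  set e : ℝ := min ε1 1 with he
  have he0 : 0 < e := lt_min hε1 one_pos
  have he1 : e ≤ 1 := min_le_right _ _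
  have heε : e ≤ ε1 := min_le_left _ _
  set θ : ℝ := min (e / 4) (x / 4) with hθ
  have hθ0 : 0 < θ := lt_min (by positivity) (by positivity)
  have hθe : θ ≤ e / 4 := min_le_left _ _
  have hθx : θ ≤ x / 4 := min_le_right _ _
  set β : ℝ := min (c / (10 * (s : ℝ) ^ 4)) (θ / (2 * s ^ 2)) with hβ
  have hβ0 : 0 < β := lt_min (by positivity) (by positivity)
  have hβc : 10 * ((s ^ 2 : ℕ) : ℝ) ^ 2 * β ≤ c := by
    have h1 : β ≤ c / (10 * (s : ℝ) ^ 4) := min_le_left _ _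
    rw [le_div_iff₀ (by positivity)] at h1
    push_cast
    have h2 : 10 * ((s : ℝ) ^ 2) ^ 2 * β = β * (10 * (s : ℝ) ^ 4) := by ring
    rw [h2]
    exact h1
  have hβθ : β * (2 * (s : ℝ) ^ 2) ≤ θ := by
    have h1 : β ≤ θ / (2 * s ^ 2) := min_le_right _ _
    rwa [le_div_iff₀ (by positivity)] at h1
  obtain ⟨M1, hM1⟩ := hap (c * β * s / 4) (by positivity)
  obtain ⟨n0, hn0⟩ := select s (s ^ 2) c β hc0 hc1 hβ0 hβc
  refine ⟨min (e / 4) (x / (4 * s)), lt_min (by positivity) (by positivity), ?_⟩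
  refine ⟨M2 + 2 * M1 + n0 + ⌈2 * s / θ⌉₊ + 1, ?_⟩
  intro M hM V _ G hVc hdeg hNE
  have hM0 : 1 ≤ M := by omega
  have hM0' : (1 : ℝ) ≤ M := by exact_mod_cast hM0
  have hMθ : 2 * s ≤ θ * M := by
    have h1 : 2 * s / θ ≤ ⌈2 * s / θ⌉₊ := Nat.le_ceil _
    have h2 : (⌈2 * s / θ⌉₊ : ℝ) ≤ M := by
      exact_mod_cast (by omega : ⌈2 * s / θ⌉₊ ≤ M)
    have h3 := h1.trans h2
    rw [div_le_iff₀ hθ0] at h3
    linarith
  have hNEx : NEc G univ x M := NEc_mono hNE hxγ (by linarith)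
  have hA := hM2 M (by omega) V G hVc (fun v => (hdeg v).trans (by
    have h1 : min (e / 4) (x / (4 * s)) ≤ x / (4 * s) := min_le_right _ _
    exact mul_le_mul_of_nonneg_right (by linarith) (by linarith))) hNEx
  have hdeg4 : ∀ v, (dg G v univ : ℝ) ≤ (1 + e / 4) * M := fun v => (hdeg v).trans (by
    have h1 : min (e / 4) (x / (4 * s)) ≤ e / 4 := min_le_left _ _
    exact mul_le_mul_of_nonneg_right (by linarith) (by linarith))
  obtain ⟨S, hS1, hS2, hS3⟩ := hn0 V (Arr V s) (Fin s → V)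
    (s * M) hVc.symm (by nlinarith only [hs, hM, hVc]) (by
      rw [Fintype.card_fun, hVc, Fintype.card_fin]) Wa
    (fun x => univ.filter fun a : Arr V s => Abb G s x a ∧ #(Wa a) = s ^ 2)
    (fun a => (Wa_card_le s (by omega) a).2) (fun a => (Wa_card_le s (by omega) a).1)
    (by
      intro v
      have h1 := arr_vertex s v
      rwa [hVc] at h1) hA (by
      rw [arr_card s (by omega), hVc]
      exact Nat.one_le_pow _ _ (Nat.mul_pos (by omega) (by omega)))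
  set S' : Finset (Arr V s) :=
    S.filter (fun a => #(Wa a) = s ^ 2 ∧ ∃ y, Abb G s y a) with hS'
  have hS'S : S' ⊆ S := filter_subset _ _
  have hS'disj : ∀ a ∈ S', ∀ b ∈ S', a ≠ b → Disjoint (Wa a) (Wa b) :=
    fun a ha b hb hab => hS1 a (hS'S ha) b (hS'S hb) hab
  have hS'c : ∀ a ∈ S', #(Wa a) = s ^ 2 ∧ ∃ y, Abb G s y a := fun a ha => (mem_filter.mp ha).2
  set Y : Finset V := S'.biUnion Wa with hY
  have hYc : #Y = s ^ 2 * #S' := by
    rw [hY, card_biUnion hS'disj, Finset.sum_congr rfl (fun a ha => (hS'c a ha).1), sum_const,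
      smul_eq_mul, mul_comm]
  set U : Finset V := univ \ Y with hU
  have hsS' : (s : ℝ) * #S' ≤ θ * M := by
    have h1 : (#S' : ℝ) ≤ #S := by exact_mod_cast card_le_card hS'S
    have h2 : (#S' : ℝ) ≤ β * (s * M) + 1 := by
      refine h1.trans ?_
      have := hS2
      push_cast at this
      exact this
    have h3 : (s : ℝ) * #S' ≤ s * (β * (s * M) + 1) :=
      mul_le_mul_of_nonneg_left h2 (by linarith)
    have h4 : (s : ℝ) * (β * (s * M) + 1) = β * (s : ℝ) ^ 2 * M + s := by ring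
    rw [h4] at h3
    nlinarith only [hMθ, h3, hβθ]
  have hθ1 : θ ≤ 1 / 4 := by linarith
  have hsS'M : s * #S' ≤ M := by
    have : ((s * #S' : ℕ) : ℝ) ≤ (M : ℝ) := by
      push_cast
      nlinarith only [hs', he1, hθ0, hθe, hMθ, hsS']
    exact_mod_cast this
  obtain ⟨M', hM'⟩ : ∃ M', M = s * #S' + M' := ⟨M - s * #S', by omega⟩
  have hM'r : (M : ℝ) = s * #S' + M' := by exact_mod_cast hM'
  have hM'ge : (1 - θ) * M ≤ M' := by linarith
  have hM'le : (M' : ℝ) ≤ M := by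
    have : 0 ≤ (s : ℝ) * #S' := by (clear * - hs; positivity)
    linarith
  have hUc : #U = s * M' := by
    rw [hU, card_sdiff_of_subset (subset_univ _), card_univ, hVc, hYc]
    have h1 : s * M = s ^ 2 * #S' + s * M' := by
      calc s * M = s * (s * #S' + M') := congrArg (s * ·) hM'
        _ = _ := by ring
    omega
  have hM'M1 : M1 ≤ M' := by
    have h1 : (2 * M1 : ℝ) ≤ M := by exact_mod_cast (by omega : 2 * M1 ≤ M)
    have h2 : (M1 : ℝ) ≤ M' := by nlinarith only [hs', he1, hθ0, hθe, hMθ, hsS', hM'r, h1]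
    exact_mod_cast h2
  have hdegU : ∀ v ∈ U, (dg G v U : ℝ) ≤ (1 + ε1) * M' := by
    intro v _
    have h1 : (dg G v U : ℝ) ≤ dg G v univ := by
      exact_mod_cast dg_mono G v (subset_univ U)
    refine (h1.trans (hdeg4 v)).trans ?_
    have h2 : (1 + e / 4) ≤ (1 + ε1) * (1 - θ) := by
      have h3 : (1 + e) * (1 - e / 4) ≤ (1 + ε1) * (1 - θ) :=
        mul_le_mul (by linarith) (by linarith) (by linarith) (by linarith only [he1, heε, hθ0, hθe])
      nlinarith only [heε, hθ0, hθe, hε1, he1]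
    calc (1 + e / 4) * (M : ℝ) ≤ (1 + ε1) * (1 - θ) * M :=
          mul_le_mul_of_nonneg_right h2 (by linarith)
      _ = (1 + ε1) * ((1 - θ) * M) := by ring
      _ ≤ (1 + ε1) * M' := mul_le_mul_of_nonneg_left hM'ge (by linarith)
  have hNEU : NEc G U (x / 2) M' := by
    intro Z _ hZc
    have h1 : (1 - x) * (M : ℝ) ≤ #Z := by
      refine le_trans ?_ hZc
      have h2 : 1 - x ≤ (1 - x / 2) * (1 - θ) := by nlinarith only [hθ0, hθx, hx0]
      calc (1 - x) * (M : ℝ) ≤ (1 - x / 2) * (1 - θ) * M :=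
            mul_le_mul_of_nonneg_right h2 (by (clear * -; linarith))
        _ = (1 - x / 2) * ((1 - θ) * M) := by ring
        _ ≤ (1 - x / 2) * M' := mul_le_mul_of_nonneg_left hM'ge (by linarith only [hx1, he1, hθ0, hθe])
    have h2 := hNEx Z (subset_univ _) h1
    refine le_trans ?_ h2
    have h3 : (M' : ℝ) ^ 2 ≤ (M : ℝ) ^ 2 := pow_le_pow_left₀ (Nat.cast_nonneg _) hM'le 2
    nlinarith only [hs', he1, hθ0, hθe, hMθ, hθx, hx0, h3, sq_nonneg (M : ℝ)]
  obtain ⟨F0, hF0, hF0U, hF0c⟩ := hM1 M' hM'M1 _ G U hUc hdegU hNEU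
  have hF0card := card_til hF0
  have hF0le : #F0 ≤ M' := by
    have h1 := card_le_card hF0U
    rw [hF0card, hUc] at h1
    exact Nat.le_of_mul_le_mul_left h1 (by omega)
  obtain ⟨l, hl⟩ : ∃ l, M' = #F0 + l := ⟨M' - #F0, by omega⟩
  have hlr : (M' : ℝ) = #F0 + l := by exact_mod_cast hl
  set L : Finset V := U \ F0.biUnion id with hL
  have hLc : #L = s * l := by
    rw [hL, card_sdiff_of_subset hF0U, hF0card, hUc]
    have : s * M' = s * #F0 + s * l := by
      calc s * M' = s * (#F0 + l) := congrArg (s * ·) hl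
        _ = _ := by ring
    omega
  have hLY : ∀ a ∈ S', Disjoint L (Wa a) := by
    intro a ha
    rw [Finset.disjoint_left]
    intro v hv hva
    rw [hL, mem_sdiff, hU, mem_sdiff] at hv
    exact hv.1.2 (mem_biUnion.mpr ⟨a, ha, hva⟩)
  obtain ⟨F1, hF1, hF1U⟩ := absorb G s (by omega) l S' L hS'c hS'disj hLc hLY (by
    intro y
    have h1 := hS3 y
    have h2 : S ∩ (univ.filter fun a : Arr V s => Abb G s y a ∧ #(Wa a) = s ^ 2) ⊆
        S'.filter fun a => Abb G s y a := by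
      intro a ha
      rw [mem_inter, mem_filter] at ha
      rw [mem_filter, hS', mem_filter]
      exact ⟨⟨ha.1, ha.2.2.2, y, ha.2.2.1⟩, ha.2.2.1⟩
    have h3 : (l : ℝ) ≤ #(S'.filter fun a => Abb G s y a) := by
      have h2' : (#(S ∩ (univ.filter fun a : Arr V s => Abb G s y a ∧ #(Wa a) = s ^ 2)) : ℝ) ≤
          #(S'.filter fun a => Abb G s y a) := by exact_mod_cast card_le_card h2
      have h1' : c / 4 * β * ((s * M : ℕ) : ℝ) ≤
          #(S ∩ (univ.filter fun a : Arr V s => Abb G s y a ∧ #(Wa a) = s ^ 2)) := by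
        exact h1.trans (Nat.cast_le.2 (inter_card_le _ _ _ _))
      refine le_trans ?_ (le_trans h1' h2')
      push_cast
      have h4 : (l : ℝ) ≤ c * β * s / 4 * M' := by
        have : (1 - c * β * s / 4) * (M' : ℝ) ≤ #F0 := hF0c
        linarith only [hF0c, hlr]
      have h5 : c * β * s / 4 * (M' : ℝ) ≤ c * β * s / 4 * M :=
        mul_le_mul_of_nonneg_left hM'le (by positivity)
      have h6 : c / 4 * β * ((s : ℝ) * M) = c * β * s / 4 * M := by ring
      rw [h6]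
      linarith only [hF0c, hlr, h5]
    exact_mod_cast h3)
  have hdj : Disjoint (F0.biUnion id) (F1.biUnion id) := by
    rw [hF1U, Finset.disjoint_left]
    intro v hv hv1
    rw [mem_union] at hv1
    rcases hv1 with h | h
    · have := hF0U hv
      rw [hU, mem_sdiff] at this
      exact this.2 h
    · rw [hL, mem_sdiff] at h
      exact h.2 hv
  refine ⟨F0 ∪ F1, Til.union hF0 hF1 hdj, ?_⟩
  rw [union_biUnion, hF1U]
  ext v
  simp only [mem_univ, iff_true]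
  rw [mem_union, mem_union]
  by_cases h1 : v ∈ F0.biUnion id
  · exact Or.inl h1
  · right
    by_cases h2 : v ∈ Y
    · exact Or.inl h2
    · right
      rw [hL, mem_sdiff, hU, mem_sdiff]
      exact ⟨⟨mem_univ _, h2⟩, h1⟩

theorem ne_inj (s : ℕ) (hs : 3 ≤ s) (γ : ℝ) (hγ : 0 < γ) :
    ∃ ε : ℝ, 0 < ε ∧ ∃ M0 : ℕ, ∀ M : ℕ, M0 ≤ M →
      ∀ (V W : Type) [Fintype W] (G : SimpleGraph V) (f : W → V) (U : Finset V),
      Function.Injective f → univ.image f = U → #U = s * M →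
      (∀ v ∈ U, (dg G v U : ℝ) ≤ (1 + ε) * M) → NEc G U γ M →
      ∃ F, Til G s F ∧ F.biUnion id = U := by
  obtain ⟨ε, hε, M0, hM0⟩ := ne_univ s hs γ hγ
  refine ⟨ε, hε, M0, ?_⟩
  intro M hM V W _ G f U hf hfU hU hdeg hNE
  obtain ⟨F, hF, hFc⟩ := hM0 M hM W (G.comap f) (by
    rw [← hU, ← hfU, card_image_of_injective _ hf, card_univ]) (by
    intro v
    rw [dg_comap G hf, hfU]
    refine hdeg _ ?_
    rw [← hfU]
    exact mem_image_of_mem _ (mem_univ v)) (NEc_comap hf hfU hNE)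
  refine ⟨F.image fun T => T.image f, Til.map hf hF, ?_⟩
  have h2 := biUnion_map (f := f) F
  rw [h2, hFc, hfU]

/-- Theorem NE for a finset -/
theorem ne_set (s : ℕ) (hs : 3 ≤ s) (γ : ℝ) (hγ : 0 < γ) :
    ∃ ε : ℝ, 0 < ε ∧ ∃ M0 : ℕ, ∀ M : ℕ, M0 ≤ M →
      ∀ (V : Type) (G : SimpleGraph V) (U : Finset V), #U = s * M →
      (∀ v ∈ U, (dg G v U : ℝ) ≤ (1 + ε) * M) → NEc G U γ M →
      ∃ F, Til G s F ∧ F.biUnion id = U := by
  obtain ⟨ε, hε, M0, hM0⟩ := ne_inj s hs γ hγ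
  refine ⟨ε, hε, M0, ?_⟩
  intro M hM V G U hU hdeg hNE
  obtain ⟨f, hf, hfU⟩ := exists_enum U (s * M) hU
  exact hM0 M hM V (Fin (s * M)) G f U hf hfU hU hdeg hNE

end

end Pool.Agent.Helper69.NE
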