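import Pool.Agent.Helper69.NE.Samp

/-!
# Project BECX P3, NE, piece Clean: a linear hypergraph
-/

set_option autoImplicit false

open Classical Finset

namespace Pool.Agent.Helper69.NE

noncomputable section

/-- Delete sample `i` for every bad pair `(i, j)`, and `dgs ω v - D` samples that contain `v` for every `v` with `D < dgs ω v`. `H` is the
set of the vertex sets of the other samples (different samples have different vertex sets, because `s ≥ 2`). -/
theorem clean {V : Type} [Fintype V] (G : SimpleGraph V) (s T D : ℕ) (hs : 2 ≤ s)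
    (ω : Fin T → Fin s → V) (hω : ∀ i, Clq G (ω i)) (b : ℝ)
    (hb : (#(bad ω) : ℝ) + ∑ v, max 0 ((dgs ω v : ℝ) - D) ≤ b) :
    ∃ H : Finset (Finset V), (∀ e ∈ H, #e = s) ∧ (∀ e ∈ H, Ind G e) ∧
      (∀ e ∈ H, ∀ f ∈ H, e ≠ f → #(e ∩ f) ≤ 1) ∧ (∀ v, #(H.filter fun e => v ∈ e) ≤ D) ∧
      (T : ℝ) - b ≤ #H := by
  have hR : ∀ v, ∃ t ⊆ univ.filter (fun i => v ∈ univ.image (ω i)), #t = dgs ω v - D := fun v =>
    exists_subset_card_eq (Nat.sub_le _ _)
  choose R hRs hRc using hR
  set Del : Finset (Fin T) := (bad ω).image Prod.fst ∪ univ.biUnion R with hDel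
  have hdel : (#Del : ℝ) ≤ b := by
    refine le_trans ?_ hb
    have h1 : #Del ≤ #(bad ω) + ∑ v, (dgs ω v - D) := by
      refine (card_union_le _ _).trans (Nat.add_le_add card_image_le ?_)
      refine card_biUnion_le.trans (le_of_eq ?_)
      exact sum_congr rfl fun v _ => hRc v
    have h2 : (#Del : ℝ) ≤ #(bad ω) + ∑ v, ((dgs ω v - D : ℕ) : ℝ) := by
      have := (Nat.cast_le (α := ℝ)).2 h1
      push_cast at this ⊢
      exact this
    refine h2.trans (add_le_add le_rfl (sum_le_sum fun v _ => ?_))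
    rcases le_total (dgs ω v) D with h | h
    · rw [Nat.sub_eq_zero_of_le h]
      simp
    · rw [Nat.cast_sub h]
      exact le_max_right _ _
  have hinj : ∀ i, Function.Injective (ω i) := by
    intro i a c hac
    by_contra hne
    exact (hω i a c hne).1 hac
  have hcard : ∀ i, #(univ.image (ω i)) = s := by
    intro i
    rw [card_image_of_injective _ (hinj i), card_univ, Fintype.card_fin]
  have hgood : ∀ i j, i ∉ Del → i ≠ j → #(univ.image (ω i) ∩ univ.image (ω j)) ≤ 1 := by
    intro i j hi hij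
    by_contra hlt
    apply hi
    rw [hDel]
    refine mem_union_left _ (mem_image.2 ⟨(i, j), ?_, rfl⟩)
    rw [bad, mem_filter]
    exact ⟨mem_univ _, hij, Nat.lt_of_not_le hlt⟩
  set K : Finset (Fin T) := univ \ Del with hK
  have hKm : ∀ i, i ∈ K ↔ i ∉ Del := by
    intro i
    simp [hK]
  have hKinj : Set.InjOn (fun i => univ.image (ω i)) (K : Set (Fin T)) := by
    intro i hi j hj hij
    by_contra hne
    have h1 := hgood i j ((hKm i).1 hi) hne
    have h2 : univ.image (ω i) = univ.image (ω j) := hij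
    rw [← h2, inter_self, hcard] at h1
    omega
  refine ⟨K.image fun i => univ.image (ω i), ?_, ?_, ?_, ?_, ?_⟩
  · intro e he
    obtain ⟨i, _, rfl⟩ := mem_image.1 he
    exact hcard i
  · intro e he a ha c hc
    obtain ⟨i, _, rfl⟩ := mem_image.1 he
    obtain ⟨x, _, rfl⟩ := mem_image.1 ha
    obtain ⟨y, _, rfl⟩ := mem_image.1 hc
    by_cases hxy : x = y
    · subst hxy
      exact G.loopless.irrefl _
    · exact (hω i x y hxy).2
  · intro e he f hf hef
    obtain ⟨i, hi, rfl⟩ := mem_image.1 he
    obtain ⟨j, hj, rfl⟩ := mem_image.1 hf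
    exact hgood i j ((hKm i).1 hi) fun h => hef (by rw [h])
  · intro v
    have h1 : (K.image fun i => univ.image (ω i)).filter (fun e => v ∈ e) ⊆
        (univ.filter (fun i => v ∈ univ.image (ω i)) \ R v).image fun i => univ.image (ω i) := by
      intro e he
      obtain ⟨he1, he2⟩ := mem_filter.1 he
      obtain ⟨i, hi, rfl⟩ := mem_image.1 he1
      refine mem_image.2 ⟨i, mem_sdiff.2 ⟨mem_filter.2 ⟨mem_univ _, he2⟩, fun hiR => ?_⟩, rfl⟩
      refine (hKm i).1 hi ?_
      rw [hDel]
      exact mem_union_right _ (mem_biUnion.2 ⟨v, mem_univ _, hiR⟩)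
    refine (card_le_card h1).trans (card_image_le.trans ?_)
    rw [card_sdiff_of_subset (hRs v), hRc v]
    have h2 : #(univ.filter (fun i => v ∈ univ.image (ω i))) = dgs ω v := rfl
    rw [h2]
    omega
  · rw [card_image_of_injOn hKinj]
    have h3 : #K + #Del = T := by
      rw [hK, card_sdiff_add_card_eq_card (subset_univ _), card_univ, Fintype.card_fin]
    have h4 : (#K : ℝ) + #Del = T := by exact_mod_cast h3
    linarith

end

end Pool.Agent.Helper69.NE
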