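import Pool.Agent.Helper61.LE.Nib6

/-!
# Project BECX P3, NE, piece Match: almost perfect matchings from the nibble
-/

set_option autoImplicit false

open Classical Finset

namespace Pool.Agent.Helper69.NE

/-- `Pool.Agent.Helper61.LE.core` with `k = s`, `K = 1` and the uniform weights `1 / c` on `c = ⌈(1 + η/2) D⌉` colours (`C = Fin c`):
`HasCol` gives a proper colouring of `H` with `c` colours, take the largest colour class. (`D0 ≥ 2 / η` so that `c ≤ (1 + η) D` and
`c ≤ 2 D`.) -/
theorem matching_of_linear (s : ℕ) (hs : 1 ≤ s) (η : ℝ) (hη : 0 < η) (hη1 : η ≤ 1) :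
    ∃ D0 : ℕ, ∀ D : ℕ, D0 ≤ D → ∀ (V : Type) [Fintype V] (H : Finset (Finset V)),
      (∀ e ∈ H, #e = s) → (∀ e ∈ H, ∀ f ∈ H, e ≠ f → #(e ∩ f) ≤ 1) →
      (∀ v, #(H.filter fun e => v ∈ e) ≤ D) →
      ∃ F ⊆ H, (∀ e ∈ F, ∀ f ∈ F, e ≠ f → Disjoint e f) ∧ (#H : ℝ) ≤ (1 + η) * D * #F := by
  set γ := η / (2 + η) with hγ
  have hγ0 : 0 < γ := by positivity
  have hγ1 : γ ≤ 1 := by
    rw [hγ, div_le_one (by positivity)]
    linarith
  have h1γ : 1 - γ = 1 / (1 + η / 2) := by
    rw [hγ]
    field_simp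
    ring
  obtain ⟨D₀, hD₀⟩ := Helper61.LE.core s hs γ 1 hγ0 hγ1 le_rfl
  refine ⟨max D₀ (max 1 ⌈2 / η⌉₊), ?_⟩
  intro D hD V _ H hsz hlin hdeg
  have hDD : D₀ ≤ D := (le_max_left _ _).trans hD
  have hD1 : 1 ≤ D := ((le_max_left _ _).trans (le_max_right _ _)).trans hD
  have hDc : ⌈2 / η⌉₊ ≤ D := ((le_max_right _ _).trans (le_max_right _ _)).trans hD
  have hD1' : (1 : ℝ) ≤ D := by exact_mod_cast hD1
  have hDη : 2 / η ≤ D := (Nat.le_ceil _).trans (by exact_mod_cast hDc)
  have hDη' : 2 ≤ η * D := by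
    rw [div_le_iff₀ hη] at hDη
    linarith
  set c := ⌈(1 + η / 2) * D⌉₊ with hc
  have hc1 : (1 + η / 2) * D ≤ c := Nat.le_ceil _
  have hc2 : (c : ℝ) < (1 + η / 2) * D + 1 := Nat.ceil_lt_add_one (by positivity)
  have hc3 : (c : ℝ) ≤ (1 + η) * D := by nlinarith
  have hc4 : (c : ℝ) ≤ 2 * D := by nlinarith
  have hcD : (D : ℝ) ≤ c := by nlinarith
  have hc0 : (0 : ℝ) < c := by linarith
  have hc0' : 0 < c := by exact_mod_cast hc0
  have hgood : Helper61.LE.Good s D 1 (1 - γ) H (fun (_ : Finset V) (_ : Fin c) => (1 : ℝ) / c) := by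
    refine ⟨hlin, fun e he => (hsz e he).le, ?_, ?_, ?_, ?_, ?_, ?_, ?_⟩
    · intro e he
      rw [← Finset.card_pos, hsz e he]
      omega
    · intro v
      exact hdeg v
    · intro e _ a
      positivity
    · intro e _ a
      apply one_div_le_one_div_of_le (by linarith) hcD
    · intro e _
      rw [Finset.sum_const, Finset.card_univ, Fintype.card_fin, nsmul_eq_mul]
      field_simp
    · intro e _
      refine (Finset.card_le_univ _).trans ?_
      rw [Fintype.card_fin]
      exact_mod_cast hc4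
    · intro v a
      rw [Finset.sum_const, nsmul_eq_mul]
      have h1 : ((Helper61.LE.att H v).card : ℝ) ≤ D := by exact_mod_cast hdeg v
      have h2 : ((Helper61.LE.att H v).card : ℝ) * (1 / c) ≤ D * (1 / c) :=
        mul_le_mul_of_nonneg_right h1 (by positivity)
      refine h2.trans ?_
      rw [h1γ, mul_one_div, div_le_div_iff₀ hc0 (by positivity)]
      linarith
  obtain ⟨ω, hω⟩ := hD₀ D hDD V (Fin c) H _ hgood
  have : Nonempty (Fin c) := ⟨⟨0, hc0'⟩⟩
  obtain ⟨a, _, ha⟩ := Finset.exists_max_image (Finset.univ : Finset (Fin c))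
    (fun a => #(H.filter fun e => ω e = some a)) Finset.univ_nonempty
  refine ⟨H.filter fun e => ω e = some a, Finset.filter_subset _ _, ?_, ?_⟩
  · intro e he f hf hef
    obtain ⟨heH, hea⟩ := Finset.mem_filter.1 he
    obtain ⟨hfH, hfa⟩ := Finset.mem_filter.1 hf
    by_contra hdis
    obtain ⟨b, _, hb, hcl⟩ := hω e heH
    have hab : a = b := by
      rw [hea] at hb
      exact Option.some.inj hb
    refine hcl f ?_ (hab ▸ hfa)
    rw [Helper61.LE.mem_nb]
    exact ⟨hfH, fun h => hef h.symm, fun h => hdis h⟩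
  · have h1 : H = (Finset.univ : Finset (Fin c)).biUnion (fun b => H.filter fun e => ω e = some b) := by
      ext e
      constructor
      · intro he
        obtain ⟨b, _, hb, _⟩ := hω e he
        exact Finset.mem_biUnion.2 ⟨b, Finset.mem_univ _, Finset.mem_filter.2 ⟨he, hb⟩⟩
      · intro he
        obtain ⟨b, _, hb⟩ := Finset.mem_biUnion.1 he
        exact (Finset.mem_filter.1 hb).1
    have h2 : #H ≤ c * #(H.filter fun e => ω e = some a) := by
      have h3 : #H ≤ ∑ b : Fin c, #(H.filter fun e => ω e = some b) := by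
        conv_lhs => rw [h1]
        exact Finset.card_biUnion_le
      refine h3.trans ?_
      have h4 : ∑ b : Fin c, #(H.filter fun e => ω e = some b)
          ≤ ∑ _b : Fin c, #(H.filter fun e => ω e = some a) :=
        Finset.sum_le_sum fun b hb => ha b hb
      refine h4.trans ?_
      rw [Finset.sum_const, Finset.card_univ, Fintype.card_fin, smul_eq_mul]
    have h5 : (#H : ℝ) ≤ c * #(H.filter fun e => ω e = some a) := by exact_mod_cast h2
    exact h5.trans (mul_le_mul_of_nonneg_right hc3 (Nat.cast_nonneg _))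

end Pool.Agent.Helper69.NE
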