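import Pool.Agent.Helper69.NE.Defs

/-!
# Project BECX P3, NE, piece Tr: transfer along injections
-/

set_option autoImplicit false

open Classical Finset

namespace Pool.Agent.Helper69.NE

noncomputable section

variable {V W : Type} [DecidableEq V]

theorem dg_comap (G : SimpleGraph V) {f : W → V} (hf : Function.Injective f) (w : W)
    (A : Finset W) : dg (G.comap f) w A = dg G (f w) (A.image f) := by
  unfold dg
  rw [Finset.filter_image, Finset.card_image_of_injective _ hf]
  simp only [SimpleGraph.comap_adj]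

theorem hn_comap (G : SimpleGraph V) {f : W → V} (hf : Function.Injective f) (Z : Finset W) :
    hn (G.comap f) Z = hn G (Z.image f) := by
  unfold hn
  rw [← Finset.card_image_of_injective _ (hf.prodMap hf)]
  congr 1
  ext ⟨a, b⟩
  simp only [mem_image, mem_filter, mem_product, SimpleGraph.comap_adj, Prod.exists,
    Prod.map_apply, Prod.mk.injEq]
  constructor
  · rintro ⟨x, y, ⟨⟨hx, hy⟩, hne, hadj⟩, rfl, rfl⟩
    exact ⟨⟨⟨x, hx, rfl⟩, ⟨y, hy, rfl⟩⟩, fun h => hne (hf h), hadj⟩
  · rintro ⟨⟨⟨x, hx, rfl⟩, ⟨y, hy, rfl⟩⟩, hne, hadj⟩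
    exact ⟨x, y, ⟨⟨hx, hy⟩, fun h => hne (h ▸ rfl), hadj⟩, rfl, rfl⟩

theorem Til.map {G : SimpleGraph V} {f : W → V} (hf : Function.Injective f) {s : ℕ}
    {F : Finset (Finset W)} (h : Til (G.comap f) s F) :
    Til G s (F.image fun T => T.image f) := by
  refine ⟨?_, ?_, ?_⟩
  · intro T hT
    obtain ⟨S, hS, rfl⟩ := mem_image.mp hT
    rw [card_image_of_injective _ hf]
    exact h.card S hS
  · intro T hT
    obtain ⟨S, hS, rfl⟩ := mem_image.mp hT
    intro a ha b hb
    obtain ⟨x, hx, rfl⟩ := mem_image.mp ha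
    obtain ⟨y, hy, rfl⟩ := mem_image.mp hb
    exact h.ind S hS x hx y hy
  · intro T hT T' hT' hne
    obtain ⟨S, hS, rfl⟩ := mem_image.mp hT
    obtain ⟨S', hS', rfl⟩ := mem_image.mp hT'
    have hSS : S ≠ S' := fun e => hne (by rw [e])
    rw [Finset.disjoint_image hf]
    exact h.disj S hS S' hS' hSS

theorem card_map {f : W → V} (hf : Function.Injective f) (F : Finset (Finset W)) :
    #(F.image fun T => T.image f) = #F :=
  card_image_of_injective _ (Finset.image_injective hf)

theorem biUnion_map {f : W → V} (F : Finset (Finset W)) :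
    (F.image fun T => T.image f).biUnion id = (F.biUnion id).image f := by
  ext v
  simp only [mem_biUnion, mem_image, id]
  constructor
  · rintro ⟨_, ⟨T, hT, rfl⟩, hv⟩
    obtain ⟨x, hx, rfl⟩ := mem_image.mp hv
    exact ⟨x, ⟨T, hT, hx⟩, rfl⟩
  · rintro ⟨x, ⟨T, hT, hx⟩, rfl⟩
    exact ⟨T.image f, ⟨T, hT, rfl⟩, mem_image_of_mem _ hx⟩

/-- enumeration of a finset -/
theorem exists_enum (U : Finset V) (m : ℕ) (hU : #U = m) :
    ∃ f : Fin m → V, Function.Injective f ∧ univ.image f = U := by
  subst hU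
  refine ⟨fun i => (U.equivFin.symm i : V), fun i j h => ?_, ?_⟩
  · exact U.equivFin.symm.injective (Subtype.ext h)
  · ext v
    simp only [mem_image, mem_univ, true_and]
    constructor
    · rintro ⟨i, rfl⟩
      exact (U.equivFin.symm i).2
    · intro hv
      exact ⟨U.equivFin ⟨v, hv⟩, by simp⟩

theorem NEc_comap {G : SimpleGraph V} {f : W → V} (hf : Function.Injective f) [Fintype W]
    {U : Finset V} (hU : univ.image f = U) {γ M : ℝ} (h : NEc G U γ M) :
    NEc (G.comap f) univ γ M := by
  intro Z _ hZ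
  rw [hn_comap G hf]
  refine h _ ?_ ?_
  · rw [← hU]
    exact image_subset_image (subset_univ Z)
  · rw [card_image_of_injective _ hf]
    exact hZ

omit [DecidableEq V] in
theorem dg_mono (G : SimpleGraph V) (v : V) {A B : Finset V} (h : A ⊆ B) : dg G v A ≤ dg G v B :=
  card_le_card (filter_subset_filter _ h)

end

end Pool.Agent.Helper69.NE
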