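import Pool.Agent.Helper69.NE.Sort
import Pool.Agent.Helper69.NE.Clean
import Pool.Agent.Helper69.NE.Match
import Pool.Agent.Helper69.NE.Tr

/-!
# Project BECX P3, NE: almost perfect tilings
-/

set_option autoImplicit false

open Classical Finset

namespace Pool.Agent.Helper69.NE

noncomputable section

/-- bounded balanced distribution on the tuples -/
theorem frac (s : ℕ) (hs : 3 ≤ s) (γ : ℝ) (hγ : 0 < γ) :
    ∃ ε : ℝ, 0 < ε ∧ ∃ C : ℝ, 0 < C ∧ ∃ M0 : ℕ, ∀ M : ℕ, M0 ≤ M →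
      ∀ G : SimpleGraph (Fin (s * M)), (∀ v, (dg G v univ : ℝ) ≤ (1 + ε) * M) →
      NEc G univ γ M → ∃ π : (Fin s → Fin (s * M)) → ℝ, Dst G s (C / (M : ℝ) ^ s) π ∧
        ∀ v, ∑ u, π u * cnt u {v} = 1 / (M : ℝ) := by
  have hs' : (3 : ℝ) ≤ s := by exact_mod_cast hs
  set γ' : ℝ := min γ (1 / (4 * s)) with hγ'
  have hγ'0 : 0 < γ' := lt_min hγ (by positivity)
  have hγ'1 : γ' ≤ γ := min_le_left _ _
  have hγ'2 : γ' * (4 * s) ≤ 1 := by
    have h : γ' ≤ 1 / (4 * s) := min_le_right _ _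
    rwa [le_div_iff₀ (by positivity)] at h
  set δ : ℝ := γ' / 2 with hδ
  have hδ0 : 0 < δ := by positivity
  have hδs : δ * (8 * s) ≤ 1 := by rw [hδ]; linarith
  refine ⟨δ / (4 * s), by positivity, (4 / δ) ^ s + (4 / δ) ^ (s - 2) / γ', by positivity, ?_⟩
  refine ⟨⌈4 * s / δ⌉₊ + 1, ?_⟩
  intro M hM G hdeg hNE
  have hM' : 4 * s / δ ≤ M := by
    refine (Nat.le_ceil _).trans ?_
    exact_mod_cast (by omega : ⌈4 * (s : ℝ) / δ⌉₊ ≤ M)
  have hMδ : 4 * s ≤ δ * M := by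
    rw [div_le_iff₀ hδ0] at hM'
    linarith
  have hM1 : 1 ≤ M := by omega
  have hM1' : (1 : ℝ) ≤ M := by exact_mod_cast hM1
  set ε : ℝ := δ / (4 * s) with hε
  have hε0 : 0 < ε := by positivity
  have hεs : ε * s = δ / 4 := by rw [hε]; field_simp
  set D : ℕ := ⌊(1 + ε) * M⌋₊ with hD
  have hDle : (D : ℝ) ≤ (1 + ε) * M := Nat.floor_le (by positivity)
  have hMD : M ≤ D := by
    apply Nat.le_floor
    nlinarith
  set k : ℕ := ⌊δ / 2 * M⌋₊ with hk
  have hkle : (k : ℝ) ≤ δ / 2 * M := Nat.floor_le (by positivity)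
  have hkge : δ / 4 * M ≤ k := by
    have h := Nat.lt_floor_add_one (δ / 2 * (M : ℝ))
    rw [← hk] at h
    linarith
  have hk1 : 1 ≤ k := by
    have : (0 : ℝ) < k := by
      refine lt_of_lt_of_le ?_ hkge
      positivity
    exact_mod_cast this
  set z : ℕ := ⌈(1 - γ') * M⌉₊ with hz
  have hγ'3 : γ' ≤ 1 / 12 := by nlinarith only [hγ'2, hs', hγ'0]
  have hzle : (z : ℝ) ≤ (1 - γ') * M + 1 := by
    refine (Nat.ceil_lt_add_one ?_).le
    nlinarith only [hs', hδ, hδ0, hγ'3, hM1', hγ'2]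
  set g : ℕ := ⌈γ' * (M : ℝ) ^ 2⌉₊ with hg
  have hgge : γ' * (M : ℝ) ^ 2 ≤ g := Nat.le_ceil _
  have hg1 : 1 ≤ g := by
    rw [hg, Nat.one_le_ceil_iff]
    positivity
  have hDM : (s - 1 : ℝ) * ((D : ℝ) + 1 - M) ≤ δ / 2 * M := by
    have h1 : (D : ℝ) + 1 - M ≤ ε * M + 1 := by linarith
    have h2 : (s - 1 : ℝ) * ((D : ℝ) + 1 - M) ≤ s * (ε * M + 1) := by
      have : (M : ℝ) ≤ D := by exact_mod_cast hMD
      nlinarith only [hδ, hδ0, hγ'3, this, hDle]
    have h3 : (s : ℝ) * (ε * M + 1) = δ / 4 * M + s := by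
      rw [← hεs]; ring
    rw [h3] at h2
    linarith
  have hB : 1 / (k : ℝ) ^ s + 1 / ((k : ℝ) ^ (s - 2) * g) ≤
      ((4 / δ) ^ s + (4 / δ) ^ (s - 2) / γ') / (M : ℝ) ^ s := by
    have hk0 : (0 : ℝ) < k := by exact_mod_cast hk1
    have hkk : 1 / (k : ℝ) ≤ 4 / δ / M := by
      rw [div_le_iff₀ hk0, div_mul_eq_mul_div, le_div_iff₀ (by positivity), div_mul_eq_mul_div,
        le_div_iff₀ hδ0]
      linarith
    have e1 : 1 / (k : ℝ) ^ s ≤ (4 / δ) ^ s / (M : ℝ) ^ s := by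
      rw [← one_div_pow, ← div_pow]
      exact pow_le_pow_left₀ (by positivity) hkk s
    have e2 : 1 / ((k : ℝ) ^ (s - 2) * g) ≤ (4 / δ) ^ (s - 2) / γ' / (M : ℝ) ^ s := by
      have a1 : 1 / (k : ℝ) ^ (s - 2) ≤ (4 / δ) ^ (s - 2) / (M : ℝ) ^ (s - 2) := by
        rw [← one_div_pow, ← div_pow]
        exact pow_le_pow_left₀ (by positivity) hkk _
      have a2 : 1 / (g : ℝ) ≤ 1 / (γ' * (M : ℝ) ^ 2) :=
        one_div_le_one_div_of_le (by positivity) hgge
      have a3 : (M : ℝ) ^ s = (M : ℝ) ^ (s - 2) * (M : ℝ) ^ 2 := by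
        rw [← pow_add]
        congr 1
        omega
      calc 1 / ((k : ℝ) ^ (s - 2) * g) = 1 / (k : ℝ) ^ (s - 2) * (1 / (g : ℝ)) := by
            rw [one_div_mul_one_div]
        _ ≤ (4 / δ) ^ (s - 2) / (M : ℝ) ^ (s - 2) * (1 / (γ' * (M : ℝ) ^ 2)) :=
            mul_le_mul a1 a2 (by positivity) (by positivity)
        _ = (4 / δ) ^ (s - 2) / γ' / (M : ℝ) ^ s := by
            rw [a3]
            field_simp
    rw [add_div]
    exact add_le_add e1 e2
  have key := frac_exists (s * M) s G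
    (1 / (k : ℝ) ^ s + 1 / ((k : ℝ) ^ (s - 2) * g)) (1 / (M : ℝ)) (by
      push_cast
      field_simp) (by
      intro σ
      obtain ⟨π, hπ, hr⟩ := dist_exists s M D k z g δ (by omega) hM1 (by omega) hδ0
        (by nlinarith only [hδ0, hδs]) (by nlinarith only [hδ, hγ'3])
        (by linarith)
        (by
          have : δ * M ≥ 4 * s := hMδ
          have h2 : γ' = 2 * δ := by rw [hδ]; ring
          rw [h2] at hzle
          nlinarith only [hs', hδ, hδ0, hMδ, hγ'3, hzle, hDM])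
        (by
          have h1 : ((s : ℝ) - 1) * δ ≤ 1 / 8 := by nlinarith only [hδ0, hδs]
          have h2 : (k : ℝ) ≤ 1 / 2 * M := by nlinarith only [hs', hδ, hδ0, hMδ, hkle, hγ'3, hzle]
          nlinarith only [hs', hδ, hδ0, hMδ, hkle, hγ'3, hzle, hδs])
        hk1 hg1 (G.comap σ) (by
          intro v
          rw [dg_comap G σ.injective]
          have h1 := hdeg (σ v)
          have h2 : dg G (σ v) (univ.image σ) ≤ dg G (σ v) univ := dg_mono G _ (subset_univ _)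
          refine h2.trans ?_
          exact Nat.le_floor h1) (by
          intro Z hZ
          rw [hn_comap G σ.injective]
          have h1 : (1 - γ) * (M : ℝ) ≤ #(Z.image σ) := by
            rw [card_image_of_injective _ σ.injective]
            have h2 : (z : ℝ) ≤ #Z := by exact_mod_cast hZ
            have h3 : (1 - γ') * (M : ℝ) ≤ z := Nat.le_ceil _
            nlinarith only [h2, h3, hγ'1]
          have h2 := hNE _ (subset_univ _) h1
          rw [hg, Nat.ceil_le]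
          refine le_trans ?_ h2
          nlinarith only [hγ'1, sq_nonneg (M : ℝ)])
      refine ⟨π, hπ, fun r hr' => ?_⟩
      rw [mul_one_div]
      exact hr r hr')
  obtain ⟨π, hπ, hm⟩ := key
  exact ⟨π, ⟨hπ.nn, fun u => (hπ.le u).trans hB, hπ.sup, hπ.sum⟩, hm⟩

end

end Pool.Agent.Helper69.NE
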