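import Pool.Agent.Helper69.NE.AP

/-!
# Project BECX P3, NE: almost perfect tilings, conclusion
-/

set_option autoImplicit false

open Classical Finset

namespace Pool.Agent.Helper69.NE

noncomputable section

theorem ap_num {x h t M c s : ℝ} (hx0 : 0 < x) (hs : 3 ≤ s) (hh : 4 ≤ h * x)
    (ht : s ≤ t * x) (ht0 : 0 < t) (hh0 : 4 ≤ h) (hM : 1 ≤ M) (hc : c ≤ M) :
    (1 + x / 4) * ((h + 1) * t) * ((1 - x) * M) ≤ h * t * M - (c + h * M * s / 4) := by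
  have e1 : (1 + x / 4) * (1 - x) ≤ 1 - 3 * x / 4 := by nlinarith [sq_nonneg x]
  have htM : 0 < t * M := by positivity
  have e2 : (1 + x / 4) * ((h + 1) * t) * ((1 - x) * M) ≤ (1 - 3 * x / 4) * ((h + 1) * (t * M)) := by
    calc (1 + x / 4) * ((h + 1) * t) * ((1 - x) * M)
        = (1 + x / 4) * (1 - x) * ((h + 1) * (t * M)) := by ring
      _ ≤ _ := mul_le_mul_of_nonneg_right e1 (by positivity)
  have e3 : t * M ≤ x / 4 * ((h + 1) * (t * M)) := by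
    have : 1 ≤ x / 4 * (h + 1) := by nlinarith
    nlinarith
  have e4 : s * M * (h + 1) ≤ x * ((h + 1) * (t * M)) := by
    have h1 : s * M ≤ t * x * M := mul_le_mul_of_nonneg_right ht (by linarith)
    nlinarith
  have e5 : M ≤ s * M * (h + 1) / 4 := by
    have h1 : 3 * M ≤ s * M := mul_le_mul_of_nonneg_right hs (by linarith)
    nlinarith only [hh0, hM, h1]
  nlinarith only [hs, hc, htM, e3, e4, e5, hx0, hM]

/-- almost perfect tilings; `ε` depends only on `s` and `γ` -/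
theorem ap_fin (s : ℕ) (hs : 3 ≤ s) (γ : ℝ) (hγ : 0 < γ) :
    ∃ ε : ℝ, 0 < ε ∧ ∀ κ : ℝ, 0 < κ → ∃ M0 : ℕ, ∀ M : ℕ, M0 ≤ M →
      ∀ G : SimpleGraph (Fin (s * M)), (∀ v, (dg G v univ : ℝ) ≤ (1 + ε) * M) →
      NEc G univ γ M → ∃ F, Til G s F ∧ (1 - κ) * M ≤ #F := by
  have hs' : (3 : ℝ) ≤ s := by exact_mod_cast hs
  obtain ⟨ε, hε, C, hC, M1, hM1⟩ := frac s hs γ hγ
  refine ⟨ε, hε, ?_⟩
  intro κ hκ
  set x : ℝ := min κ 1 with hx
  have hx0 : 0 < x := lt_min hκ one_pos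
  have hx1 : x ≤ 1 := min_le_right _ _
  have hxκ : x ≤ κ := min_le_left _ _
  obtain ⟨D0, hD0⟩ := matching_of_linear s (by omega) (x / 4) (by positivity) (by linarith)
  set t : ℕ := max D0 ⌈(s : ℝ) / x⌉₊ + 1 with ht
  set h : ℕ := ⌈4 / x⌉₊ with hh
  have hhx : 4 ≤ (h : ℝ) * x := by
    have h1 : 4 / x ≤ h := Nat.le_ceil _
    rwa [div_le_iff₀ hx0] at h1
  have hh4 : (4 : ℝ) ≤ h := by nlinarith
  have htx : (s : ℝ) ≤ t * x := by
    have h1 : (s : ℝ) / x ≤ ⌈(s : ℝ) / x⌉₊ := Nat.le_ceil _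
    have h2 : (⌈(s : ℝ) / x⌉₊ : ℝ) ≤ t := by
      have : ⌈(s : ℝ) / x⌉₊ ≤ t := by omega
      exact_mod_cast this
    have h3 := h1.trans h2
    rwa [div_le_iff₀ hx0] at h3
  have ht0 : (0 : ℝ) < t := by
    have : 0 < t := by omega
    exact_mod_cast this
  set c : ℝ := ((h * t : ℕ) : ℝ) ^ 2 * s ^ 4 * s ^ (s - 2) * C with hc
  have hc0 : 0 ≤ c := by positivity
  refine ⟨max M1 (⌈c⌉₊ + 1), ?_⟩
  intro M hM G hdeg hNE
  have hMM1 : M1 ≤ M := (le_max_left _ _).trans hM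
  have hMc' : ⌈c⌉₊ + 1 ≤ M := (le_max_right _ _).trans hM
  have hM0 : 1 ≤ M := by omega
  have hM0' : (1 : ℝ) ≤ M := by exact_mod_cast hM0
  have hMc : c ≤ M := by
    refine (Nat.le_ceil c).trans ?_
    exact_mod_cast (by omega : ⌈c⌉₊ ≤ M)
  obtain ⟨π, hπ, hm⟩ := hM1 M hMM1 G hdeg hNE
  have hsM : 1 ≤ s * M := Nat.mul_pos (by omega) (by omega)
  have hTn : (((h * t * M : ℕ) : ℝ) * s / ((s * M : ℕ) : ℝ)) = h * t := by
    push_cast
    field_simp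
  have hDT : ((h * t * M : ℕ) : ℝ) * s / ((s * M : ℕ) : ℝ) < (((h + 1) * t : ℕ) : ℝ) := by
    rw [hTn]
    push_cast
    nlinarith only [ht0]
  obtain ⟨ω, hω, hb⟩ := samp G (s * M) s (h * t * M) (by rw [Fintype.card_fin]) hsM (by omega)
    (C / (M : ℝ) ^ s) (((h + 1) * t : ℕ) : ℝ) (by positivity) π hπ (by
      intro v
      rw [hm v]
      push_cast
      field_simp) hDT
  obtain ⟨H, hH1, hH2, hH3, hH4, hH5⟩ := clean G s (h * t * M) ((h + 1) * t) (by omega) ω hω _ hb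
  obtain ⟨F, hFH, hF1, hF2⟩ := hD0 ((h + 1) * t) (by
    have h1 : D0 ≤ t := by omega
    nlinarith only [h1]) (Fin (s * M)) H hH1 (by
      intro e he f hf hef
      convert hH3 e he f hf hef) (by
      intro v
      convert hH4 v)
  refine ⟨F, ⟨fun T hT => hH1 T (hFH hT), fun T hT => hH2 T (hFH hT), fun T hT T' hT' hne =>
    hF1 T hT T' hT' hne⟩, ?_⟩
  have hbval : ((h * t * M : ℕ) : ℝ) ^ 2 *
        ((s : ℝ) ^ 4 * ((s * M : ℕ) : ℝ) ^ (s - 2) * (C / (M : ℝ) ^ s)) +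
      ((h * t * M : ℕ) : ℝ) * s /
        (4 * ((((h + 1) * t : ℕ) : ℝ) - ((h * t * M : ℕ) : ℝ) * s / ((s * M : ℕ) : ℝ))) =
      c + h * M * s / 4 := by
    rw [hTn]
    congr 1
    · rw [hc]
      have a3 : (M : ℝ) ^ s = (M : ℝ) ^ (s - 2) * (M : ℝ) ^ 2 := by
        rw [← pow_add]
        congr 1
        omega
      push_cast
      rw [a3, mul_pow (s : ℝ) (M : ℝ) (s - 2)]
      field_simp
    · push_cast
      have : ((h : ℝ) + 1) * t - h * t = t := by ring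
      rw [this]
      field_simp
  rw [hbval] at hH5
  have hnum := ap_num hx0 hs' hhx htx ht0 hh4 hM0' hMc
  push_cast at hH5 hF2
  have hfin : (1 + x / 4) * ((h + 1) * t) * ((1 - x) * M) ≤
      (1 + x / 4) * (((h : ℝ) + 1) * t) * #F := by linarith only [hnum, hH5, hF2]
  have hpos : 0 < (1 + x / 4) * (((h : ℝ) + 1) * t) := by positivity
  have h3 := le_of_mul_le_mul_left hfin hpos
  nlinarith only [h3, hxκ]

/-- almost perfect tilings of a finset -/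
theorem ap_set (s : ℕ) (hs : 3 ≤ s) (γ : ℝ) (hγ : 0 < γ) :
    ∃ ε : ℝ, 0 < ε ∧ ∀ κ : ℝ, 0 < κ → ∃ M0 : ℕ, ∀ M : ℕ, M0 ≤ M →
      ∀ (V : Type) (G : SimpleGraph V) (U : Finset V), #U = s * M →
      (∀ v ∈ U, (dg G v U : ℝ) ≤ (1 + ε) * M) → NEc G U γ M →
      ∃ F, Til G s F ∧ F.biUnion id ⊆ U ∧ (1 - κ) * M ≤ #F := by
  obtain ⟨ε, hε, h⟩ := ap_fin s hs γ hγ
  refine ⟨ε, hε, fun κ hκ => ?_⟩
  obtain ⟨M0, hM0⟩ := h κ hκ
  refine ⟨M0, ?_⟩
  intro M hM V G U hU hdeg hNE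
  obtain ⟨f, hf, hfU⟩ := exists_enum U (s * M) hU
  obtain ⟨F, hF, hFc⟩ := hM0 M hM (G.comap f) (by
    intro v
    rw [dg_comap G hf, hfU]
    refine hdeg _ ?_
    rw [← hfU]
    exact mem_image_of_mem _ (mem_univ v)) (NEc_comap hf hfU hNE)
  refine ⟨F.image fun T => T.image f, Til.map hf hF, ?_, ?_⟩
  · rw [biUnion_map, ← hfU]
    exact image_subset_image (subset_univ _)
  · rw [card_map hf]
    exact hFc

end

end Pool.Agent.Helper69.NE
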