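import Pool.Agent.Helper69.NE.Defs

/-!
# Project BECX P3, NE: absorbers
-/

set_option autoImplicit false

open Classical Finset

namespace Pool.Agent.Helper69.NE

noncomputable section

variable {V : Type}

/-- an array: column `0` and, for every row, the other `s - 1` entries -/
abbrev Arr (V : Type) (s : ℕ) : Type := (Fin s → V) × (Fin s → Fin (s - 1) → V)

/-- `a` absorbs the tuple `x` -/
structure Abb (G : SimpleGraph V) (s : ℕ) (x : Fin s → V) (a : Arr V s) : Prop where
  col : Clq G a.1
  row : ∀ i, Clq G (a.2 i)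
  rz : ∀ i j, a.1 i ≠ a.2 i j ∧ ¬ G.Adj (a.1 i) (a.2 i j)
  rx : ∀ i j, x i ≠ a.2 i j ∧ ¬ G.Adj (x i) (a.2 i j)

/-- row `i` without its first entry -/
def rw' {s : ℕ} (a : Arr V s) (i : Fin s) : Finset V := univ.image (a.2 i)

/-- the vertices of an array -/
def Wa {s : ℕ} (a : Arr V s) : Finset V := univ.image a.1 ∪ univ.biUnion fun i => rw' a i

end

end Pool.Agent.Helper69.NE
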