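import Mathlib

/-!
# Project BECX P3, NE, piece Bal: separation
-/

set_option autoImplicit false

open Classical Finset

namespace Pool.Agent.Helper69.NE

/-- The set of the vectors `v ↦ ∑ u, π u * c u v` (`π` as in the conclusion) is the linear image of a compact convex set. If `t` is not
in it, separate (`geometric_hahn_banach_compact_closed` or `geometric_hahn_banach_point_closed`); a continuous linear functional on
`V → ℝ` is `x ↦ ∑ v, y v * x v`. -/
theorem exists_balanced {Ω V : Type} [Fintype Ω] [Fintype V] (B : ℝ) (S : Finset Ω)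
    (c : Ω → V → ℝ) (t : V → ℝ)
    (h : ∀ y : V → ℝ, ∃ π : Ω → ℝ, (∀ u, 0 ≤ π u) ∧ (∀ u, π u ≤ B) ∧ (∀ u, u ∉ S → π u = 0) ∧
      ∑ u, π u = 1 ∧ ∑ v, y v * t v ≤ ∑ v, y v * ∑ u, π u * c u v) :
    ∃ π : Ω → ℝ, (∀ u, 0 ≤ π u) ∧ (∀ u, π u ≤ B) ∧ (∀ u, u ∉ S → π u = 0) ∧
      ∑ u, π u = 1 ∧ ∀ v, ∑ u, π u * c u v = t v := by
  set P : Set (Ω → ℝ) := {π | (∀ u, 0 ≤ π u) ∧ (∀ u, π u ≤ B) ∧ (∀ u, u ∉ S → π u = 0) ∧
      ∑ u, π u = 1} with hP
  let L : (Ω → ℝ) →ₗ[ℝ] (V → ℝ) :=
    { toFun := fun π v => ∑ u, π u * c u v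
      map_add' := by
        intro a b
        funext v
        simp only [Pi.add_apply, add_mul, sum_add_distrib]
      map_smul' := by
        intro r a
        funext v
        simp only [Pi.smul_apply, smul_eq_mul, mul_assoc, RingHom.id_apply, mul_sum] }
  have hL : Continuous L := L.continuous_of_finiteDimensional
  have hPclosed : IsClosed P := by
    have e : P = (⋂ u, {π : Ω → ℝ | 0 ≤ π u}) ∩ ((⋂ u, {π : Ω → ℝ | π u ≤ B}) ∩
        ((⋂ u, {π : Ω → ℝ | u ∉ S → π u = 0}) ∩ {π : Ω → ℝ | ∑ u, π u = 1})) := by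
      ext π
      simp only [hP, Set.mem_setOf_eq, Set.mem_inter_iff, Set.mem_iInter]
    rw [e]
    refine IsClosed.inter ?_ (IsClosed.inter ?_ (IsClosed.inter ?_ ?_))
    · exact isClosed_iInter fun u => isClosed_le continuous_const (continuous_apply u)
    · exact isClosed_iInter fun u => isClosed_le (continuous_apply u) continuous_const
    · refine isClosed_iInter fun u => ?_
      by_cases hu : u ∈ S
      · have : {π : Ω → ℝ | u ∉ S → π u = 0} = Set.univ := by
          ext π
          simp [hu]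
        rw [this]
        exact isClosed_univ
      · have : {π : Ω → ℝ | u ∉ S → π u = 0} = {π : Ω → ℝ | π u = 0} := by
          ext π
          simp [hu]
        rw [this]
        exact isClosed_eq (continuous_apply u) continuous_const
    · exact isClosed_eq (continuous_finsetSum _ fun u _ => continuous_apply u) continuous_const
  have hPcomp : IsCompact P := by
    refine IsCompact.of_isClosed_subset
      (isCompact_univ_pi (s := fun _ : Ω => Set.Icc (0 : ℝ) B) fun _ => isCompact_Icc)
      hPclosed ?_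
    intro π hπ
    rw [Set.mem_univ_pi]
    intro u
    exact ⟨hπ.1 u, hπ.2.1 u⟩
  have hPconv : Convex ℝ P := by
    intro π hπ ρ hρ a b ha hb hab
    refine ⟨fun u => ?_, fun u => ?_, fun u hu => ?_, ?_⟩
    · have h1 := hπ.1 u
      have h2 := hρ.1 u
      simp only [Pi.add_apply, Pi.smul_apply, smul_eq_mul]
      positivity
    · have h1 := hπ.2.1 u
      have h2 := hρ.2.1 u
      simp only [Pi.add_apply, Pi.smul_apply, smul_eq_mul]
      calc a * π u + b * ρ u ≤ a * B + b * B :=
            add_le_add (mul_le_mul_of_nonneg_left h1 ha) (mul_le_mul_of_nonneg_left h2 hb)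
        _ = B := by rw [← add_mul, hab, one_mul]
    · simp only [Pi.add_apply, Pi.smul_apply, smul_eq_mul]
      rw [hπ.2.2.1 u hu, hρ.2.2.1 u hu]
      ring
    · simp only [Pi.add_apply, Pi.smul_apply, smul_eq_mul]
      rw [sum_add_distrib, ← mul_sum, ← mul_sum, hπ.2.2.2, hρ.2.2.2]
      linarith
  have hKcomp : IsCompact (L '' P) := hPcomp.image hL
  have hKconv : Convex ℝ (L '' P) := hPconv.linear_image L
  by_cases ht : t ∈ L '' P
  · obtain ⟨π, hπ, hπt⟩ := ht
    refine ⟨π, hπ.1, hπ.2.1, hπ.2.2.1, hπ.2.2.2, fun v => ?_⟩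
    exact congrFun hπt v
  · exfalso
    obtain ⟨f, r, h1, h2⟩ := geometric_hahn_banach_closed_point hKconv hKcomp.isClosed ht
    have hf : ∀ x : V → ℝ, f x = ∑ v, f (fun j => if v = j then 1 else 0) * x v := by
      intro x
      have := LinearMap.pi_apply_eq_sum_univ (f : (V → ℝ) →ₗ[ℝ] ℝ) x
      simp only [smul_eq_mul] at this
      have h3 : (f : (V → ℝ) →ₗ[ℝ] ℝ) x = f x := rfl
      rw [h3] at this
      rw [this]
      apply sum_congr rfl
      intro v _
      rw [mul_comm]
      rfl
    obtain ⟨π, h3, h4, h5, h6, h7⟩ := h fun v => f (fun j => if v = j then 1 else 0)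
    have h8 : f (L π) < r := h1 _ ⟨π, ⟨h3, h4, h5, h6⟩, rfl⟩
    have h9 : f (L π) = ∑ v, f (fun j => if v = j then 1 else 0) * ∑ u, π u * c u v := hf (L π)
    have h10 : f t = ∑ v, f (fun j => if v = j then 1 else 0) * t v := hf t
    linarith

end Pool.Agent.Helper69.NE
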