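import Mathlib

/-!
# Project BECX part P3, Theorem NE: definitions

`G` is a graph with small degrees; a tile is a set of `s` vertices without edges of `G`.
-/

set_option autoImplicit false

open Classical Finset

namespace Pool.Agent.Helper69.NE

noncomputable section

variable {V : Type}

/-- number of neighbours of `v` in `A` -/
def dg (G : SimpleGraph V) (v : V) (A : Finset V) : ℕ := #(A.filter fun w => G.Adj v w)

/-- number of ordered pairs of distinct non adjacent elements of `Z` -/
def hn (G : SimpleGraph V) (Z : Finset V) : ℕ :=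
  #((Z ×ˢ Z).filter fun p => p.1 ≠ p.2 ∧ ¬ G.Adj p.1 p.2)

/-- no edge inside `T` -/
def Ind (G : SimpleGraph V) (T : Finset V) : Prop := ∀ a ∈ T, ∀ b ∈ T, ¬ G.Adj a b

/-- `F` is a family of pairwise disjoint independent `s`-sets -/
structure Til (G : SimpleGraph V) (s : ℕ) (F : Finset (Finset V)) : Prop where
  card : ∀ T ∈ F, #T = s
  ind : ∀ T ∈ F, Ind G T
  disj : ∀ T ∈ F, ∀ T' ∈ F, T ≠ T' → Disjoint T T'

/-- `u` is a tuple of distinct, pairwise non adjacent vertices -/
def Clq {ι : Type} (G : SimpleGraph V) (u : ι → V) : Prop :=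
  ∀ i j, i ≠ j → u i ≠ u j ∧ ¬ G.Adj (u i) (u j)

/-- the vertices that are different from and not adjacent to the vertices of `P` -/
def NN [Fintype V] (G : SimpleGraph V) (P : Finset V) : Finset V :=
  univ.filter fun v => ∀ p ∈ P, p ≠ v ∧ ¬ G.Adj p v

/-- number of entries of a tuple in `I` -/
def cnt {s : ℕ} (u : Fin s → V) (I : Finset V) : ℕ := #(univ.filter fun j => u j ∈ I)

/-- tuples of length `q` of distinct non adjacent vertices, entry `j` in `J j` -/
def Fs [Fintype V] (G : SimpleGraph V) (J : ℕ → Finset V) (q : ℕ) : Finset (Fin q → V) :=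
  univ.filter fun u => Clq G u ∧ ∀ j : Fin q, u j ∈ J j

/-- distribution on the tuples of `s` distinct non adjacent vertices, weights at most `B` -/
structure Dst [Fintype V] (G : SimpleGraph V) (s : ℕ) (B : ℝ) (π : (Fin s → V) → ℝ) : Prop where
  nn : ∀ u, 0 ≤ π u
  le : ∀ u, π u ≤ B
  sup : ∀ u, ¬ Clq G u → π u = 0
  sum : ∑ u, π u = 1

/-- every large set has many non adjacent pairs -/
def NEc (G : SimpleGraph V) (U : Finset V) (γ M : ℝ) : Prop :=
  ∀ Z ⊆ U, (1 - γ) * M ≤ #Z → γ * M ^ 2 ≤ hn G Z

end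

end Pool.Agent.Helper69.NE
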