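import Mathlib

/-!
# Project BECX P3, NE, piece Num: the numerical inequality behind the ordered distribution
-/

set_option autoImplicit false

open Classical Finset

namespace Pool.Agent.Helper69.NE

/-- Monotonicity and rearrangement: replace the indicators by smaller ones and collect terms. -/
theorem num_aux (s A : ℕ) (hs : 2 ≤ s) (hA : A ≤ s) (δ : ℝ) (hδ : 0 ≤ δ) (hδ1 : ((s : ℝ) - 1) * δ ≤ 1)
    (B Z ζ : ℕ → ℝ) (hB : ∀ j < s, (if j < A then (1 : ℝ) else 0) ≤ B j) (hZ : ∀ a < s - 1, ζ a ≤ Z a)
    (c : ℝ) (hc : c ≤ ∑ a ∈ range (s - 1),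
      (2 * ζ a - (if a < A then (1 : ℝ) else 0) - (if a + 1 < A then (1 : ℝ) else 0))) :
    (A : ℝ) + δ * c ≤ (1 - ((s : ℝ) - 1) * δ) * (∑ j ∈ range s, B j) +
      δ * ∑ a ∈ range (s - 1), ((∑ j ∈ (range s).filter (fun j => j ≠ a ∧ j ≠ a + 1), B j) + 2 * Z a) := by
  set β : ℕ → ℝ := fun j => if j < A then (1 : ℝ) else 0 with hβ
  have hsumβ : ∑ j ∈ range s, β j = A := by
    rw [hβ]
    simp only [Finset.sum_boole]
    congr 1
    rw [show (range s).filter (fun j => j < A) = range A by ext j; simp; omega]
    simp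
  have hfil : ∀ (f : ℕ → ℝ), ∀ a ∈ range (s - 1),
      ∑ j ∈ (range s).filter (fun j => j ≠ a ∧ j ≠ a + 1), f j = ∑ j ∈ range s, f j - f a - f (a + 1) := by
    intro f a ha
    have ha' : a < s - 1 := by simpa using ha
    have h1 : range s = insert a (insert (a + 1) ((range s).filter (fun j => j ≠ a ∧ j ≠ a + 1))) := by
      ext j
      simp only [mem_insert, mem_filter, mem_range]
      constructor
      · intro h
        by_cases h1 : j = a
        · exact Or.inl h1
        · by_cases h2 : j = a + 1
          · exact Or.inr (Or.inl h2)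
          · exact Or.inr (Or.inr ⟨h, h1, h2⟩)
      · rintro (h | h | h)
        · omega
        · omega
        · exact h.1
    have h2 : ∑ j ∈ range s, f j = f a + (f (a + 1) + ∑ j ∈ (range s).filter (fun j => j ≠ a ∧ j ≠ a + 1), f j) := by
      conv_lhs => rw [h1]
      rw [Finset.sum_insert, Finset.sum_insert]
      · simp
      · simp
    rw [h2]; ring
  have hm1 : ∑ j ∈ range s, β j ≤ ∑ j ∈ range s, B j := Finset.sum_le_sum (fun j hj => hB j (by simpa using hj))
  have hm2 : ∑ a ∈ range (s - 1), ((∑ j ∈ (range s).filter (fun j => j ≠ a ∧ j ≠ a + 1), β j) + 2 * ζ a) ≤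
      ∑ a ∈ range (s - 1), ((∑ j ∈ (range s).filter (fun j => j ≠ a ∧ j ≠ a + 1), B j) + 2 * Z a) := by
    apply Finset.sum_le_sum
    intro a ha
    have h1 : ∑ j ∈ (range s).filter (fun j => j ≠ a ∧ j ≠ a + 1), β j ≤
        ∑ j ∈ (range s).filter (fun j => j ≠ a ∧ j ≠ a + 1), B j := by
      apply Finset.sum_le_sum
      intro j hj
      exact hB j (by simpa using (Finset.mem_filter.1 hj).1)
    have h2 := hZ a (by simpa using ha)
    linarith
  have he : ∑ a ∈ range (s - 1), ((∑ j ∈ (range s).filter (fun j => j ≠ a ∧ j ≠ a + 1), β j) + 2 * ζ a) =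
      ((s : ℝ) - 1) * A + ∑ a ∈ range (s - 1), (2 * ζ a - β a - β (a + 1)) := by
    have h1 : ∀ a ∈ range (s - 1), ((∑ j ∈ (range s).filter (fun j => j ≠ a ∧ j ≠ a + 1), β j) + 2 * ζ a) =
        (A : ℝ) + (2 * ζ a - β a - β (a + 1)) := by
      intro a ha
      rw [hfil β a ha, hsumβ]; ring
    rw [Finset.sum_congr rfl h1, Finset.sum_add_distrib]
    simp only [Finset.sum_const, card_range, nsmul_eq_mul]
    rw [Nat.cast_sub (by omega : 1 ≤ s)]
    simp
  have hW : 0 ≤ 1 - ((s : ℝ) - 1) * δ := by linarith
  have h3 := mul_le_mul_of_nonneg_left hm1 hW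
  have h4 := mul_le_mul_of_nonneg_left hm2 hδ
  rw [hsumβ] at h3
  rw [he] at h4
  have h5 := mul_le_mul_of_nonneg_left hc hδ
  have h6 : δ * (((s : ℝ) - 1) * A + ∑ a ∈ range (s - 1), (2 * ζ a - β a - β (a + 1))) =
      ((s : ℝ) - 1) * δ * A + δ * ∑ a ∈ range (s - 1), (2 * ζ a - β a - β (a + 1)) := by ring
  rw [h6] at h4
  have h7 : δ * c ≤ δ * ∑ a ∈ range (s - 1), (2 * ζ a - β a - β (a + 1)) := h5
  nlinarith [h3, h4, h7]

/-- Let `r / M = j0 + τ` (`j0 = r / M`, `0 ≤ τ < 1`), `b j = j (D+1) + k ≤ (j + δ) M`, `Q a = a (D+1) + z ≤ (a + 1 - δ) M`.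
The right side is monotone in the indicators; put `A = j0 + 1` if `τ > δ` or `j0 = 0`, else `A = j0`. Replace `[b j ≤ r]` by
`[j < A]` and `[Q a ≤ r]` by `[a < j0 ∨ (a = j0 ∧ τ ≥ 1 - δ)]`. For `j0 = s` (`r = s M`) the right side is `s`. Otherwise it is
`A + δ * e`, `e = ∑_{a < s-1} (2 [Q a ≤ r] - [a < A] - [a+1 < A])`: if `A = j0` then `e = 1` (the term `a = j0 - 1`); if `A = j0 + 1`
then only `a = j0` (if `j0 ≤ s - 2`) contributes: `e = 2 [Q j0 ≤ r] - 1`. -/
theorem num_ineq (s M D k z r : ℕ) (δ : ℝ) (hs : 2 ≤ s) (hM : 1 ≤ M) (hD : M ≤ D + 1) (hδ : 0 < δ)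
    (hδ1 : ((s : ℝ) - 1) * δ ≤ 1)
    (h1 : ((s : ℝ) - 1) * ((D : ℝ) + 1 - M) + k ≤ δ * M)
    (h2 : ((s : ℝ) - 1) * ((D : ℝ) + 1 - M) + z ≤ (1 - δ) * M) (hk : k ≤ r) (hr : r ≤ s * M) :
    (r : ℝ) / M ≤ (1 - ((s : ℝ) - 1) * δ) *
        (∑ j ∈ range s, if j * (D + 1) + k ≤ r then (1 : ℝ) else 0) +
      δ * ∑ a ∈ range (s - 1),
        ((∑ j ∈ (range s).filter (fun j => j ≠ a ∧ j ≠ a + 1),
            if j * (D + 1) + k ≤ r then (1 : ℝ) else 0) +
          2 * if a * (D + 1) + z ≤ r then (1 : ℝ) else 0) := by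
  have hMp : (0 : ℝ) < M := by exact_mod_cast hM
  have hs' : (2 : ℝ) ≤ s := by exact_mod_cast hs
  have hDr : (0 : ℝ) ≤ (D : ℝ) + 1 - M := by
    have : (M : ℝ) ≤ D + 1 := by exact_mod_cast hD
    linarith
  have hδle : δ ≤ 1 := by nlinarith
  obtain ⟨q, hq⟩ : ∃ q, q = r / M := ⟨_, rfl⟩
  obtain ⟨t, ht⟩ : ∃ t, t = r % M := ⟨_, rfl⟩
  have hrt : (r : ℝ) = q * M + t := by
    have h := Nat.div_add_mod r M
    rw [← hq, ← ht] at h
    have h' : ((M * q + t : ℕ) : ℝ) = (r : ℝ) := by rw [h]
    push_cast at h'
    linarith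
  have htM : (t : ℝ) < M := by
    have : t < M := by rw [ht]; exact Nat.mod_lt _ hM
    exact_mod_cast this
  have ht0 : (0 : ℝ) ≤ t := Nat.cast_nonneg t
  have hqs : q ≤ s := by
    rw [hq]
    exact Nat.div_le_of_le_mul (by rw [mul_comm]; exact hr)
  -- bounds for b and Q
  have hb : ∀ j : ℕ, j < s → ((j : ℝ) + δ) * M ≤ r → j * (D + 1) + k ≤ r := by
    intro j hj h
    have hj' : (j : ℝ) ≤ (s : ℝ) - 1 := by
      have : ((j + 1 : ℕ) : ℝ) ≤ s := by exact_mod_cast hj
      push_cast at this; linarith
    have h3 : ((j : ℝ)) * ((D : ℝ) + 1 - M) ≤ ((s : ℝ) - 1) * ((D : ℝ) + 1 - M) :=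
      mul_le_mul_of_nonneg_right hj' hDr
    have h4 : ((j * (D + 1) + k : ℕ) : ℝ) ≤ r := by
      push_cast
      nlinarith
    exact_mod_cast h4
  have hQ : ∀ a : ℕ, a < s → ((a : ℝ) + 1 - δ) * M ≤ r → a * (D + 1) + z ≤ r := by
    intro j hj h
    have hj' : (j : ℝ) ≤ (s : ℝ) - 1 := by
      have : ((j + 1 : ℕ) : ℝ) ≤ s := by exact_mod_cast hj
      push_cast at this; linarith
    have h3 : ((j : ℝ)) * ((D : ℝ) + 1 - M) ≤ ((s : ℝ) - 1) * ((D : ℝ) + 1 - M) :=
      mul_le_mul_of_nonneg_right hj' hDr
    have h4 : ((j * (D + 1) + z : ℕ) : ℝ) ≤ r := by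
      push_cast
      nlinarith
    exact_mod_cast h4
  have hlow : ∀ j : ℕ, j < q → ((j : ℝ) + 1) * M ≤ r := by
    intro j hj
    have hj' : (j : ℝ) + 1 ≤ q := by exact_mod_cast hj
    rw [hrt]
    nlinarith
  have hQlow : ∀ a < s - 1, a < q → (1 : ℝ) ≤ if a * (D + 1) + z ≤ r then (1 : ℝ) else 0 := by
    intro a ha haq
    have : a * (D + 1) + z ≤ r := hQ a (by omega) (by
      have := hlow a haq
      nlinarith)
    rw [if_pos this]
  have hblow : ∀ j < s, j < q → (1 : ℝ) ≤ if j * (D + 1) + k ≤ r then (1 : ℝ) else 0 := by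
    intro a ha haq
    have : a * (D + 1) + k ≤ r := hb a ha (by
      have := hlow a haq
      nlinarith)
    rw [if_pos this]
  have hite : ∀ p : Prop, [Decidable p] → (0 : ℝ) ≤ if p then (1 : ℝ) else 0 := by
    intro p _
    split_ifs <;> norm_num
  have hLHS : (r : ℝ) / M = q + t / M := by
    rw [hrt]; field_simp
  by_cases hqs' : q = s
  · -- r = s M
    have hr2 : (r : ℝ) / M ≤ s := by
      rw [div_le_iff₀ hMp]
      exact_mod_cast hr
    have := num_aux s s hs le_rfl δ hδ.le hδ1 (fun j => if j * (D + 1) + k ≤ r then (1 : ℝ) else 0)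
      (fun a => if a * (D + 1) + z ≤ r then (1 : ℝ) else 0) (fun _ => 1)
      (by
        intro j hj
        rw [if_pos hj]
        exact hblow j hj (by omega))
      (by
        intro a ha
        exact hQlow a ha (by omega)) 0
      (by
        apply Finset.sum_nonneg
        intro a ha
        have ha' : a < s - 1 := by simpa using ha
        rw [if_pos (by omega), if_pos (by omega)]
        norm_num)
    simp only [mul_zero, add_zero] at this
    exact hr2.trans this
  · have hqlt : q < s := by omega
    by_cases hA : δ * M < t ∨ q = 0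
    · -- A = q + 1
      have hbq : q * (D + 1) + k ≤ r := by
        rcases hA with hA | hA
        · apply hb q hqlt
          rw [hrt]; nlinarith
        · subst hA
          simpa using hk
      by_cases hτ : (1 - δ) * M ≤ t
      · have := num_aux s (q + 1) hs (by omega) δ hδ.le hδ1 (fun j => if j * (D + 1) + k ≤ r then (1 : ℝ) else 0)
          (fun a => if a * (D + 1) + z ≤ r then (1 : ℝ) else 0) (fun a => if a < q + 1 then 1 else 0)
          (by
            intro j hj
            by_cases hj1 : j < q + 1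
            · rw [if_pos hj1]
              rcases Nat.lt_succ_iff_lt_or_eq.1 hj1 with h | h
              · exact hblow j hj h
              · subst h
                rw [if_pos hbq]
            · rw [if_neg hj1]
              exact hite _)
          (by
            intro a ha
            by_cases hj1 : a < q + 1
            · rw [if_pos hj1]
              rcases Nat.lt_succ_iff_lt_or_eq.1 hj1 with h | h
              · exact hQlow a ha h
              · subst h
                rw [if_pos (hQ a (by omega) (by rw [hrt]; nlinarith))]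
            · rw [if_neg hj1]
              exact hite _) 0
          (by
            apply Finset.sum_nonneg
            intro a _
            split_ifs <;> first | (exfalso; omega) | norm_num)
        simp only [mul_zero, add_zero] at this
        refine le_trans ?_ this
        rw [hLHS]
        have : (t : ℝ) / M ≤ 1 := by rw [div_le_one hMp]; exact htM.le
        push_cast
        linarith
      · have hτ' : (t : ℝ) < (1 - δ) * M := not_le.1 hτ
        have := num_aux s (q + 1) hs (by omega) δ hδ.le hδ1 (fun j => if j * (D + 1) + k ≤ r then (1 : ℝ) else 0)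
          (fun a => if a * (D + 1) + z ≤ r then (1 : ℝ) else 0) (fun a => if a < q then 1 else 0)
          (by
            intro j hj
            by_cases hj1 : j < q + 1
            · rw [if_pos hj1]
              rcases Nat.lt_succ_iff_lt_or_eq.1 hj1 with h | h
              · exact hblow j hj h
              · subst h
                rw [if_pos hbq]
            · rw [if_neg hj1]
              exact hite _)
          (by
            intro a ha
            by_cases hj1 : a < q
            · rw [if_pos hj1]
              exact hQlow a ha hj1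
            · rw [if_neg hj1]
              exact hite _) (-1)
          (by
            calc (-1 : ℝ) ≤ ∑ a ∈ range (s - 1), (if a = q then (-1 : ℝ) else 0) := by
                  rw [Finset.sum_ite_eq']
                  split_ifs <;> norm_num
              _ ≤ _ := by
                  apply Finset.sum_le_sum
                  intro a _
                  split_ifs <;> first | (exfalso; omega) | norm_num)
        refine le_trans ?_ this
        rw [hLHS]
        have : (t : ℝ) / M ≤ 1 - δ := by rw [div_le_iff₀ hMp]; exact hτ'.le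
        push_cast
        linarith
    · -- A = q
      have hA1 : (t : ℝ) ≤ δ * M := not_lt.1 (fun h => hA (Or.inl h))
      have hA2 : q ≠ 0 := fun h => hA (Or.inr h)
      have := num_aux s q hs hqs δ hδ.le hδ1 (fun j => if j * (D + 1) + k ≤ r then (1 : ℝ) else 0)
        (fun a => if a * (D + 1) + z ≤ r then (1 : ℝ) else 0) (fun a => if a < q then 1 else 0)
        (by
          intro j hj
          by_cases hj1 : j < q
          · rw [if_pos hj1]
            exact hblow j hj hj1
          · rw [if_neg hj1]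
            exact hite _)
        (by
          intro a ha
          by_cases hj1 : a < q
          · rw [if_pos hj1]
            exact hQlow a ha hj1
          · rw [if_neg hj1]
            exact hite _) 1
        (by
          calc (1 : ℝ) ≤ ∑ a ∈ range (s - 1), (if a = q - 1 then (1 : ℝ) else 0) := by
                rw [Finset.sum_ite_eq']
                rw [if_pos (by simp; omega)]
            _ ≤ _ := by
                apply Finset.sum_le_sum
                intro a _
                split_ifs <;> first | (exfalso; omega) | norm_num)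
      refine le_trans ?_ this
      rw [hLHS]
      have : (t : ℝ) / M ≤ δ := by rw [div_le_iff₀ hMp]; exact hA1
      linarith

end Pool.Agent.Helper69.NE
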