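import Pool.Agent.Helper69.NE.Cnt
import Pool.Agent.Helper69.NE.Num

/-!
# Project BECX P3, NE, piece Dist: the ordered distribution
-/

set_option autoImplicit false

open Classical Finset

namespace Pool.Agent.Helper69.NE

noncomputable section

/-- the first `r` vertices -/
def Ini (n r : ℕ) : Finset (Fin n) := univ.filter fun v => (v : ℕ) < r

/-- the sets for a normal tuple with first entry `v` -/
def Jn (n D k : ℕ) (v : Fin n) : ℕ → Finset (Fin n) :=
  fun j => if j = 0 then {v} else Ini n (j * (D + 1) + k)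

/-- the sets for a special tuple -/
def Js (n D k z a : ℕ) : ℕ → Finset (Fin n) :=
  fun j => if j = a ∨ j = a + 1 then Ini n (a * (D + 1) + z) else Ini n (j * (D + 1) + k)

/-- uniform distribution -/
def unif {Ω : Type} (S : Finset Ω) (u : Ω) : ℝ := if u ∈ S then 1 / #S else 0

theorem mem_Fs {V : Type} [Fintype V] (G : SimpleGraph V) (J : ℕ → Finset V) (q : ℕ)
    (u : Fin q → V) : u ∈ Fs G J q ↔ Clq G u ∧ ∀ j : Fin q, u j ∈ J j := by
  unfold Fs
  simp only [mem_filter, mem_univ, true_and]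

theorem card_Ini (n r : ℕ) (h : r ≤ n) : #(Ini n r) = r := by
  unfold Ini
  have h1 : (univ.filter fun v : Fin n => (v : ℕ) < r) =
      (univ : Finset (Fin r)).map (Fin.castLEEmb h) := by
    ext v
    simp only [mem_filter, mem_univ, true_and, mem_map]
    constructor
    · intro hv
      exact ⟨⟨v, hv⟩, Fin.ext rfl⟩
    · rintro ⟨w, rfl⟩
      exact w.2
  rw [h1, card_map, card_univ, Fintype.card_fin]

theorem Ini_mono {n r r' : ℕ} (h : r ≤ r') : Ini n r ⊆ Ini n r' := by
  intro v hv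
  unfold Ini at *
  rw [mem_filter] at *
  exact ⟨hv.1, hv.2.trans_le h⟩

theorem unif_nonneg {Ω : Type} (S : Finset Ω) (u : Ω) : 0 ≤ unif S u := by
  unfold unif
  split_ifs
  · positivity
  · exact le_refl _

theorem unif_le {Ω : Type} (S : Finset Ω) (u : Ω) (m : ℕ) (hm : 0 < m) (h : m ≤ #S) :
    unif S u ≤ 1 / m := by
  unfold unif
  have h1 : (0 : ℝ) < m := by exact_mod_cast hm
  have h2 : (m : ℝ) ≤ #S := by exact_mod_cast h
  split_ifs
  · exact one_div_le_one_div_of_le h1 h2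
  · positivity

theorem sum_unif_mul {Ω : Type} [Fintype Ω] (S : Finset Ω) (f : Ω → ℝ) :
    ∑ u, unif S u * f u = ∑ u ∈ S, 1 / (#S : ℝ) * f u := by
  unfold unif
  simp only [ite_mul, zero_mul]
  rw [← sum_filter]
  congr 1
  ext u
  simp

theorem sum_unif {Ω : Type} [Fintype Ω] (S : Finset Ω) (hS : 0 < #S) : ∑ u, unif S u = 1 := by
  have h := sum_unif_mul S (fun _ => (1 : ℝ))
  simp only [mul_one] at h
  rw [h, sum_const, nsmul_eq_mul]
  have : (0 : ℝ) < #S := by exact_mod_cast hS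
  field_simp

theorem le_sum_unif {Ω : Type} [Fintype Ω] (S : Finset Ω) (hS : 0 < #S) (f : Ω → ℝ) (c : ℝ)
    (h : ∀ u ∈ S, c ≤ f u) : c ≤ ∑ u, unif S u * f u := by
  rw [sum_unif_mul]
  have h0 : (0 : ℝ) < #S := by exact_mod_cast hS
  calc c = ∑ _u ∈ S, 1 / (#S : ℝ) * c := by
        rw [sum_const, nsmul_eq_mul]
        field_simp
    _ ≤ _ := sum_le_sum fun u hu => mul_le_mul_of_nonneg_left (h u hu) (by positivity)

theorem cnt_ge {V : Type} {s : ℕ} (u : Fin s → V) (I : Finset V) (f : ℕ → ℝ)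
    (hf : ∀ j : Fin s, f j ≤ if u j ∈ I then 1 else 0) : ∑ j ∈ range s, f j ≤ cnt u I := by
  rw [sum_range]
  unfold cnt
  rw [← sum_boole]
  exact sum_le_sum fun j _ => hf j

theorem lin {Ω A B : Type} [Fintype Ω] (α β δ : ℝ) (SA : Finset A) (SB : Finset B)
    (x : A → Ω → ℝ) (y : B → Ω → ℝ) (c : Ω → ℝ) :
    ∑ u, (α * (β * ∑ v ∈ SA, x v u) + δ * ∑ a ∈ SB, y a u) * c u =
      α * (β * ∑ v ∈ SA, ∑ u, x v u * c u) + δ * ∑ a ∈ SB, ∑ u, y a u * c u := by
  have h1 : ∀ u, (α * (β * ∑ v ∈ SA, x v u) + δ * ∑ a ∈ SB, y a u) * c u =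
      α * (β * ∑ v ∈ SA, x v u * c u) + δ * ∑ a ∈ SB, y a u * c u := by
    intro u
    rw [← sum_mul, ← sum_mul]
    ring
  simp only [h1]
  rw [sum_add_distrib, ← mul_sum, ← mul_sum, ← mul_sum, sum_comm, sum_comm (s := univ) (t := SB)]

theorem special_sum (s a : ℕ) (ha : a + 1 < s) (f : ℕ → ℝ) (q : ℝ) :
    ∑ j ∈ range s, (if j = a ∨ j = a + 1 then q else f j) =
      (∑ j ∈ (range s).filter (fun j => j ≠ a ∧ j ≠ a + 1), f j) + 2 * q := by
  rw [sum_ite, add_comm]
  congr 1
  · refine sum_congr ?_ fun _ _ => rfl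
    ext j
    simp only [mem_filter, mem_range, not_or, ne_eq]
  · have : (range s).filter (fun j => j = a ∨ j = a + 1) = {a, a + 1} := by
      ext j
      simp only [mem_filter, mem_range, mem_insert, mem_singleton]
      constructor
      · exact fun h => h.2
      · intro h
        refine ⟨?_, h⟩
        rcases h with h | h <;> omega
    rw [this, sum_const, card_pair (by omega)]
    simp [two_mul]

theorem dist_exists_aux (n s M D k z g : ℕ) (hnn : n = s * M) (δ : ℝ) (hs : 2 ≤ s)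
    (hM : 1 ≤ M) (hD : M ≤ D + 1)
    (hδ : 0 < δ) (hδ1 : ((s : ℝ) - 1) * δ ≤ 1) (hδ2 : δ ≤ 1)
    (h1 : ((s : ℝ) - 1) * ((D : ℝ) + 1 - M) + k ≤ δ * M)
    (h2 : ((s : ℝ) - 1) * ((D : ℝ) + 1 - M) + z ≤ (1 - δ) * M)
    (h3 : (k : ℝ) ≤ (1 - ((s : ℝ) - 1) * δ) * M) (hk : 1 ≤ k) (hg : 1 ≤ g)
    (G : SimpleGraph (Fin n)) (hdeg : ∀ v, dg G v univ ≤ D)
    (hz : ∀ Z : Finset (Fin n), z ≤ #Z → g ≤ hn G Z) :
    ∃ π : (Fin s → Fin n) → ℝ, Dst G s (1 / (k : ℝ) ^ s + 1 / ((k : ℝ) ^ (s - 2) * g)) π ∧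
      ∀ r ≤ n, (r : ℝ) / M ≤ ∑ u, π u * cnt u (Ini n r) := by
  have hsr : (2 : ℝ) ≤ s := by exact_mod_cast hs
  have hMr : (1 : ℝ) ≤ M := by exact_mod_cast hM
  have hDr : (M : ℝ) ≤ D + 1 := by exact_mod_cast hD
  have hkr : (1 : ℝ) ≤ k := by exact_mod_cast hk
  have hgr : (1 : ℝ) ≤ g := by exact_mod_cast hg
  have hM0 : (0 : ℝ) < M := by linarith
  have hk0 : (0 : ℝ) < k := by linarith
  -- sizes
  have hb : ∀ j < s, j * (D + 1) + k ≤ n := by
    intro j hj
    have hjr : (j : ℝ) ≤ s - 1 := by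
      have : j + 1 ≤ s := hj
      have : (j : ℝ) + 1 ≤ s := by exact_mod_cast this
      linarith
    have h4 : (j : ℝ) * (D + 1) + k ≤ s * M := by
      have h5 : (j : ℝ) * ((D : ℝ) + 1 - M) ≤ ((s : ℝ) - 1) * ((D : ℝ) + 1 - M) :=
        mul_le_mul_of_nonneg_right hjr (by linarith)
      have h6 : (j : ℝ) * M ≤ ((s : ℝ) - 1) * M := mul_le_mul_of_nonneg_right hjr hM0.le
      have h7 : δ * M ≤ 1 * M := mul_le_mul_of_nonneg_right hδ2 hM0.le
      linarith
    rw [hnn]
    exact_mod_cast h4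
  have hQ : ∀ a, a + 1 < s → a * (D + 1) + z ≤ n := by
    intro a ha
    have hjr : (a : ℝ) ≤ s - 1 := by
      have : a + 1 ≤ s := ha.le
      have : (a : ℝ) + 1 ≤ s := by exact_mod_cast this
      linarith
    have h4 : (a : ℝ) * (D + 1) + z ≤ s * M := by
      have h5 : (a : ℝ) * ((D : ℝ) + 1 - M) ≤ ((s : ℝ) - 1) * ((D : ℝ) + 1 - M) :=
        mul_le_mul_of_nonneg_right hjr (by linarith)
      have h6 : (a : ℝ) * M ≤ ((s : ℝ) - 1) * M := mul_le_mul_of_nonneg_right hjr hM0.le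
      have h7 : 0 ≤ δ * M := by positivity
      linarith
    rw [hnn]
    exact_mod_cast h4
  have hkn : k ≤ n := by
    have := hb 0 (by omega)
    omega
  have hcn : ∀ v : Fin n, k ^ (s - 1) ≤ #(Fs G (Jn n D k v) s) := by
    intro v
    have h4 := normal_count G D hdeg (Jn n D k v) (fun j => if j = 0 then 1 else k) s (by
      intro j hj
      unfold Jn
      by_cases hj0 : j = 0
      · subst hj0
        simp
      · simp only [hj0, if_false]
        rw [card_Ini _ _ (hb j hj)])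
    obtain ⟨s', rfl⟩ : ∃ s', s = s' + 1 := ⟨s - 1, by omega⟩
    rw [prod_range_succ'] at h4
    simpa using h4
  have hcs : ∀ a ∈ range (s - 1), k ^ (s - 2) * g ≤ #(Fs G (Js n D k z a) s) := by
    intro a ha
    rw [mem_range] at ha
    refine special_count G D hdeg (Js n D k z a) k s a g z (by omega) ?_ ?_ ?_ ?_
    · unfold Js
      simp
    · unfold Js
      simp only [true_or, if_true]
      rw [card_Ini _ _ (hQ a (by omega))]
    · intro Z _ hZ
      exact hz Z hZ
    · intro j hj hja hja1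
      unfold Js
      simp only [hja, hja1, or_self, if_false]
      rw [card_Ini _ _ (hb j hj)]
  have hkp : 0 < k ^ (s - 1) := by positivity
  have hgp : 0 < k ^ (s - 2) * g := by positivity
  have hα : 0 ≤ 1 - ((s : ℝ) - 1) * δ := by linarith
  have hα1 : 1 - ((s : ℝ) - 1) * δ ≤ 1 := by
    have : 0 ≤ ((s : ℝ) - 1) * δ := mul_nonneg (by linarith) hδ.le
    linarith
  have hs1 : ((s - 1 : ℕ) : ℝ) = (s : ℝ) - 1 := by
    rw [Nat.cast_sub (by omega)]
    simp
  refine ⟨fun u => (1 - ((s : ℝ) - 1) * δ) *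
      (1 / (k : ℝ) * ∑ v ∈ Ini n k, unif (Fs G (Jn n D k v) s) u) +
      δ * ∑ a ∈ range (s - 1), unif (Fs G (Js n D k z a) s) u, ⟨?_, ?_, ?_, ?_⟩, ?_⟩
  · intro u
    refine add_nonneg (mul_nonneg hα (mul_nonneg (by positivity) (sum_nonneg fun v _ =>
      unif_nonneg _ _))) (mul_nonneg hδ.le (sum_nonneg fun a _ => unif_nonneg _ _))
  · intro u
    have hN : ∑ v ∈ Ini n k, unif (Fs G (Jn n D k v) s) u ≤ 1 / (k : ℝ) ^ (s - 1) := by
      have h0s : 0 < s := by omega
      have h4 : ∀ v ∈ Ini n k, v ≠ u ⟨0, h0s⟩ → unif (Fs G (Jn n D k v) s) u = 0 := by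
        intro v _ hv
        unfold unif
        rw [if_neg]
        intro hu
        rw [mem_Fs] at hu
        have h5 := hu.2 ⟨0, h0s⟩
        unfold Jn at h5
        simp only [if_true, mem_singleton] at h5
        exact hv h5.symm
      by_cases hmem : u ⟨0, h0s⟩ ∈ Ini n k
      · rw [sum_eq_single_of_mem _ hmem h4]
        have h5 := unif_le (Fs G (Jn n D k (u ⟨0, h0s⟩)) s) u (k ^ (s - 1)) hkp (hcn _)
        push_cast at h5
        exact h5
      · rw [sum_eq_zero fun v hv => h4 v hv fun e => hmem (e ▸ hv)]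
        positivity
    have hS : ∑ a ∈ range (s - 1), unif (Fs G (Js n D k z a) s) u ≤
        ((s : ℝ) - 1) * (1 / ((k : ℝ) ^ (s - 2) * g)) := by
      calc ∑ a ∈ range (s - 1), unif (Fs G (Js n D k z a) s) u
          ≤ ∑ _a ∈ range (s - 1), 1 / ((k : ℝ) ^ (s - 2) * g) := by
            refine sum_le_sum fun a ha => ?_
            have h5 := unif_le (Fs G (Js n D k z a) s) u (k ^ (s - 2) * g) hgp (hcs a ha)
            push_cast at h5
            exact h5
        _ = _ := by rw [sum_const, card_range, nsmul_eq_mul, hs1]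
    have h6 : (k : ℝ) ^ s = k * (k : ℝ) ^ (s - 1) := by
      rw [← pow_succ']
      congr 1
      omega
    refine add_le_add ?_ ?_
    · calc (1 - ((s : ℝ) - 1) * δ) * (1 / (k : ℝ) * ∑ v ∈ Ini n k, unif (Fs G (Jn n D k v) s) u)
          ≤ 1 * (1 / (k : ℝ) * (1 / (k : ℝ) ^ (s - 1))) := by
            refine mul_le_mul hα1 (mul_le_mul_of_nonneg_left hN (by positivity)) ?_ (by norm_num)
            exact mul_nonneg (by positivity) (sum_nonneg fun v _ => unif_nonneg _ _)
        _ = 1 / (k : ℝ) ^ s := by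
            rw [h6]
            field_simp
    · calc δ * ∑ a ∈ range (s - 1), unif (Fs G (Js n D k z a) s) u
          ≤ δ * (((s : ℝ) - 1) * (1 / ((k : ℝ) ^ (s - 2) * g))) :=
            mul_le_mul_of_nonneg_left hS hδ.le
        _ = (((s : ℝ) - 1) * δ) * (1 / ((k : ℝ) ^ (s - 2) * g)) := by ring
        _ ≤ 1 * (1 / ((k : ℝ) ^ (s - 2) * g)) :=
            mul_le_mul_of_nonneg_right hδ1 (by positivity)
        _ = _ := one_mul _
  · intro u hu
    have h4 : ∀ J : ℕ → Finset (Fin n), unif (Fs G J s) u = 0 := by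
      intro J
      unfold unif
      rw [if_neg]
      intro h
      rw [mem_Fs] at h
      exact hu h.1
    simp only [h4, sum_const_zero, mul_zero, add_zero]
  · have h4 := lin (1 - ((s : ℝ) - 1) * δ) (1 / (k : ℝ)) δ (Ini n k) (range (s - 1))
      (fun v u => unif (Fs G (Jn n D k v) s) u) (fun a u => unif (Fs G (Js n D k z a) s) u)
      (fun _ => (1 : ℝ))
    simp only [mul_one] at h4
    rw [h4]
    have h5 : ∑ v ∈ Ini n k, ∑ u, unif (Fs G (Jn n D k v) s) u = k := by
      rw [sum_congr rfl fun v _ => sum_unif _ (hkp.trans_le (hcn v))]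
      rw [sum_const, card_Ini _ _ hkn, nsmul_eq_mul, mul_one]
    have h6 : ∑ a ∈ range (s - 1), ∑ u, unif (Fs G (Js n D k z a) s) u = (s : ℝ) - 1 := by
      rw [sum_congr rfl fun a ha => sum_unif _ (hgp.trans_le (hcs a ha))]
      rw [sum_const, card_range, nsmul_eq_mul, mul_one, hs1]
    rw [h5, h6]
    field_simp
    ring
  · intro r hr
    rw [lin (1 - ((s : ℝ) - 1) * δ) (1 / (k : ℝ)) δ (Ini n k) (range (s - 1))
      (fun v u => unif (Fs G (Jn n D k v) s) u) (fun a u => unif (Fs G (Js n D k z a) s) u)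
      (fun u => (cnt u (Ini n r) : ℝ))]
    -- lower bounds for the two kinds
    have hnor : ∀ v : Fin n, (∑ j ∈ range s, if j = 0 then (if (v : ℕ) < r then (1 : ℝ) else 0)
        else (if j * (D + 1) + k ≤ r then (1 : ℝ) else 0)) ≤
        ∑ u, unif (Fs G (Jn n D k v) s) u * (cnt u (Ini n r) : ℝ) := by
      intro v
      refine le_sum_unif _ (hkp.trans_le (hcn v)) _ _ fun u hu => ?_
      refine cnt_ge u (Ini n r) _ fun j => ?_
      rw [mem_Fs] at hu
      have h5 := hu.2 j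
      unfold Jn at h5
      by_cases hj : (j : ℕ) = 0
      · simp only [hj, if_true, mem_singleton] at h5 ⊢
        split_ifs with h6 h7 h7
        · exact le_refl _
        · exfalso
          apply h7
          rw [h5]
          unfold Ini
          exact mem_filter.2 ⟨mem_univ _, h6⟩
        · norm_num
        · exact le_refl _
      · simp only [hj, if_false] at h5 ⊢
        split_ifs with h6 h7 h7
        · exact le_refl _
        · exact absurd (Ini_mono h6 h5) h7
        · norm_num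
        · exact le_refl _
    have hspe : ∀ a ∈ range (s - 1),
        ((∑ j ∈ (range s).filter (fun j => j ≠ a ∧ j ≠ a + 1),
            if j * (D + 1) + k ≤ r then (1 : ℝ) else 0) +
          2 * if a * (D + 1) + z ≤ r then (1 : ℝ) else 0) ≤
        ∑ u, unif (Fs G (Js n D k z a) s) u * (cnt u (Ini n r) : ℝ) := by
      intro a ha
      rw [← special_sum s a (by rw [mem_range] at ha; omega)]
      refine le_sum_unif _ (hgp.trans_le (hcs a ha)) _ _ fun u hu => ?_
      refine cnt_ge u (Ini n r) _ fun j => ?_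
      rw [mem_Fs] at hu
      have h5 := hu.2 j
      unfold Js at h5
      by_cases hj : (j : ℕ) = a ∨ (j : ℕ) = a + 1
      · simp only [hj, if_true] at h5 ⊢
        split_ifs with h6 h7 h7
        · exact le_refl _
        · exact absurd (Ini_mono h6 h5) h7
        · norm_num
        · exact le_refl _
      · simp only [hj, if_false] at h5 ⊢
        split_ifs with h6 h7 h7
        · exact le_refl _
        · exact absurd (Ini_mono h6 h5) h7
        · norm_num
        · exact le_refl _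
    have hS2 := sum_le_sum hspe
    by_cases hrk : k ≤ r
    · refine (num_ineq s M D k z r δ hs hM hD hδ hδ1 h1 h2 hrk (hnn ▸ hr)).trans ?_
      refine add_le_add (mul_le_mul_of_nonneg_left ?_ hα) (mul_le_mul_of_nonneg_left hS2 hδ.le)
      have h5 : ∀ v ∈ Ini n k, (∑ j ∈ range s, if j * (D + 1) + k ≤ r then (1 : ℝ) else 0) ≤
          ∑ u, unif (Fs G (Jn n D k v) s) u * (cnt u (Ini n r) : ℝ) := by
        intro v hv
        refine le_trans (le_of_eq ?_) (hnor v)
        refine sum_congr rfl fun j _ => ?_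
        by_cases hj : j = 0
        · subst hj
          unfold Ini at hv
          rw [mem_filter] at hv
          have h6 : (v : ℕ) < r := hv.2.trans_le hrk
          simp [h6, hrk]
        · simp only [hj, if_false]
      have h6 := sum_le_sum h5
      rw [sum_const, card_Ini _ _ hkn, nsmul_eq_mul] at h6
      calc (∑ j ∈ range s, if j * (D + 1) + k ≤ r then (1 : ℝ) else 0)
          = 1 / (k : ℝ) * (k * ∑ j ∈ range s, if j * (D + 1) + k ≤ r then (1 : ℝ) else 0) := by
            field_simp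
        _ ≤ _ := mul_le_mul_of_nonneg_left h6 (by positivity)
    · push Not at hrk
      have h5 : ∀ v ∈ Ini n k, (if (v : ℕ) < r then (1 : ℝ) else 0) ≤
          ∑ u, unif (Fs G (Jn n D k v) s) u * (cnt u (Ini n r) : ℝ) := by
        intro v _
        refine le_trans ?_ (hnor v)
        have h6 : (0 : ℕ) ∈ range s := mem_range.2 (by omega)
        have h7 := single_le_sum (f := fun j : ℕ => if j = 0 then
          (if (v : ℕ) < r then (1 : ℝ) else 0) else
            (if j * (D + 1) + k ≤ r then (1 : ℝ) else 0)) (fun j _ => by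
            split_ifs <;> norm_num) h6
        simpa using h7
      have h6 := sum_le_sum h5
      have h7 : ∑ v ∈ Ini n k, (if (v : ℕ) < r then (1 : ℝ) else 0) = r := by
        rw [sum_boole]
        have h8 : (Ini n k).filter (fun v : Fin n => (v : ℕ) < r) = Ini n r := by
          ext v
          unfold Ini
          simp only [mem_filter, mem_univ, true_and]
          constructor
          · exact fun h => h.2
          · intro h
            exact ⟨h.trans hrk, h⟩
        rw [h8, card_Ini _ _ hr]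
      rw [h7] at h6
      have h9 : 0 ≤ δ * ∑ a ∈ range (s - 1), ∑ u, unif (Fs G (Js n D k z a) s) u *
          (cnt u (Ini n r) : ℝ) :=
        mul_nonneg hδ.le (sum_nonneg fun a _ => sum_nonneg fun u _ =>
          mul_nonneg (unif_nonneg _ _) (by positivity))
      have h10 : (r : ℝ) / M ≤ (1 - ((s : ℝ) - 1) * δ) * (1 / (k : ℝ) * r) := by
        rw [div_le_iff₀ hM0]
        have h11 : (1 - ((s : ℝ) - 1) * δ) * (1 / (k : ℝ) * r) * M =
            ((1 - ((s : ℝ) - 1) * δ) * M) * r / k := by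
          field_simp
        rw [h11, le_div_iff₀ hk0]
        have h12 : (0 : ℝ) ≤ r := by positivity
        nlinarith
      have h11 : (1 - ((s : ℝ) - 1) * δ) * (1 / (k : ℝ) * r) ≤ (1 - ((s : ℝ) - 1) * δ) *
          (1 / (k : ℝ) * ∑ v ∈ Ini n k, ∑ u, unif (Fs G (Jn n D k v) s) u *
            (cnt u (Ini n r) : ℝ)) :=
        mul_le_mul_of_nonneg_left (mul_le_mul_of_nonneg_left h6 (by positivity)) hα
      linarith

/-- `π = (1 - (s-1) δ) (1/k) ∑_{v < k} unif (Fs G (Jn v) s) + δ ∑_{a < s-1} unif (Fs G (Js a) s)`. Sizes of the sets: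
`normal_count` (with `k 0 = 1`, so at least `k^(s-1)`) and `special_count`. The sets `Fs G (Jn v) s`, `v < k`, are disjoint (entry `0`
is `v`). A tuple of `Fs G (Jn v) s` has `cnt u (Ini r) ≥ #{j < s, j ≠ 0 | b j ≤ r} + [v < r]` (`b j = j (D+1) + k`), a tuple of
`Fs G (Js a) s` has `cnt u (Ini r) ≥ #{j ≠ a, a+1 | b j ≤ r} + 2 [a (D+1) + z ≤ r]`. For `r < k` only the entries `0` of the normal
tuples are used (`(1 - (s-1) δ) r / k ≥ r / M` by `h3`), for `r ≥ k` use `num_ineq`. -/
theorem dist_exists (s M D k z g : ℕ) (δ : ℝ) (hs : 2 ≤ s) (hM : 1 ≤ M) (hD : M ≤ D + 1)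
    (hδ : 0 < δ) (hδ1 : ((s : ℝ) - 1) * δ ≤ 1) (hδ2 : δ ≤ 1)
    (h1 : ((s : ℝ) - 1) * ((D : ℝ) + 1 - M) + k ≤ δ * M)
    (h2 : ((s : ℝ) - 1) * ((D : ℝ) + 1 - M) + z ≤ (1 - δ) * M)
    (h3 : (k : ℝ) ≤ (1 - ((s : ℝ) - 1) * δ) * M) (hk : 1 ≤ k) (hg : 1 ≤ g)
    (G : SimpleGraph (Fin (s * M))) (hdeg : ∀ v, dg G v univ ≤ D)
    (hz : ∀ Z : Finset (Fin (s * M)), z ≤ #Z → g ≤ hn G Z) :
    ∃ π : (Fin s → Fin (s * M)) → ℝ, Dst G s (1 / (k : ℝ) ^ s + 1 / ((k : ℝ) ^ (s - 2) * g)) π ∧
      ∀ r ≤ s * M, (r : ℝ) / M ≤ ∑ u, π u * cnt u (Ini (s * M) r) :=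
  dist_exists_aux (s * M) s M D k z g rfl δ hs hM hD hδ hδ1 hδ2 h1 h2 h3 hk hg G hdeg hz

end

end Pool.Agent.Helper69.NE
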