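import Pool.Agent.Helper69.NE.Defs
import Pool.Agent.Helper5.AVD.Prob

/-!
# Project BECX P3, NE, piece Samp: independent samples
-/

set_option autoImplicit false

open Classical Finset

namespace Pool.Agent.Helper69.NE

noncomputable section

/-- pairs of samples with at least two common vertices -/
def bad {V : Type} {s T : ℕ} (ω : Fin T → Fin s → V) : Finset (Fin T × Fin T) :=
  univ.filter fun p => p.1 ≠ p.2 ∧ 2 ≤ #(univ.image (ω p.1) ∩ univ.image (ω p.2))

/-- number of samples that contain `v` -/
def dgs {V : Type} {s T : ℕ} (ω : Fin T → Fin s → V) (v : V) : ℕ :=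
  #(univ.filter fun i => v ∈ univ.image (ω i))

open Pool.Agent.Helper61.LE in
/-- the marginal of one coordinate -/
theorem samp_marg {ι Ω : Type} [Fintype ι] [DecidableEq ι] [Fintype Ω]
    {μ : ι → Ω → ℝ} (h : IsProb μ) (i : ι) (g : Ω → ℝ) :
    EE μ (fun ω => g (ω i)) = ∑ b, μ i b * g b := by
  have h3 : (fun ω' : ι → Ω => g (ω' i)) =
      fun ω' => ∏ j, (if j = i then g (ω' j) else 1) := by
    ext ω'
    rw [Finset.prod_eq_single i]
    · simp
    · intro b _ hb
      simp [hb]
    · simp
  rw [h3, EE_prod (fun j b => if j = i then g b else 1)]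
  rw [Finset.prod_eq_single i]
  · simp
  · intro b _ hb
    simp [hb, h.sum_one]
  · simp

open Pool.Agent.Helper61.LE in
/-- the marginal of two coordinates -/
theorem samp_marg2 {ι Ω : Type} [Fintype ι] [DecidableEq ι] [Fintype Ω]
    {μ : ι → Ω → ℝ} (h : IsProb μ) {i j : ι} (hij : i ≠ j) (g : Ω → Ω → ℝ) :
    EE μ (fun ω => g (ω i) (ω j)) = ∑ u, ∑ w, μ i u * μ j w * g u w := by
  have h1 : ∀ ω : ι → Ω, g (ω i) (ω j) = ∑ u, (if ω i = u then (1 : ℝ) else 0) * g u (ω j) := by
    intro ω
    rw [Finset.sum_eq_single (ω i)]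
    · simp
    · intro b _ hb
      simp [Ne.symm hb]
    · simp
  rw [EE_congr h1, EE_sum]
  refine Finset.sum_congr rfl fun u _ => ?_
  rw [EE_mul_of_disjoint h (S := {i}) (T := {j})
    (f := fun ω => if ω i = u then (1 : ℝ) else 0) (g := fun ω => g u (ω j))]
  · rw [samp_marg h i (fun b => if b = u then (1 : ℝ) else 0), samp_marg h j (fun b => g u b)]
    simp only [mul_ite, mul_one, mul_zero, Finset.sum_ite_eq', Finset.mem_univ, if_true]
    rw [Finset.mul_sum]
    exact Finset.sum_congr rfl fun w _ => by ring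
  · intro ω ω' hω
    simp only [hω i (Finset.mem_singleton_self i)]
  · intro ω ω' hω
    simp only [hω j (Finset.mem_singleton_self j)]
  · rw [Finset.disjoint_singleton]
    exact hij

/-- number of tuples with two prescribed entries -/
theorem samp_two {V : Type} [Fintype V] {s : ℕ} {q q' : Fin s} (hq : q ≠ q') (x y : V) :
    #(univ.filter fun w : Fin s → V => w q = x ∧ w q' = y) = Fintype.card V ^ (s - 2) := by
  have h1 : (univ.filter fun w : Fin s → V => w q = x ∧ w q' = y) =
      Fintype.piFinset (fun k => if k = q then ({x} : Finset V) else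
        if k = q' then {y} else univ) := by
    ext w
    simp only [mem_filter, mem_univ, true_and, Fintype.mem_piFinset]
    constructor
    · rintro ⟨h1, h2⟩ k
      by_cases hk : k = q
      · subst hk
        simp [h1]
      · by_cases hk' : k = q'
        · subst hk'
          simp [hk, h2]
        · simp [hk, hk']
    · intro h
      have h1 := h q
      have h2 := h q'
      simp only [if_true, mem_singleton] at h1
      rw [if_neg (Ne.symm hq)] at h2
      simp only [if_true, mem_singleton] at h2
      exact ⟨h1, h2⟩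
  rw [h1, Fintype.card_piFinset]
  have h2 : ∀ k : Fin s, #(if k = q then ({x} : Finset V) else
        if k = q' then {y} else univ) = if k ∈ ({q, q'} : Finset (Fin s)) then 1
          else Fintype.card V := by
    intro k
    by_cases hk : k = q
    · simp [hk]
    · by_cases hk' : k = q'
      · simp [hk']
        split_ifs <;> simp
      · simp [hk, hk']
  simp only [h2]
  rw [Finset.prod_ite]
  simp only [Finset.prod_const_one, one_mul, Finset.prod_const]
  congr 1
  have h3 : (univ.filter fun k : Fin s => k ∉ ({q, q'} : Finset (Fin s))) = ({q, q'} : Finset (Fin s))ᶜ := by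
    ext k
    simp
  rw [h3, Finset.card_compl, Fintype.card_fin, Finset.card_pair hq]

/-- two samples with two common vertices -/
theorem samp_pair {V : Type} [Fintype V] (G : SimpleGraph V) (n s : ℕ) (hn : n = Fintype.card V)
    (B : ℝ) (hB : 0 ≤ B) (π : (Fin s → V) → ℝ) (hπ : Dst G s B π) :
    ∑ u, ∑ w, π u * π w * (if 2 ≤ #(univ.image u ∩ univ.image w) then (1 : ℝ) else 0) ≤
      s ^ 4 * n ^ (s - 2) * B := by
  have h1 : ∀ u : Fin s → V, ∑ w, π w * (if 2 ≤ #(univ.image u ∩ univ.image w) then (1 : ℝ) else 0)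
      ≤ s ^ 4 * n ^ (s - 2) * B := by
    intro u
    have h2 : ∀ w : Fin s → V, (if 2 ≤ #(univ.image u ∩ univ.image w) then (1 : ℝ) else 0) ≤
        ∑ p : Fin s × Fin s, ∑ r : Fin s × Fin s,
          (if r.1 ≠ r.2 then (if w r.1 = u p.1 ∧ w r.2 = u p.2 then (1 : ℝ) else 0) else 0) := by
      intro w
      split_ifs with h
      · obtain ⟨x, hx, y, hy, hxy⟩ := Finset.one_lt_card.1 (lt_of_lt_of_le one_lt_two h)
        rw [Finset.mem_inter] at hx hy
        obtain ⟨hxu, hxw⟩ := hx
        obtain ⟨hyu, hyw⟩ := hy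
        obtain ⟨p1, -, hp1⟩ := Finset.mem_image.1 hxu
        obtain ⟨p2, -, hp2⟩ := Finset.mem_image.1 hyu
        obtain ⟨r1, -, hr1⟩ := Finset.mem_image.1 hxw
        obtain ⟨r2, -, hr2⟩ := Finset.mem_image.1 hyw
        have hr : r1 ≠ r2 := by
          rintro rfl
          exact hxy (hr1.symm.trans hr2)
        have h3 : (1 : ℝ) = (if (r1, r2).1 ≠ (r1, r2).2 then
            (if w (r1, r2).1 = u (p1, p2).1 ∧ w (r1, r2).2 = u (p1, p2).2 then (1 : ℝ) else 0)
              else 0) := by
          simp only
          rw [if_pos hr, if_pos ⟨hr1.trans hp1.symm, hr2.trans hp2.symm⟩]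
        refine le_trans (le_of_eq h3) ?_
        refine le_trans ?_ (Finset.single_le_sum (f := fun p : Fin s × Fin s =>
          ∑ r : Fin s × Fin s,
          (if r.1 ≠ r.2 then (if w r.1 = u p.1 ∧ w r.2 = u p.2 then (1 : ℝ) else 0) else 0))
          (fun p _ => Finset.sum_nonneg fun r _ => by split_ifs <;> norm_num)
          (Finset.mem_univ (p1, p2)))
        exact Finset.single_le_sum (f := fun r : Fin s × Fin s =>
          (if r.1 ≠ r.2 then (if w r.1 = u (p1, p2).1 ∧ w r.2 = u (p1, p2).2 then (1 : ℝ) else 0)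
            else 0))
          (fun r _ => by split_ifs <;> norm_num) (Finset.mem_univ (r1, r2))
      · exact Finset.sum_nonneg fun p _ => Finset.sum_nonneg fun r _ => by
          split_ifs <;> norm_num
    have h4 : ∀ (p r : Fin s × Fin s), ∑ w : Fin s → V, π w *
        (if r.1 ≠ r.2 then (if w r.1 = u p.1 ∧ w r.2 = u p.2 then (1 : ℝ) else 0) else 0) ≤
        n ^ (s - 2) * B := by
      intro p r
      by_cases hr : r.1 ≠ r.2
      · simp only [if_pos hr]
        calc ∑ w : Fin s → V, π w * (if w r.1 = u p.1 ∧ w r.2 = u p.2 then (1 : ℝ) else 0)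
            ≤ ∑ w : Fin s → V, (if w r.1 = u p.1 ∧ w r.2 = u p.2 then B else 0) := by
              refine Finset.sum_le_sum fun w _ => ?_
              split_ifs
              · rw [mul_one]
                exact hπ.le w
              · rw [mul_zero]
          _ = n ^ (s - 2) * B := by
              rw [← Finset.sum_filter, Finset.sum_const, samp_two hr, nsmul_eq_mul, hn]
              push_cast
              ring
      · simp only [if_neg hr, mul_zero, Finset.sum_const_zero]
        positivity
    calc ∑ w, π w * (if 2 ≤ #(univ.image u ∩ univ.image w) then (1 : ℝ) else 0)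
        ≤ ∑ w : Fin s → V, π w * ∑ p : Fin s × Fin s, ∑ r : Fin s × Fin s,
          (if r.1 ≠ r.2 then (if w r.1 = u p.1 ∧ w r.2 = u p.2 then (1 : ℝ) else 0) else 0) :=
          Finset.sum_le_sum fun w _ => mul_le_mul_of_nonneg_left (h2 w) (hπ.nn w)
      _ = ∑ p : Fin s × Fin s, ∑ r : Fin s × Fin s, ∑ w : Fin s → V, π w *
          (if r.1 ≠ r.2 then (if w r.1 = u p.1 ∧ w r.2 = u p.2 then (1 : ℝ) else 0) else 0) := by
          simp only [Finset.mul_sum]
          rw [Finset.sum_comm]
          refine Finset.sum_congr rfl fun p _ => ?_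
          rw [Finset.sum_comm]
      _ ≤ ∑ p : Fin s × Fin s, ∑ r : Fin s × Fin s, ((n : ℝ) ^ (s - 2) * B) :=
          Finset.sum_le_sum fun p _ => Finset.sum_le_sum fun r _ => h4 p r
      _ = s ^ 4 * n ^ (s - 2) * B := by
          simp only [Finset.sum_const, Finset.card_univ, Fintype.card_prod, Fintype.card_fin,
            nsmul_eq_mul]
          push_cast
          ring
  calc ∑ u, ∑ w, π u * π w * (if 2 ≤ #(univ.image u ∩ univ.image w) then (1 : ℝ) else 0)
      = ∑ u, π u * ∑ w, π w * (if 2 ≤ #(univ.image u ∩ univ.image w) then (1 : ℝ) else 0) := by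
        refine Finset.sum_congr rfl fun u _ => ?_
        rw [Finset.mul_sum]
        exact Finset.sum_congr rfl fun w _ => by ring
    _ ≤ ∑ u, π u * (s ^ 4 * n ^ (s - 2) * B) :=
        Finset.sum_le_sum fun u _ => mul_le_mul_of_nonneg_left (h1 u) (hπ.nn u)
    _ = s ^ 4 * n ^ (s - 2) * B := by
        rw [← Finset.sum_mul, hπ.sum, one_mul]

/-- the probability that a sample contains `v` -/
theorem samp_mem {V : Type} [Fintype V] (G : SimpleGraph V) (n s : ℕ)
    (B : ℝ) (π : (Fin s → V) → ℝ) (hπ : Dst G s B π)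
    (hm : ∀ v, ∑ u, π u * cnt u {v} = (s : ℝ) / n) (v : V) :
    ∑ u, π u * (if v ∈ univ.image u then (1 : ℝ) else 0) = (s : ℝ) / n := by
  rw [← hm v]
  refine Finset.sum_congr rfl fun u _ => ?_
  by_cases hu : Clq G u
  · congr 1
    by_cases hv : v ∈ univ.image u
    · rw [if_pos hv]
      obtain ⟨j, -, hj⟩ := Finset.mem_image.1 hv
      have : (univ.filter fun k => u k ∈ ({v} : Finset V)) = {j} := by
        ext k
        simp only [mem_filter, mem_univ, true_and, mem_singleton]
        constructor
        · intro hk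
          by_contra hkj
          exact (hu k j hkj).1 (hk.trans hj.symm)
        · rintro rfl
          exact hj
      unfold cnt
      rw [this, Finset.card_singleton, Nat.cast_one]
    · rw [if_neg hv]
      have : (univ.filter fun k => u k ∈ ({v} : Finset V)) = ∅ := by
        ext k
        simp only [mem_filter, mem_univ, true_and, mem_singleton, notMem_empty, iff_false]
        intro hk
        exact hv (Finset.mem_image.2 ⟨k, Finset.mem_univ k, hk⟩)
      unfold cnt
      rw [this, Finset.card_empty, Nat.cast_zero]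
  · rw [hπ.sup u hu, zero_mul, zero_mul]

open Pool.Agent.Helper61.LE in
/-- variance of the number of samples that contain `v` -/
theorem samp_var {V : Type} [Fintype V] (G : SimpleGraph V) (n s T : ℕ)
    (B : ℝ) (π : (Fin s → V) → ℝ) (hπ : Dst G s B π)
    (hm : ∀ v, ∑ u, π u * cnt u {v} = (s : ℝ) / n) (v : V) :
    EE (fun _ : Fin T => π) (fun ω => ((dgs ω v : ℝ) - T * s / n) ^ 2) ≤ T * s / n := by
  have hP : IsProb (fun _ : Fin T => π) := ⟨fun _ => hπ.nn, fun _ => hπ.sum⟩
  set I : (Fin s → V) → ℝ := fun u => if v ∈ univ.image u then (1 : ℝ) else 0 with hI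
  have hI2 : ∀ u, I u * I u = I u := by
    intro u
    simp only [hI]
    split_ifs <;> norm_num
  have hq : ∑ u, π u * I u = (s : ℝ) / n := samp_mem G n s B π hπ hm v
  have h1 : ∀ ω : Fin T → Fin s → V, ((dgs ω v : ℝ) - T * s / n) ^ 2 =
      ∑ i, ∑ j, (I (ω i) - s / n) * (I (ω j) - s / n) := by
    intro ω
    have h2 : (dgs ω v : ℝ) - T * s / n = ∑ i, (I (ω i) - s / n) := by
      unfold dgs
      rw [Finset.sum_sub_distrib, Finset.sum_const, Finset.card_univ, Fintype.card_fin,
        nsmul_eq_mul, Finset.card_filter]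
      push_cast
      simp only [hI]
      ring
    rw [h2, sq, Finset.sum_mul_sum]
  rw [EE_congr h1, EE_sum]
  simp only [EE_sum]
  have h3 : ∀ i j : Fin T, EE (fun _ : Fin T => π)
      (fun ω => (I (ω i) - s / n) * (I (ω j) - s / n)) ≤ if j = i then (s : ℝ) / n else 0 := by
    intro i j
    by_cases hij : j = i
    · subst hij
      rw [if_pos rfl, samp_marg hP j (fun b => (I b - s / n) * (I b - s / n))]
      have h4 : ∀ u, π u * ((I u - s / n) * (I u - s / n)) =
          (1 - 2 * (s / n)) * (π u * I u) + (s / n) ^ 2 * π u := by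
        intro u
        have := hI2 u
        linear_combination (π u) * this
      rw [Finset.sum_congr rfl fun u _ => h4 u, Finset.sum_add_distrib, ← Finset.mul_sum,
        ← Finset.mul_sum, hq, hπ.sum]
      nlinarith [sq_nonneg ((s : ℝ) / n)]
    · rw [if_neg hij, samp_marg2 hP (Ne.symm hij)
        (fun a b => (I a - s / n) * (I b - s / n))]
      have h5 : ∑ u, π u * (I u - s / n) = 0 := by
        have : ∀ u, π u * (I u - s / n) = π u * I u - (s / n) * π u := by
          intro u
          ring
        rw [Finset.sum_congr rfl fun u _ => this u, Finset.sum_sub_distrib, ← Finset.mul_sum,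
          hq, hπ.sum]
        ring
      have h6 : ∑ u, ∑ w, π u * π w * ((I u - s / n) * (I w - s / n)) =
          (∑ u, π u * (I u - s / n)) * ∑ w, π w * (I w - s / n) := by
        rw [Finset.sum_mul_sum]
        exact Finset.sum_congr rfl fun u _ => Finset.sum_congr rfl fun w _ => by ring
      rw [h6, h5, zero_mul]
  calc ∑ i : Fin T, ∑ j : Fin T, EE (fun _ : Fin T => π)
        (fun ω => (I (ω i) - s / n) * (I (ω j) - s / n))
      ≤ ∑ i : Fin T, ∑ j : Fin T, (if j = i then (s : ℝ) / n else 0) :=
        Finset.sum_le_sum fun i _ => Finset.sum_le_sum fun j _ => h3 i j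
    _ = T * s / n := by
        simp only [Finset.sum_ite_eq', Finset.mem_univ, if_true, Finset.sum_const,
          Finset.card_univ, Fintype.card_fin, nsmul_eq_mul]
        ring

open Pool.Agent.Helper61.LE in
/-- an outcome of positive weight at most the expectation -/
theorem samp_ex {ι Ω : Type} [Fintype ι] [DecidableEq ι] [Fintype Ω]
    {μ : ι → Ω → ℝ} (h : IsProb μ) (X : (ι → Ω) → ℝ) :
    ∃ ω, (∀ i, μ i (ω i) ≠ 0) ∧ X ω ≤ EE μ X := by
  by_contra hcon
  push Not at hcon
  have h1 : ∀ ω, wt μ ω * EE μ X ≤ wt μ ω * X ω := by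
    intro ω
    by_cases hω : ∀ i, μ i (ω i) ≠ 0
    · exact mul_le_mul_of_nonneg_left (hcon ω hω).le (wt_nonneg h ω)
    · push Not at hω
      obtain ⟨i, hi⟩ := hω
      unfold wt
      rw [Finset.prod_eq_zero (Finset.mem_univ i) hi, zero_mul, zero_mul]
  have h2 : ∃ ω, 0 < wt μ ω := by
    by_contra h3
    push Not at h3
    have h4 : ∑ ω, wt μ ω ≤ 0 := Finset.sum_nonpos fun ω _ => h3 ω
    rw [sum_wt h] at h4
    linarith
  obtain ⟨ω0, hω0⟩ := h2
  have h5 : ∀ i, μ i (ω0 i) ≠ 0 := by
    intro i hi
    have : wt μ ω0 = 0 := by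
      unfold wt
      exact Finset.prod_eq_zero (Finset.mem_univ i) hi
    rw [this] at hω0
    exact lt_irrefl _ hω0
  have h6 : ∑ ω, wt μ ω * EE μ X < ∑ ω, wt μ ω * X ω :=
    Finset.sum_lt_sum (fun ω _ => h1 ω)
      ⟨ω0, Finset.mem_univ _, mul_lt_mul_of_pos_left (hcon ω0 h5) hω0⟩
  rw [← Finset.sum_mul, sum_wt h, one_mul] at h6
  exact lt_irrefl _ h6

open Pool.Agent.Helper61.LE in
/-- `T` independent samples with distribution `π` (`Pool.Agent.Helper61.LE.EE` with `ι = Fin T`, `Ω = Fin s → V`). For `i ≠ j` the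
probability that the samples `i`, `j` have two common vertices is at most `s^4 n^(s-2) B` (fix the first sample and the positions of the
two common vertices in both). For a vertex `v` the number of samples that contain `v` has mean `μ = T s / n` and variance at most
`μ` (independence of two different samples, `cnt u {v} ∈ {0, 1}` for a tuple of distinct vertices), and
`max 0 (x - a) ≤ (x - μ)^2 / (4 (a - μ))`. Take an outcome of positive weight that is at most the expectation. -/
theorem samp {V : Type} [Fintype V] (G : SimpleGraph V) (n s T : ℕ) (hn : n = Fintype.card V)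
    (hn1 : 1 ≤ n) (hs : 2 ≤ s) (B a : ℝ) (hB : 0 ≤ B) (π : (Fin s → V) → ℝ) (hπ : Dst G s B π)
    (hm : ∀ v, ∑ u, π u * cnt u {v} = (s : ℝ) / n) (ha : (T : ℝ) * s / n < a) :
    ∃ ω : Fin T → Fin s → V, (∀ i, Clq G (ω i)) ∧
      (#(bad ω) : ℝ) + ∑ v, max 0 ((dgs ω v : ℝ) - a) ≤
        (T : ℝ) ^ 2 * (s ^ 4 * n ^ (s - 2) * B) + T * s / (4 * (a - T * s / n)) := by
  have hP : IsProb (fun _ : Fin T => π) := ⟨fun _ => hπ.nn, fun _ => hπ.sum⟩
  obtain ⟨ω, hω1, hω2⟩ := samp_ex hP
    (fun ω : Fin T → Fin s → V => (#(bad ω) : ℝ) + ∑ v, max 0 ((dgs ω v : ℝ) - a))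
  refine ⟨ω, ?_, hω2.trans ?_⟩
  · intro i
    by_contra h
    exact hω1 i (hπ.sup _ h)
  · rw [EE_add]
    refine add_le_add ?_ ?_
    · have h1 : ∀ ω : Fin T → Fin s → V, (#(bad ω) : ℝ) = ∑ p : Fin T × Fin T,
          (if p.1 ≠ p.2 ∧ 2 ≤ #(univ.image (ω p.1) ∩ univ.image (ω p.2)) then (1 : ℝ) else 0) := by
        intro ω
        unfold bad
        rw [Finset.card_filter]
        push_cast
        rfl
      rw [EE_congr h1, EE_sum]
      have h2 : ∀ p : Fin T × Fin T, EE (fun _ : Fin T => π) (fun ω : Fin T → Fin s → V =>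
          (if p.1 ≠ p.2 ∧ 2 ≤ #(univ.image (ω p.1) ∩ univ.image (ω p.2)) then (1 : ℝ) else 0)) ≤
          s ^ 4 * n ^ (s - 2) * B := by
        intro p
        by_cases hp : p.1 = p.2
        · have h3 : ∀ ω : Fin T → Fin s → V, (if p.1 ≠ p.2 ∧
              2 ≤ #(univ.image (ω p.1) ∩ univ.image (ω p.2)) then (1 : ℝ) else 0) = 0 := by
            intro ω
            rw [if_neg]
            rintro ⟨h, -⟩
            exact h hp
          rw [EE_congr h3, EE_const hP]
          positivity
        · have h3 : ∀ ω : Fin T → Fin s → V, (if p.1 ≠ p.2 ∧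
              2 ≤ #(univ.image (ω p.1) ∩ univ.image (ω p.2)) then (1 : ℝ) else 0) =
              (fun u w : Fin s → V => if 2 ≤ #(univ.image u ∩ univ.image w) then (1 : ℝ) else 0)
                (ω p.1) (ω p.2) := by
            intro ω
            by_cases h : 2 ≤ #(univ.image (ω p.1) ∩ univ.image (ω p.2))
            · rw [if_pos ⟨hp, h⟩]
              simp only [if_pos h]
            · rw [if_neg (fun h' => h h'.2)]
              simp only [if_neg h]
          rw [EE_congr h3, samp_marg2 hP hp
            (fun u w : Fin s → V => if 2 ≤ #(univ.image u ∩ univ.image w) then (1 : ℝ) else 0)]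
          exact samp_pair G n s hn B hB π hπ
      calc ∑ p : Fin T × Fin T, EE (fun _ : Fin T => π) (fun ω : Fin T → Fin s → V =>
            (if p.1 ≠ p.2 ∧ 2 ≤ #(univ.image (ω p.1) ∩ univ.image (ω p.2)) then (1 : ℝ) else 0))
          ≤ ∑ p : Fin T × Fin T, ((s : ℝ) ^ 4 * n ^ (s - 2) * B) :=
            Finset.sum_le_sum fun p _ => h2 p
        _ = (T : ℝ) ^ 2 * (s ^ 4 * n ^ (s - 2) * B) := by
            simp only [Finset.sum_const, Finset.card_univ, Fintype.card_prod, Fintype.card_fin,
              nsmul_eq_mul]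
            push_cast
            ring
    · have hpos : 0 < 4 * (a - T * s / n) := by linarith
      rw [EE_sum]
      have h1 : ∀ v : V, EE (fun _ : Fin T => π) (fun ω => max 0 ((dgs ω v : ℝ) - a)) ≤
          (T * s / n) / (4 * (a - T * s / n)) := by
        intro v
        calc EE (fun _ : Fin T => π) (fun ω => max 0 ((dgs ω v : ℝ) - a))
            ≤ EE (fun _ : Fin T => π) (fun ω => ((dgs ω v : ℝ) - T * s / n) ^ 2 *
                (1 / (4 * (a - T * s / n)))) := by
              refine EE_mono hP fun ω => ?_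
              rw [mul_one_div, le_div_iff₀ hpos]
              rcases le_total ((dgs ω v : ℝ) - a) 0 with h | h
              · rw [max_eq_left h, zero_mul]
                positivity
              · rw [max_eq_right h]
                nlinarith [sq_nonneg (((dgs ω v : ℝ) - a) - (a - T * s / n))]
          _ = EE (fun _ : Fin T => π) (fun ω => ((dgs ω v : ℝ) - T * s / n) ^ 2) *
                (1 / (4 * (a - T * s / n))) := EE_mul_const _ _
          _ ≤ (T * s / n) * (1 / (4 * (a - T * s / n))) :=
              mul_le_mul_of_nonneg_right (samp_var G n s T B π hπ hm v) (by positivity)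
          _ = (T * s / n) / (4 * (a - T * s / n)) := by rw [mul_one_div]
      calc ∑ v, EE (fun _ : Fin T => π) (fun ω => max 0 ((dgs ω v : ℝ) - a))
          ≤ ∑ v : V, (T * s / n) / (4 * (a - T * s / n)) := Finset.sum_le_sum fun v _ => h1 v
        _ = T * s / (4 * (a - T * s / n)) := by
            rw [Finset.sum_const, Finset.card_univ, ← hn, nsmul_eq_mul]
            have hn0 : (n : ℝ) ≠ 0 := by
              have : (0 : ℝ) < n := by exact_mod_cast hn1
              exact this.ne'
            rw [← mul_div_assoc]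
            congr 1
            field_simp

end

end Pool.Agent.Helper69.NE
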