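import Pool.Agent.Helper69.NE.Dist
import Pool.Agent.Helper69.NE.Bal

/-!
# Project BECX P3, NE, piece Sort: summation by parts and sorting
-/

set_option autoImplicit false

open Classical Finset

namespace Pool.Agent.Helper69.NE

noncomputable section

theorem sum_Ini {n : ℕ} (r : ℕ) (hr : r ≤ n) (m : Fin n → ℝ) (mm : ℕ → ℝ)
    (hmm : ∀ v : Fin n, mm v = m v) : ∑ v ∈ Ini n r, m v = ∑ i ∈ range r, mm i := by
  unfold Ini
  rw [sum_filter]
  have h1 : ∀ v : Fin n, (if (v : ℕ) < r then m v else 0) =
      (fun i : ℕ => if i < r then mm i else 0) v := by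
    intro v
    simp only [hmm]
  rw [sum_congr rfl fun v _ => h1 v, ← sum_range (fun i : ℕ => if i < r then mm i else 0),
    ← sum_filter]
  refine sum_congr ?_ fun _ _ => rfl
  ext i
  simp only [mem_filter, mem_range]
  omega

/-- Summation by parts: `∑ v, y v * (m v - t) = ∑_{1 ≤ r < n} (y (r-1) - y r) * (∑_{v < r} m v - r t) + y (n-1) * 0`. -/
theorem abel (n : ℕ) (y : Fin n → ℝ) (hy : Antitone y) (m : Fin n → ℝ) (t : ℝ)
    (h : ∀ r ≤ n, (r : ℝ) * t ≤ ∑ v ∈ Ini n r, m v) (hm : ∑ v, m v = n * t) :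
    ∑ v, y v * t ≤ ∑ v, y v * m v := by
  rcases Nat.eq_zero_or_pos n with hn | hn
  · subst hn
    simp
  -- extension to the natural numbers
  set yy : ℕ → ℝ := fun i => if hi : i < n then y ⟨i, hi⟩ else 0 with hyy
  set mm : ℕ → ℝ := fun i => if hi : i < n then m ⟨i, hi⟩ else 0 with hmmd
  have hyv : ∀ v : Fin n, yy v = y v := by
    intro v
    simp [hyy]
  have hmv : ∀ v : Fin n, mm v = m v := by
    intro v
    simp [hmmd]
  have key : ∀ k, k + 1 ≤ n → yy k * (∑ i ∈ range (k + 1), mm i - ((k : ℝ) + 1) * t) ≤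
      ∑ i ∈ range (k + 1), yy i * (mm i - t) := by
    intro k
    induction k with
    | zero =>
      intro _
      simp
    | succ k ih =>
      intro hk
      have h1 := ih (by omega)
      have h2 : yy (k + 1) ≤ yy k := by
        have hk1 : k + 1 < n := hk
        have hk0 : k < n := by omega
        simp only [hyy, hk1, hk0, dif_pos]
        exact hy (by
          rw [Fin.mk_le_mk]
          omega)
      have h3 : 0 ≤ ∑ i ∈ range (k + 1), mm i - ((k : ℝ) + 1) * t := by
        have h4 := h (k + 1) (by omega)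
        rw [sum_Ini (k + 1) (by omega) m mm hmv] at h4
        push_cast at h4
        linarith
      rw [sum_range_succ _ (k + 1), sum_range_succ _ (k + 1)]
      push_cast
      nlinarith [mul_nonneg (sub_nonneg.2 h2) h3]
  obtain ⟨k, rfl⟩ : ∃ k, n = k + 1 := ⟨n - 1, by omega⟩
  have h5 := key k le_rfl
  have h6 : ∑ i ∈ range (k + 1), mm i = ((k : ℝ) + 1) * t := by
    rw [sum_range]
    simp only [hmv]
    rw [hm]
    push_cast
    ring
  rw [h6, sub_self, mul_zero, sum_range] at h5
  simp only [hmv, hyv, mul_sub, sum_sub_distrib] at h5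
  linarith

theorem sum_cnt {V : Type} {s : ℕ} (u : Fin s → V) (I : Finset V) :
    ∑ v ∈ I, (cnt u {v} : ℝ) = cnt u I := by
  unfold cnt
  simp only [← sum_boole]
  rw [sum_comm]
  refine sum_congr rfl fun j _ => ?_
  simp only [mem_singleton]
  rw [sum_ite_eq I (u j) (fun _ => (1 : ℝ))]

theorem cnt_univ {V : Type} [Fintype V] {s : ℕ} (u : Fin s → V) : cnt u (univ : Finset V) = s := by
  unfold cnt
  simp

theorem cnt_comp {V : Type} {s : ℕ} (σ : Equiv.Perm V) (u : Fin s → V) (v : V) :
    cnt (fun j => σ (u j)) {σ v} = cnt u {v} := by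
  unfold cnt
  congr 1
  ext j
  simp

/-- `exists_balanced` with `Ω = Fin s → Fin n`, `S` = the tuples with `Clq G`, `c u v = cnt u {v}`. For `y` take a permutation `σ` such that
`y ∘ σ` is antitone (`Tuple.sort`), `π'` for `σ`, and `π u = π' (σ⁻¹ ∘ u)`; `m v = ∑ u, π' u * cnt u {v}` and `abel`. -/
theorem frac_exists (n s : ℕ) (G : SimpleGraph (Fin n)) (B t : ℝ) (hst : (s : ℝ) = n * t)
    (h : ∀ σ : Equiv.Perm (Fin n), ∃ π : (Fin s → Fin n) → ℝ, Dst (G.comap σ) s B π ∧
      ∀ r ≤ n, (r : ℝ) * t ≤ ∑ u, π u * cnt u (Ini n r)) :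
    ∃ π : (Fin s → Fin n) → ℝ, Dst G s B π ∧ ∀ v, ∑ u, π u * cnt u {v} = t := by
  obtain ⟨π, h1, h2, h3, h4, h5⟩ := exists_balanced (Ω := Fin s → Fin n) (V := Fin n) B
    (univ.filter fun u => Clq G u) (fun u v => (cnt u {v} : ℝ)) (fun _ => t) (by
      intro y
      set σ : Equiv.Perm (Fin n) := Tuple.sort (fun v => - y v) with hσ
      have hanti : Antitone (fun v => y (σ v)) := by
        have hmono := Tuple.monotone_sort (fun v => - y v)
        intro a b hab
        have h1 := hmono hab
        simp only [Function.comp] at h1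
        show y (σ b) ≤ y (σ a)
        rw [hσ]
        linarith
      obtain ⟨π', hD, hr⟩ := h σ
      -- the equivalence of the tuples
      set e : (Fin s → Fin n) ≃ (Fin s → Fin n) := (Equiv.refl (Fin s)).arrowCongr σ with he
      have hes : ∀ u, e u = fun j => σ (u j) := by
        intro u
        funext j
        simp [he, Equiv.arrowCongr]
      refine ⟨fun u => π' (e.symm u), fun u => hD.nn _, fun u => hD.le _, ?_, ?_, ?_⟩
      · intro u hu
        apply hD.sup
        intro hc
        apply hu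
        rw [mem_filter]
        refine ⟨mem_univ _, ?_⟩
        have h7 : u = e (e.symm u) := (e.apply_symm_apply u).symm
        rw [h7, hes]
        intro i j hij
        have h8 := hc i j hij
        refine ⟨fun h9 => h8.1 (σ.injective h9), h8.2⟩
      · rw [← hD.sum]
        exact Equiv.sum_comp e.symm π'
      · have hmr : ∀ r ≤ n, (r : ℝ) * t ≤ ∑ v ∈ Ini n r, ∑ u, π' u * (cnt u {v} : ℝ) := by
          intro r hrn
          rw [sum_comm]
          refine (hr r hrn).trans (le_of_eq ?_)
          refine sum_congr rfl fun u _ => ?_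
          rw [← mul_sum, sum_cnt]
        have hmt : ∑ v, ∑ u, π' u * (cnt u {v} : ℝ) = n * t := by
          rw [sum_comm]
          have h8 : ∀ u, ∑ v, π' u * (cnt u {v} : ℝ) = π' u * s := by
            intro u
            rw [← mul_sum, sum_cnt, cnt_univ]
          rw [sum_congr rfl fun u _ => h8 u, ← sum_mul, hD.sum, one_mul, hst]
        have h9 := abel n (fun v => y (σ v)) hanti
          (fun v => ∑ u, π' u * (cnt u {v} : ℝ)) t hmr hmt
        have h10 : ∑ v, y (σ v) * t = ∑ v, y v * t := Equiv.sum_comp σ (fun v => y v * t)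
        have h11 : ∑ v, y v * ∑ u, π' (e.symm u) * (cnt u {v} : ℝ) =
            ∑ v, y (σ v) * ∑ u, π' u * (cnt u {v} : ℝ) := by
          rw [← Equiv.sum_comp σ (fun v => y v * ∑ u, π' (e.symm u) * (cnt u {v} : ℝ))]
          refine sum_congr rfl fun v _ => ?_
          congr 1
          rw [← Equiv.sum_comp e (fun u => π' (e.symm u) * (cnt u {σ v} : ℝ))]
          refine sum_congr rfl fun u _ => ?_
          rw [e.symm_apply_apply, hes, cnt_comp]
        rw [h11, ← h10]
        exact h9)
  refine ⟨π, ⟨h1, h2, ?_, h4⟩, h5⟩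
  intro u hu
  apply h3
  rw [mem_filter]
  exact fun h6 => hu h6.2

end

end Pool.Agent.Helper69.NE
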